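import Pool.Agent.P.MP_a14ce1_nt.V.St

/-! The choice of the parameters: part V from the estimate at one scale. -/

open Finset Filter

namespace Pool.Agent.P.MP_a14ce1_nt.V

open Ch (CM rs pv)

namespace Final

theorem harm_Ioc {a b : ℕ} (ha : 1 ≤ a) (hab : a ≤ b) :
    ∑ m ∈ Ioc a b, (1 / (m : ℝ)) ≤ Real.log ((b : ℝ) / a) := by
  induction b, hab using Nat.le_induction with
  | base =>
    have : (a : ℝ) ≠ 0 := by exact_mod_cast (by omega : a ≠ 0)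
    simp [div_self this]
  | succ b hab ih =>
    have h1 : (0 : ℝ) < a := by exact_mod_cast ha
    have h2 : (0 : ℝ) < b := by exact_mod_cast (by omega : 0 < b)
    rw [sum_Ioc_succ_top hab]
    have h3 := Real.one_sub_inv_le_log_of_pos (x := ((b : ℝ) + 1) / b) (by positivity)
    have h4 : Real.log (((b + 1 : ℕ) : ℝ) / a) = Real.log ((b : ℝ) / a) + Real.log (((b : ℝ) + 1) / b) := by
      rw [← Real.log_mul (by positivity) (by positivity)]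
      congr 1; push_cast; field_simp
    have h5 : 1 - (((b : ℝ) + 1) / b)⁻¹ = 1 / ((b + 1 : ℕ) : ℝ) := by
      push_cast; field_simp; ring
    rw [h4, ← h5]; linarith

theorem harm_Ico {a b : ℕ} (ha : 1 ≤ a) (hab : a ≤ b) :
    ∑ m ∈ Ico a b, (1 / (m : ℝ)) ≤ 1 + Real.log ((b : ℝ) / a) := by
  have h1 : Ico a b ⊆ insert a (Ioc a b) := by
    intro m hm; simp only [mem_Ico, mem_insert, mem_Ioc] at hm ⊢; omega
  have h2 : (1 : ℝ) ≤ a := by exact_mod_cast ha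
  refine (sum_le_sum_of_subset_of_nonneg h1 fun _ _ _ => by positivity).trans ?_
  rw [sum_insert (by simp)]
  have h3 : 1 / (a : ℝ) ≤ 1 := by rw [div_le_one (by linarith)]; exact h2
  linarith [harm_Ioc ha hab]

theorem harm_Icc {Y X : ℕ} (h : Y ≤ X) (hX : 1 ≤ X) :
    ∑ m ∈ Icc 1 Y, (1 / (m : ℝ)) ≤ 1 + Real.log X := by
  have h1 : Icc 1 Y ⊆ insert 1 (Ioc 1 X) := by
    intro m hm; simp only [mem_Icc, mem_insert, mem_Ioc] at hm ⊢; omega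
  refine (sum_le_sum_of_subset_of_nonneg h1 fun _ _ _ => by positivity).trans ?_
  rw [sum_insert (by simp)]
  have := harm_Ioc le_rfl hX
  simp only [Nat.cast_one, div_one] at this ⊢
  linarith

theorem sq_Icc (Y : ℕ) : ∑ m ∈ Icc 1 Y, (1 / (m : ℝ)) * (1 / (m : ℝ)) ≤ 2 := by
  have h := sum_Ioo_inv_sq_le (α := ℝ) 0 (Y + 1)
  have e : Ioo 0 (Y + 1) = Icc 1 Y := by ext m; simp only [mem_Ioo, mem_Icc]; omega
  rw [e] at h
  refine le_trans (le_of_eq (sum_congr rfl fun m _ => ?_)) (h.trans (by norm_num))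
  rw [one_div, ← mul_inv, sq]

theorem rs_PP (h1 : Ch.S_M1) : ∃ C : ℝ, 0 < C ∧ ∀ a b : ℕ, 1 ≤ a → a ≤ b →
    Real.log ((b : ℝ) / a) - C ≤ rs (PP a b) := by
  obtain ⟨C, hC, h⟩ := h1
  refine ⟨C, hC, fun a b ha hab => ?_⟩
  have h2 : (2 : ℝ) ≤ ((2 ^ a : ℕ) : ℝ) := by
    exact_mod_cast (le_self_pow₀ (by norm_num) (by omega) : 2 ≤ 2 ^ a)
  have h3 : ((2 ^ a : ℕ) : ℝ) ≤ ((2 ^ b : ℕ) : ℝ) := by
    exact_mod_cast Nat.pow_le_pow_right (by norm_num) hab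
  have h4 := h _ _ h2 h3
  rw [Ch.pr_nat] at h4
  have h5 : Real.log ((2 ^ b : ℕ) : ℝ) / Real.log ((2 ^ a : ℕ) : ℝ) = (b : ℝ) / a := by
    have : Real.log 2 ≠ 0 := (Real.log_pos (by norm_num)).ne'
    push_cast
    rw [Real.log_pow, Real.log_pow, mul_div_mul_right _ _ this]
  rw [h5] at h4
  have := (abs_le.1 h4).1
  unfold PP; linarith

theorem exists_top (h1 : Ch.S_M1) (R : ℝ) (a : ℕ) (ha : 1 ≤ a) : ∃ b : ℕ, a ≤ b ∧ R ≤ rs (PP a b) ∧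
    ∑ m ∈ Ico a b, (1 / (m : ℝ)) ≤ 2 * rs (PP a b) := by
  obtain ⟨C, hC, h⟩ := rs_PP h1
  set T : ℝ := max R (1 + C) + C with hT
  have hc : 1 ≤ ⌈Real.exp T⌉₊ := Nat.one_le_iff_ne_zero.2 (Nat.ceil_pos.2 (Real.exp_pos T)).ne'
  have hab : a ≤ a * ⌈Real.exp T⌉₊ := Nat.le_mul_of_pos_right _ hc
  have ha' : (0 : ℝ) < a := by exact_mod_cast ha
  have h2 : T ≤ Real.log (((a * ⌈Real.exp T⌉₊ : ℕ) : ℝ) / a) := by
    have e : ((a * ⌈Real.exp T⌉₊ : ℕ) : ℝ) / a = ⌈Real.exp T⌉₊ := by push_cast; field_simp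
    rw [e, Real.le_log_iff_exp_le (by exact_mod_cast hc)]
    exact Nat.le_ceil _
  have h3 := h a _ ha hab
  have h4 := harm_Ico ha hab
  refine ⟨_, hab, ?_, ?_⟩
  · linarith [le_max_left R (1 + C)]
  · linarith [le_max_right R (1 + C)]

end Final

open Final

theorem vmain (h1 : Ch.S_M1) (hO : S_One) (hD : S_Dil) (hS : S_Swap) : S_V := by
  intro r f g h0 h l hl hf hg hne hLU δ hδ
  obtain ⟨D, hD0, hOne⟩ := hO r h0 h hne
  set ε : ℝ := δ / 13 with hε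
  have hε0 : 0 < ε := by positivity
  obtain ⟨C, hC, hOne⟩ := hOne ε hε0
  obtain ⟨H0, hH0⟩ := hLU (ε / C) (by positivity)
  obtain ⟨pf, hpf⟩ := hf.uni
  choose pg hpg using fun j => (hg j).uni
  set M0 : ℕ := H0 + pf + ∑ j, pg j + 1 with hM0
  have hM01 : 1 ≤ M0 := by omega
  obtain ⟨M1, hM1, hR, hΛ⟩ := exists_top h1 (max (C / ε) 1) M0 hM01
  set ρ : ℝ := rs (PP M0 M1) with hρ
  have hρ1 : 1 ≤ ρ := (le_max_right _ _).trans hR
  have hρC : C ≤ ε * ρ := by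
    have := (le_max_left _ _).trans hR
    rwa [div_le_iff₀' hε0] at this
  obtain ⟨B, hB, hOne⟩ := hOne M0 M1 hM01 hM1
  have hlt : M0 < 2 ^ M0 := Nat.lt_two_pow_self
  have huni : ∀ p ∈ PP M0 M1, ‖f p‖ = 1 ∧ ∀ j, ‖g j p‖ = 1 := by
    intro p hp
    rw [mem_PP] at hp
    refine ⟨hpf p hp.1 (by omega), fun j => hpg j p hp.1 ?_⟩
    have : pg j ≤ ∑ j, pg j := single_le_sum (f := pg) (fun _ _ => Nat.zero_le _) (mem_univ j)
    omega
  have hOne' := hOne f g hf.cm (fun j => (hg j).cm) huni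
  set Q : ℕ := pv (PP M0 M1) with hQ
  have hQ0 : 0 < Q := prod_pos fun p hp => (mem_PP.1 hp).1.pos
  have hev1 : ∀ᶠ X : ℕ in l, ∀ m ∈ Ico M0 M1,
      ∑ x ∈ Icc 1 X, (1 / (x : ℝ)) * cube r f x (D * 2 ^ m) ≤ ε / C * Real.log X := by
    rw [eventually_all_finset]
    intro m hm
    apply hH0
    have h2 : 2 ^ M0 ≤ 2 ^ m := Nat.pow_le_pow_right (by norm_num) (mem_Ico.1 hm).1
    have h3 : 2 ^ m ≤ D * 2 ^ m := Nat.le_mul_of_pos_left _ hD0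
    omega
  have hlog : Tendsto (fun X : ℕ => Real.log X) l atTop :=
    (Real.tendsto_log_atTop.comp tendsto_natCast_atTop_atTop).mono_left hl
  filter_upwards [hev1, hlog.eventually_ge_atTop 1,
    hlog.eventually_ge_atTop ((2 * B + ρ * (2 * Q + 4)) / (ε * ρ)),
    hl (eventually_ge_atTop 1)] with X hX1 hX2 hX3 hX4
  set a : ℕ → ℂ := fun n => f (n + h0) * ∏ j, g j (n + h j) with ha
  have ha1 : ∀ n, ‖a n‖ ≤ 1 := fun n => by
    rw [ha, norm_mul]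
    exact mul_le_one₀ (hf.cm.bd _) (norm_nonneg _) (norm_prod_le_one _ fun j _ => (hg j).cm.bd _)
  change ∑ N ∈ Icc 1 X, (1 / (N : ℝ)) * ‖av a N‖ ≤ δ * Real.log X
  set S : ℝ := ∑ N ∈ Icc 1 X, (1 / (N : ℝ)) * ‖av a N‖ with hSdef
  set c : ℕ → ℕ → ℝ := fun m L =>
    (∑ x ∈ Icc 1 (Q * L), cube r f x (D * 2 ^ m)) / ((Q * L : ℕ) : ℝ) with hc
  have step1 : ρ * S ≤ ∑ L ∈ Icc 1 (X / Q), (1 / (L : ℝ)) *
      (∑ p ∈ PP M0 M1, (1 / (p : ℝ)) * ‖av a (Q / p * L)‖) + ρ * (2 * Q + 4) := by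
    have e1 : ∑ L ∈ Icc 1 (X / Q), (1 / (L : ℝ)) *
        (∑ p ∈ PP M0 M1, (1 / (p : ℝ)) * ‖av a (Q / p * L)‖) + ρ * (2 * Q + 4) =
        ∑ p ∈ PP M0 M1, (1 / (p : ℝ)) *
          (∑ L ∈ Icc 1 (X / Q), (1 / (L : ℝ)) * ‖av a (Q / p * L)‖ + (2 * Q + 4)) := by
      simp only [mul_add (1 / (_ : ℝ)), sum_add_distrib, mul_sum]
      rw [sum_comm, hρ, rs, sum_mul, ← sum_add_distrib, ← sum_add_distrib, ← sum_add_distrib]
      refine sum_congr rfl fun p _ => ?_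
      rw [mul_add]
      congr 1
      exact sum_congr rfl fun L _ => by ring
    rw [e1, hρ, rs, sum_mul]
    refine sum_le_sum fun p hp => mul_le_mul_of_nonneg_left ?_ (by positivity)
    have hd : p ∣ Q := dvd_prod_of_mem _ hp
    exact hD a (Q / p) Q X ha1
      (Nat.div_pos (Nat.le_of_dvd hQ0 hd) (mem_PP.1 hp).1.pos) (Nat.div_le_self _ _)
  have step2 : ∑ L ∈ Icc 1 (X / Q), (1 / (L : ℝ)) *
      (∑ p ∈ PP M0 M1, (1 / (p : ℝ)) * ‖av a (Q / p * L)‖) ≤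
      ∑ L ∈ Icc 1 (X / Q), (1 / (L : ℝ)) *
        (C + ε * ρ + B / L + ∑ m ∈ Ico M0 M1, (ε + C * c m L) / m) :=
    sum_le_sum fun L hL => mul_le_mul_of_nonneg_left (hOne' L (mem_Icc.1 hL).1) (by positivity)
  set Λ : ℝ := ∑ m ∈ Ico M0 M1, (1 / (m : ℝ)) with hΛdef
  have step3 : ∑ L ∈ Icc 1 (X / Q), (1 / (L : ℝ)) *
        (C + ε * ρ + B / L + ∑ m ∈ Ico M0 M1, (ε + C * c m L) / m) =
      (C + ε * ρ + ε * Λ) * ∑ L ∈ Icc 1 (X / Q), (1 / (L : ℝ)) +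
        B * ∑ L ∈ Icc 1 (X / Q), (1 / (L : ℝ)) * (1 / (L : ℝ)) +
        ∑ m ∈ Ico M0 M1, C / m * ∑ L ∈ Icc 1 (X / Q), (1 / (L : ℝ)) * c m L := by
    have e2 : ∑ m ∈ Ico M0 M1, C / m * ∑ L ∈ Icc 1 (X / Q), (1 / (L : ℝ)) * c m L =
        ∑ L ∈ Icc 1 (X / Q), (1 / (L : ℝ)) * ∑ m ∈ Ico M0 M1, C * c m L / m := by
      simp only [mul_sum]
      rw [sum_comm]
      exact sum_congr rfl fun L _ => sum_congr rfl fun m _ => by ring
    rw [e2, mul_sum (Icc 1 (X / Q)) _ B, mul_sum (Icc 1 (X / Q)) _ (C + ε * ρ + ε * Λ),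
      ← sum_add_distrib, ← sum_add_distrib]
    refine sum_congr rfl fun L _ => ?_
    have e3 : ∑ m ∈ Ico M0 M1, (ε + C * c m L) / m = ε * Λ + ∑ m ∈ Ico M0 M1, C * c m L / m := by
      rw [hΛdef, mul_sum, ← sum_add_distrib]
      exact sum_congr rfl fun m _ => by ring
    rw [e3]; ring
  have hb1 : ∑ L ∈ Icc 1 (X / Q), (1 / (L : ℝ)) ≤ 2 * Real.log X := by
    linarith [harm_Icc (Nat.div_le_self X Q) hX4]
  have hb2 := sq_Icc (X / Q)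
  have hb3 : ∑ m ∈ Ico M0 M1, C / m * ∑ L ∈ Icc 1 (X / Q), (1 / (L : ℝ)) * c m L ≤
      2 * ε * Real.log X * Λ := by
    rw [hΛdef, mul_sum]
    refine sum_le_sum fun m hm => ?_
    have h2 := hS (fun x => cube r f x (D * 2 ^ m)) Q X (fun x => cube_nonneg _ _ _ _) hQ0
    have h3 := hX1 m hm
    calc _ ≤ C / m * (2 * (ε / C * Real.log X)) :=
          mul_le_mul_of_nonneg_left (h2.trans (by linarith)) (by positivity)
      _ = _ := by field_simp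
  have hΛ0 : 0 ≤ Λ := sum_nonneg fun _ _ => by positivity
  have hερ : 0 < ε * ρ := by positivity
  rw [div_le_iff₀ hερ] at hX3
  have hL0 : 0 ≤ Real.log X := by linarith
  have hεΛ : ε * Λ ≤ 2 * (ε * ρ) := by nlinarith
  have h4 : (C + ε * ρ + ε * Λ) * ∑ L ∈ Icc 1 (X / Q), (1 / (L : ℝ)) ≤
      (4 * (ε * ρ)) * (2 * Real.log X) :=
    mul_le_mul (by linarith) hb1 (sum_nonneg fun _ _ => by positivity) (by positivity)
  have h5 : B * ∑ L ∈ Icc 1 (X / Q), (1 / (L : ℝ)) * (1 / (L : ℝ)) ≤ B * 2 :=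
    mul_le_mul_of_nonneg_left hb2 hB
  have h6 : 2 * ε * Real.log X * Λ ≤ 4 * (ε * ρ) * Real.log X := by nlinarith
  have h7 : ρ * S ≤ ρ * (δ * Real.log X) := by
    have : ρ * (δ * Real.log X) = 13 * (ε * ρ) * Real.log X := by rw [hε]; ring
    rw [this]; nlinarith
  exact le_of_mul_le_mul_left h7 (by linarith)

end Pool.Agent.P.MP_a14ce1_nt.V
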