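import Pool.Agent.P.MP_a14ce1_nt.V.St

/-!
Assembly at one scale.
-/

open Finset Filter

namespace Pool.Agent.P.MP_a14ce1_nt.V

open Ch (CM rs pv)

namespace OneP

/-- the estimate for one prime -/
theorem point {p M N : ℕ} (hp : 0 < p) (hM : 0 < M) (hN : N = p * M) {σ c A T S E : ℂ} {K : ℝ}
    (hσ : ‖σ‖ ≤ 1) (hc : ‖c‖ = 1) (h1 : (‖c * (1 / (M : ℂ) * A)‖ : ℂ) = σ * (c * (1 / (M : ℂ) * A)))
    (h2 : ‖T - c * A‖ ≤ K) (h3 : E = T - 1 / p * S) :
    1 / (p : ℝ) * ‖1 / (M : ℂ) * A‖ ≤ (σ * (E / N)).re + (σ / p * (S / N)).re + K / N := by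
  have hp' : (p : ℂ) ≠ 0 := Nat.cast_ne_zero.2 hp.ne'
  have hM' : (M : ℂ) ≠ 0 := Nat.cast_ne_zero.2 hM.ne'
  have hN0 : (0 : ℝ) < N := by rw [hN]; positivity
  rw [norm_mul, hc, one_mul] at h1
  have h4 : ((1 / (p : ℝ) * ‖1 / (M : ℂ) * A‖ : ℝ) : ℂ) =
      σ * (E / N) + σ / p * (S / N) + σ * ((c * A - T) / N) := by
    rw [Complex.ofReal_mul, h1, h3, hN]
    push_cast
    field_simp
    ring
  have h5 : (σ * ((c * A - T) / N)).re ≤ K / N := by
    refine (Complex.re_le_norm _).trans ?_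
    rw [norm_mul, norm_div, Complex.norm_natCast, norm_sub_rev]
    exact (mul_le_of_le_one_left (by positivity) hσ).trans (div_le_div_of_nonneg_right h2 hN0.le)
  have h6 := congrArg Complex.re h4
  rw [Complex.ofReal_re, Complex.add_re, Complex.add_re] at h6
  linarith

/-- the numerical estimate for one dyadic block -/
theorem block {m L N : ℕ} (hm : 1 ≤ m) (hL : 1 ≤ L) (hN : L ≤ N) {ε C C' x y K : ℝ} (hε : 0 < ε)
    (hC : 0 < C) (hC' : 2 * C ≤ C') (hx : 0 ≤ x) (hy : 0 ≤ y) (hK : 0 ≤ K) (h : x ≤ y + K) :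
    (ε / 2 + C * (x / N)) / Real.log ((2 ^ m : ℕ) : ℝ) ≤
      2 * C * K / L + (ε + C' * (y / N)) / m := by
  have hm' : (1 : ℝ) ≤ m := by exact_mod_cast hm
  have hL' : (1 : ℝ) ≤ L := by exact_mod_cast hL
  have hN' : (L : ℝ) ≤ N := by exact_mod_cast hN
  have hN0 : (0 : ℝ) < N := by linarith
  have hlog : (m : ℝ) / 2 ≤ Real.log ((2 ^ m : ℕ) : ℝ) := by
    rw [Nat.cast_pow, Real.log_pow, Nat.cast_ofNat]
    nlinarith [Real.log_two_gt_d9]
  have h1 : x / N ≤ y / N + K / L := by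
    refine (div_le_div_of_nonneg_right h hN0.le).trans ?_
    rw [add_div]
    exact add_le_add_right (div_le_div_of_nonneg_left hK (by linarith) hN') _
  have h2 : 0 ≤ y / N := by positivity
  have h3 : 0 ≤ K / L := by positivity
  refine (div_le_div_of_nonneg_left (by positivity) (by positivity) hlog).trans ?_
  calc (ε / 2 + C * (x / N)) / (m / 2) = (ε + 2 * C * (x / N)) / m := by field_simp
    _ ≤ (2 * C * (K / L) + (ε + C' * (y / N))) / m := by
      refine div_le_div_of_nonneg_right ?_ (by positivity)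
      nlinarith [mul_le_mul_of_nonneg_left h1 hC.le, mul_le_mul_of_nonneg_right hC' h2]
    _ ≤ _ := by
      rw [add_div, mul_div_assoc (2 * C) K]
      exact add_le_add_left (div_le_self (by positivity) hm') _

end OneP

open OneP

theorem one (hE : S_EDapp) (hG : S_GvN) (hM : S_Mult) (hW : S_Wrap) : S_One := by
  intro r h0 h hh
  obtain ⟨D, hD, hG⟩ := hG r h0 h hh
  refine ⟨D, hD, fun ε hε => ?_⟩
  obtain ⟨CG, hCG, hG⟩ := hG (ε / 2) (half_pos hε)
  obtain ⟨CE, hCE, hE⟩ := hE (Option (Fin r)) (fun i => i.elim h0 h) ε hε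
  refine ⟨CE + 2 * CG, by positivity, fun M0 M1 hM0 hM01 => ?_⟩
  set b := h0 + ∑ j, h j with hb
  have hle : ∀ i : Option (Fin r), i.elim h0 h ≤ b := by
    rintro (_ | j)
    · exact Nat.le_add_right _ _
    · exact (single_le_sum (fun _ _ => Nat.zero_le _) (mem_univ j)).trans (Nat.le_add_left _ _)
  refine ⟨(PP M0 M1).card * (2 * b + 2) +
    ∑ m ∈ Ico M0 M1, 2 * CG * ((((D * 2 ^ m : ℕ) : ℝ) + 1) * 2 ^ r), by positivity,
    fun f g hf hg hu L hL => ?_⟩
  set Q := pv (PP M0 M1) with hQ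
  have hQ0 : 0 < Q := prod_pos fun p hp => (mem_PP.1 hp).1.pos
  have hdvd : ∀ p ∈ PP M0 M1, p ∣ Q := fun p hp => dvd_prod_of_mem _ hp
  have hLN : L ≤ Q * L := Nat.le_mul_of_pos_left _ hQ0
  haveI : NeZero (Q * L) := ⟨(Nat.mul_pos hQ0 hL).ne'⟩
  set gg : Option (Fin r) → ℕ → ℂ := fun i => i.elim f g with hgg
  have hcm : ∀ i, CM (gg i) := by
    rintro (_ | j)
    exacts [hf, hg j]
  choose σ hσ1 hσ using fun p : ℕ => Complex.exists_norm_eq_mul_self ((∏ i, gg i p) *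
    av (fun n => f (n + h0) * ∏ j, g j (n + h j)) (Q / p * L))
  have h1 := hE (Q * L) (fun i n => gg i n.val) σ M0 M1 hM01 (fun i n => (hcm i).bd _)
    (fun p => (hσ1 p).le) fun p hp => (hdvd p hp).mul_right L
  have h2 : ∀ p ∈ PP M0 M1, (1 / (p : ℝ)) *
      ‖av (fun n => f (n + h0) * ∏ j, g j (n + h j)) (Q / p * L)‖ ≤
      (σ p * ((∑ n : ZMod (Q * L), ((ind p n - 1 / p : ℝ) : ℂ) *
        ∏ i : Option (Fin r), gg i (n + ((p * i.elim h0 h : ℕ) : ZMod (Q * L))).val) /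
          (Q * L : ℕ))).re +
      (σ p / p * ((∑ n : ZMod (Q * L), f (n + ((p * h0 : ℕ) : ZMod (Q * L))).val *
        ∏ j, g j (n + ((p * h j : ℕ) : ZMod (Q * L))).val) / (Q * L : ℕ))).re +
      (2 * b + 2) / L := by
    intro p hp
    have hp0 := (mem_PP.1 hp).1.pos
    have hN : Q * L = p * (Q / p * L) := by rw [← mul_assoc, Nat.mul_div_cancel' (hdvd p hp)]
    have hc : ‖∏ i, gg i p‖ = 1 := by
      rw [norm_prod]
      refine prod_eq_one ?_
      rintro (_ | j) -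
      exacts [(hu p hp).1, (hu p hp).2 j]
    have h3 := hM (Option (Fin r)) gg (fun i => i.elim h0 h) b p (Q / p * L) (Q * L) hcm hle hN
    have h4 : ∑ m ∈ Icc 1 (Q / p * L), ∏ i : Option (Fin r), gg i (m + i.elim h0 h) =
        ∑ n ∈ Icc 1 (Q / p * L), f (n + h0) * ∏ j, g j (n + h j) :=
      sum_congr rfl fun m _ => Fintype.prod_option _
    rw [h4] at h3
    refine (point hp0 (Nat.mul_pos (Nat.div_pos (Nat.le_of_dvd hQ0 (hdvd p hp)) hp0) hL) hN
      (hσ1 p).le hc (hσ p) h3 ?_).trans (add_le_add_right (div_le_div_of_nonneg_left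
        (by positivity) (by exact_mod_cast hL) (by exact_mod_cast hLN)) _)
    rw [mul_sum, ← sum_sub_distrib]
    refine sum_congr rfl fun n _ => ?_
    rw [Fintype.prod_option]
    push_cast
    simp only [hgg, Option.elim]
    ring
  have h5 : ∀ m ∈ Ico M0 M1, ∑ p ∈ dy (2 ^ m),
      (σ p / p * ((∑ n : ZMod (Q * L), f (n + ((p * h0 : ℕ) : ZMod (Q * L))).val *
        ∏ j, g j (n + ((p * h j : ℕ) : ZMod (Q * L))).val) / (Q * L : ℕ))).re ≤
      2 * CG * ((((D * 2 ^ m : ℕ) : ℝ) + 1) * 2 ^ r) / L +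
        (ε + (CE + 2 * CG) * ((∑ x ∈ Icc 1 (Q * L), cube r f x (D * 2 ^ m)) /
          ((Q * L : ℕ) : ℝ))) / m := by
    intro m hm
    have hm1 : 1 ≤ m := hM0.trans (mem_Ico.1 hm).1
    rw [← Complex.re_sum]
    refine (Complex.re_le_norm _).trans ((hG (2 ^ m) (Q * L) (fun n => f n.val)
      (fun j n => g j n.val) σ (Nat.le_self_pow (by omega) 2) (fun j n => (hg j).bd _)
      fun p => (hσ1 p).le).trans ?_)
    exact block hm1 hL hLN hε hCG (by linarith)
      (sum_nonneg fun x _ => div_nonneg (gow_nonneg _ _ _) (by positivity))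
      (sum_nonneg fun x _ => cube_nonneg _ _ _ _) (by positivity)
      (hW (Q * L) r (D * 2 ^ m) f hf.bd)
  refine (sum_le_sum h2).trans ?_
  rw [sum_add_distrib, sum_add_distrib, sum_PP (fun p => (σ p / p *
    ((∑ n : ZMod (Q * L), f (n + ((p * h0 : ℕ) : ZMod (Q * L))).val *
      ∏ j, g j (n + ((p * h j : ℕ) : ZMod (Q * L))).val) / (Q * L : ℕ))).re) hM01, sum_const,
    nsmul_eq_mul, add_div (_ * _ : ℝ) (∑ m ∈ Ico M0 M1, _), sum_div, mul_div_assoc]
  have h6 := sum_le_sum h5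
  rw [sum_add_distrib] at h6
  linarith

end Pool.Agent.P.MP_a14ce1_nt.V
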