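import Pool.Agent.P.MP_a14ce1_nt.V.St

/-! Affine forms: reduction to shifts by Dirichlet characters. -/

open Finset Filter

namespace Pool.Agent.P.MP_a14ce1_nt.V

namespace Aff

theorem pcm_char {A : ℕ} (hA : 0 < A) (χ : DirichletCharacter ℂ A) :
    PCM (fun n : ℕ => χ (n : ZMod A)) := by
  refine ⟨⟨fun m n _ _ => by rw [Nat.cast_mul, map_mul], fun n => χ.norm_le_one _⟩, A + 1, ?_⟩
  intro p hp hAp
  have hc : Nat.Coprime p A :=
    (Nat.Prime.coprime_iff_not_dvd hp).2 fun h => by have := Nat.le_of_dvd hA h; omega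
  have hu : IsUnit (p : ZMod A) := (ZMod.isUnit_iff_coprime p A).2 hc
  obtain ⟨u, hu⟩ := hu
  rw [← hu]
  exact DirichletCharacter.unit_norm_eq_one χ u

/-- multiples of A through characters -/
theorem sum_mul_eq {A : ℕ} [NeZero A] (F : ℕ → ℂ) (c N : ℕ) :
    (A.totient : ℂ) * ∑ n ∈ Icc 1 N, F (A * n) =
      ∑ χ : DirichletCharacter ℂ A, ∑ m ∈ Icc 1 (A * N),
        χ ((m + (A * c + 1) : ℕ) : ZMod A) * F m := by
  have hA : 0 < A := NeZero.pos A
  rw [sum_comm]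
  have e1 : ∀ m : ℕ, ∑ χ : DirichletCharacter ℂ A, χ ((m + (A * c + 1) : ℕ) : ZMod A) * F m =
      if A ∣ m then (A.totient : ℂ) * F m else 0 := by
    intro m
    rw [← sum_mul, DirichletCharacter.sum_characters_eq]
    have e : (((m + (A * c + 1) : ℕ) : ZMod A) = 1) ↔ A ∣ m := by
      rw [← ZMod.natCast_eq_zero_iff]
      push_cast
      rw [ZMod.natCast_self, zero_mul, zero_add, add_eq_right]
    by_cases h : A ∣ m
    · rw [if_pos h, if_pos (e.2 h)]
    · rw [if_neg h, if_neg (fun h' => h (e.1 h')), zero_mul]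
  simp only [e1]
  rw [← sum_filter, ← mul_sum]
  congr 1
  have e : (Icc 1 (A * N)).filter (fun m => A ∣ m) = (Icc 1 N).image (fun n => A * n) := by
    ext m
    simp only [mem_filter, mem_Icc, mem_image]
    constructor
    · rintro ⟨⟨h1, h2⟩, n, rfl⟩
      refine ⟨n, ⟨?_, Nat.le_of_mul_le_mul_left h2 hA⟩, rfl⟩
      rcases Nat.eq_zero_or_pos n with rfl | hn
      · simp at h1
      · exact hn
    · rintro ⟨n, ⟨h1, h2⟩, rfl⟩
      exact ⟨⟨Nat.mul_pos hA h1, Nat.mul_le_mul_left A h2⟩, dvd_mul_right _ _⟩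
  rw [e, sum_image fun x _ y _ h => Nat.eq_of_mul_eq_mul_left hA h]

/-- comparison of the logarithmic means -/
theorem log_le {A : ℕ} [NeZero A] (T F : ℕ → ℂ) (κ : ℂ) (hκ : ‖κ‖ = 1)
    (hT : ∀ n, 1 ≤ n → F (A * n) = κ * T n) (c X : ℕ) :
    ∑ N ∈ Icc 1 X, (1 / (N : ℝ)) * ‖av T N‖ ≤ (A : ℝ) ^ 2 * ∑ χ : DirichletCharacter ℂ A,
      ∑ N ∈ Icc 1 (A * X), (1 / (N : ℝ)) *
        ‖av (fun m => χ ((m + (A * c + 1) : ℕ) : ZMod A) * F m) N‖ := by
  have hA : 0 < A := NeZero.pos A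
  have hA' : (0 : ℝ) < A := by exact_mod_cast hA
  have h1 : ∀ N ∈ Icc 1 X, (1 / (N : ℝ)) * ‖av T N‖ ≤ (A : ℝ) ^ 2 *
      ∑ χ : DirichletCharacter ℂ A, (1 / ((A * N : ℕ) : ℝ)) *
        ‖av (fun m => χ ((m + (A * c + 1) : ℕ) : ZMod A) * F m) (A * N)‖ := by
    intro N hN
    have hN' : (0 : ℝ) < N := by exact_mod_cast (mem_Icc.1 hN).1
    have e1 : ‖∑ n ∈ Icc 1 N, T n‖ = ‖∑ n ∈ Icc 1 N, F (A * n)‖ := by
      rw [sum_congr rfl fun n hn => hT n (mem_Icc.1 hn).1, ← mul_sum, norm_mul, hκ, one_mul]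
    have e2 : ‖∑ n ∈ Icc 1 N, F (A * n)‖ ≤ ∑ χ : DirichletCharacter ℂ A,
        ‖∑ m ∈ Icc 1 (A * N), χ ((m + (A * c + 1) : ℕ) : ZMod A) * F m‖ := by
      refine le_trans ?_ (norm_sum_le _ _)
      rw [← sum_mul_eq F c N, norm_mul, Complex.norm_natCast]
      have : (1 : ℝ) ≤ A.totient := by exact_mod_cast Nat.totient_pos.2 hA
      exact le_mul_of_one_le_left (norm_nonneg _) this
    unfold av
    simp only [norm_mul, norm_div, norm_one, Complex.norm_natCast, ← mul_assoc]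
    rw [← mul_sum, ← mul_assoc, e1]
    refine mul_le_mul (le_of_eq ?_) e2 (norm_nonneg _) (by positivity)
    push_cast
    field_simp
  refine (sum_le_sum h1).trans ?_
  rw [← mul_sum, sum_comm]
  refine mul_le_mul_of_nonneg_left (sum_le_sum fun χ _ => ?_) (by positivity)
  rw [← sum_image (s := Icc 1 X) (g := fun N => A * N) (f := fun N : ℕ => (1 / (N : ℝ)) *
    ‖av (fun m => χ ((m + (A * c + 1) : ℕ) : ZMod A) * F m) N‖)
    fun x _ y _ h => Nat.eq_of_mul_eq_mul_left hA h]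
  refine sum_le_sum_of_subset_of_nonneg (fun m hm => ?_) fun _ _ _ => by positivity
  obtain ⟨n, hn, rfl⟩ := mem_image.1 hm
  rw [mem_Icc] at hn ⊢
  exact ⟨Nat.mul_pos hA hn.1, Nat.mul_le_mul_left A hn.2⟩

end Aff

theorem aff (h : S_V) : S_Aff := by
  intro r f g a0 b0 a b hf hg hf1 hg1 ha0 ha hne hLU δ hδ
  set e0 : ℕ := ∏ j, a j with he0
  have he0p : 0 < e0 := prod_pos fun j _ => ha j
  set A : ℕ := a0 * e0 with hA
  have hAp : 0 < A := Nat.mul_pos ha0 he0p
  have : NeZero A := ⟨hAp.ne'⟩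
  have hd : ∀ j, ∃ e, A = a j * e := fun j => (dvd_prod_of_mem a (mem_univ j)).mul_left a0
  choose e he using hd
  have hep : ∀ j, 0 < e j := fun j => Nat.pos_of_mul_pos_left (he j ▸ hAp)
  set c0 : ℕ := e0 * b0 with hc0
  set c : Fin r → ℕ := fun j => e j * b j with hc
  have hcne : ∀ j, c j ≠ c0 := by
    intro j hj
    apply hne j
    have hj' : e j * b j = e0 * b0 := hj
    apply Nat.eq_of_mul_eq_mul_left hAp
    calc A * (a0 * b j) = a0 * a j * (e j * b j) := by rw [he j]; ring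
      _ = a0 * a j * (e0 * b0) := by rw [hj']
      _ = A * (a j * b0) := by rw [hA]; ring
  set F : ℕ → ℂ := fun m => f (m + c0) * ∏ j, g j (m + c j) with hF
  have hκ : ‖f e0 * ∏ j, g j (e j)‖ = 1 := by
    rw [norm_mul, norm_prod, hf1 e0 he0p.ne', one_mul]
    exact prod_eq_one fun j _ => hg1 j _ (hep j).ne'
  have hT : ∀ n, 1 ≤ n → F (A * n) = (f e0 * ∏ j, g j (e j)) *
      (f (a0 * n + b0) * ∏ j, g j (a j * n + b j)) := by
    intro n hn
    have e1 : f (A * n + c0) = f e0 * f (a0 * n + b0) := by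
      rw [← hf.cm.mul _ _ he0p.ne' (by have := Nat.mul_pos ha0 hn; omega)]
      congr 1
      rw [hA, hc0]; ring
    have e2 : ∀ j, g j (A * n + c j) = g j (e j) * g j (a j * n + b j) := by
      intro j
      rw [← (hg j).cm.mul _ _ (hep j).ne' (by have := Nat.mul_pos (ha j) hn; omega)]
      congr 1
      rw [he j]; simp only [hc]; ring
    simp only [hF, e1, e2, prod_mul_distrib]
    ring
  set K : ℝ := (Fintype.card (DirichletCharacter ℂ A) : ℝ) with hK
  have hKp : 0 < K := by rw [hK]; exact_mod_cast Fintype.card_pos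
  have hA' : (0 : ℝ) < A := by exact_mod_cast hAp
  have hδ' : 0 < δ / (2 * (A : ℝ) ^ 2 * K) := by positivity
  have key : ∀ χ : DirichletCharacter ℂ A, ∀ᶠ X : ℕ in atTop,
      ∑ N ∈ Icc 1 X, (1 / (N : ℝ)) *
        ‖av (fun m => χ ((m + (A * (c0 + 1) + 1) : ℕ) : ZMod A) * F m) N‖ ≤
        δ / (2 * (A : ℝ) ^ 2 * K) * Real.log X := by
    intro χ
    have h1 := h (r + 1) f (Fin.cons (fun n : ℕ => χ (n : ZMod A)) g) c0
      (Fin.cons (A * (c0 + 1) + 1) c) atTop le_rfl hf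
      (fun j => Fin.cases (Aff.pcm_char hAp χ) hg j)
      (fun j => Fin.cases (by
        have : c0 + 1 ≤ A * (c0 + 1) := Nat.le_mul_of_pos_left _ hAp
        simp only [Fin.cons_zero]; omega) hcne j) hLU _ hδ'
    filter_upwards [h1] with X hX
    refine le_trans (le_of_eq ?_) hX
    refine sum_congr rfl fun N _ => ?_
    unfold av
    congr 3
    refine sum_congr rfl fun n _ => ?_
    simp only [Fin.prod_univ_succ, Fin.cons_zero, Fin.cons_succ, hF]
    ring
  have hten : Tendsto (fun X : ℕ => A * X) atTop atTop := tendsto_id.const_mul_atTop' hAp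
  filter_upwards [hten.eventually (eventually_all.2 key), eventually_ge_atTop A] with X hX hAX
  refine (Aff.log_le _ F _ hκ hT (c0 + 1) X).trans ?_
  have h2 := sum_le_card_nsmul univ _ _ fun χ _ => hX χ
  rw [card_univ, nsmul_eq_mul, ← hK] at h2
  have hX' : (A : ℝ) ≤ X := by exact_mod_cast hAX
  have h3 : Real.log ((A * X : ℕ) : ℝ) ≤ 2 * Real.log X := by
    push_cast
    rw [Real.log_mul hA'.ne' (by linarith)]
    linarith [Real.log_le_log hA' hX']
  calc _ ≤ (A : ℝ) ^ 2 * (K * (δ / (2 * (A : ℝ) ^ 2 * K) * Real.log ((A * X : ℕ) : ℝ))) :=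
        mul_le_mul_of_nonneg_left h2 (by positivity)
    _ ≤ (A : ℝ) ^ 2 * (K * (δ / (2 * (A : ℝ) ^ 2 * K) * (2 * Real.log X))) := by gcongr
    _ = δ * Real.log X := by field_simp

end Pool.Agent.P.MP_a14ce1_nt.V
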