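import Pool.Agent.P.MP_a14ce1_nt.V.St

/-!
Iterated Cauchy-Schwarz: the generalised von Neumann inequality on Z/N with a weight on the step.
-/

open Finset Filter

namespace Pool.Agent.P.MP_a14ce1_nt.V

namespace CS

/-- the weighted correlation -/
noncomputable def Lam {N : ℕ} [NeZero N] {r : ℕ} (H : ℕ) (θ : ℤ → ℂ) (f : ZMod N → ℂ)
    (g : Fin r → ZMod N → ℂ) (h0 : ℤ) (h : Fin r → ℤ) : ℂ :=
  ∑ u ∈ Ico (0 : ℤ) H, θ u * ∑ n : ZMod N, f (n + ((u * h0 : ℤ) : ZMod N)) *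
      ∏ j, g j (n + ((u * h j : ℤ) : ZMod N))

theorem sum_window (H : ℕ) (Ψ : ℤ → ℂ) (hΨ : ∀ u, Ψ u ≠ 0 → 0 ≤ u ∧ u < H) {u : ℤ}
    (hu : u ∈ Ico (0 : ℤ) H) :
    ∑ v ∈ Ico (0 : ℤ) H, Ψ v = ∑ s ∈ Ioo (-(H : ℤ)) H, Ψ (u + s) := by
  have e : ∑ s ∈ Ioo (-(H : ℤ)) H, Ψ (u + s) = ∑ v ∈ Ioo (u + -(H : ℤ)) (u + H), Ψ v := by
    rw [← Finset.map_add_left_Ioo, sum_map]
    rfl
  rw [e]
  rw [mem_Ico] at hu
  refine sum_subset ?_ ?_
  · intro v hv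
    rw [mem_Ico] at hv
    rw [mem_Ioo]
    omega
  · intro v _ hv
    by_contra h
    exact hv (mem_Ico.2 (hΨ v h))

theorem vdc (H : ℕ) (Ψ : ℤ → ℂ) (hΨ : ∀ u, Ψ u ≠ 0 → 0 ≤ u ∧ u < H) :
    ((‖∑ u ∈ Ico (0 : ℤ) H, Ψ u‖ ^ 2 : ℝ) : ℂ) =
      ∑ s ∈ Ioo (-(H : ℤ)) H, ∑ u ∈ Ico (0 : ℤ) H, Ψ (u + s) * (starRingEnd ℂ) (Ψ u) := by
  rw [sum_comm]
  have e : ((‖∑ u ∈ Ico (0 : ℤ) H, Ψ u‖ ^ 2 : ℝ) : ℂ) =
      (∑ u ∈ Ico (0 : ℤ) H, Ψ u) * (starRingEnd ℂ) (∑ u ∈ Ico (0 : ℤ) H, Ψ u) := by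
    rw [Complex.mul_conj, Complex.normSq_eq_norm_sq]
  rw [e, map_sum, mul_sum]
  refine sum_congr rfl fun u hu => ?_
  rw [sum_window H Ψ hΨ hu, sum_mul]

/-- one Cauchy-Schwarz step -/
theorem step {N : ℕ} [NeZero N] {r : ℕ} (H : ℕ) (θ : ℤ → ℂ) (f : ZMod N → ℂ)
    (g : Fin (r + 1) → ZMod N → ℂ) (h0 : ℤ) (h : Fin (r + 1) → ℤ)
    (hθ : ∀ u, θ u ≠ 0 → 0 ≤ u ∧ u < H) (hg : ∀ n, ‖g 0 n‖ ≤ 1) :
    ‖Lam H θ f g h0 h‖ ^ 2 ≤ N * ∑ s ∈ Ioo (-(H : ℤ)) H,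
      ‖Lam H (dl s θ) (dlz (s * (h0 - h 0)) f)
        (fun j : Fin r => dlz (s * (h j.succ - h 0)) (g j.succ)) (h0 - h 0)
        (fun j => h j.succ - h 0)‖ := by
  set Ψ : ZMod N → ℤ → ℂ := fun n u => θ u * (f (n + ((u * (h0 - h 0) : ℤ) : ZMod N)) *
      ∏ j : Fin r, g j.succ (n + ((u * (h j.succ - h 0) : ℤ) : ZMod N))) with hΨ
  have e1 : Lam H θ f g h0 h = ∑ n : ZMod N, g 0 n * ∑ u ∈ Ico (0 : ℤ) H, Ψ n u := by
    unfold Lam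
    simp only [mul_sum]
    rw [sum_comm (s := (univ : Finset (ZMod N)))]
    refine sum_congr rfl fun u _ => ?_
    rw [← sum_shift (fun n => g 0 n * Ψ n u) ((u * h 0 : ℤ) : ZMod N)]
    refine sum_congr rfl fun n _ => ?_
    rw [Fin.prod_univ_succ]
    simp only [hΨ]
    have a1 : n + ((u * h 0 : ℤ) : ZMod N) + ((u * (h0 - h 0) : ℤ) : ZMod N) =
        n + ((u * h0 : ℤ) : ZMod N) := by push_cast; ring
    have a2 : ∀ j : Fin r, n + ((u * h 0 : ℤ) : ZMod N) + ((u * (h j.succ - h 0) : ℤ) : ZMod N) =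
        n + ((u * h j.succ : ℤ) : ZMod N) := fun j => by push_cast; ring
    simp only [a1, a2]
    ring
  have e2 : ‖Lam H θ f g h0 h‖ ≤ ∑ n : ZMod N, ‖∑ u ∈ Ico (0 : ℤ) H, Ψ n u‖ := by
    rw [e1]
    refine (norm_sum_le _ _).trans (sum_le_sum fun n _ => ?_)
    rw [norm_mul]
    exact mul_le_of_le_one_left (norm_nonneg _) (hg n)
  have e3 : (∑ n : ZMod N, ‖∑ u ∈ Ico (0 : ℤ) H, Ψ n u‖) ^ 2 ≤
      N * ∑ n : ZMod N, ‖∑ u ∈ Ico (0 : ℤ) H, Ψ n u‖ ^ 2 := by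
    have := sq_sum_le_card_mul_sum_sq (s := (univ : Finset (ZMod N)))
      (f := fun n => ‖∑ u ∈ Ico (0 : ℤ) H, Ψ n u‖)
    rwa [card_univ, ZMod.card] at this
  have e4 : ((∑ n : ZMod N, ‖∑ u ∈ Ico (0 : ℤ) H, Ψ n u‖ ^ 2 : ℝ) : ℂ) =
      ∑ s ∈ Ioo (-(H : ℤ)) H, Lam H (dl s θ) (dlz (s * (h0 - h 0)) f)
        (fun j : Fin r => dlz (s * (h j.succ - h 0)) (g j.succ)) (h0 - h 0)
        (fun j => h j.succ - h 0) := by
    rw [Complex.ofReal_sum]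
    have b : ∀ n, ∀ u, Ψ n u ≠ 0 → 0 ≤ u ∧ u < H := fun n u hu =>
      hθ u (left_ne_zero_of_mul hu)
    simp only [fun n => vdc H (Ψ n) (b n)]
    rw [sum_comm]
    refine sum_congr rfl fun s _ => ?_
    unfold Lam
    rw [sum_comm]
    refine sum_congr rfl fun u _ => ?_
    rw [mul_sum]
    refine sum_congr rfl fun n _ => ?_
    simp only [hΨ, dl, dlz, map_mul, map_prod, prod_mul_distrib]
    have a1 : ∀ a : ℤ, n + (((u + s) * a : ℤ) : ZMod N) =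
        n + ((u * a : ℤ) : ZMod N) + ((s * a : ℤ) : ZMod N) := fun a => by push_cast; ring
    simp only [a1]
    ring
  have e5 : (∑ n : ZMod N, ‖∑ u ∈ Ico (0 : ℤ) H, Ψ n u‖ ^ 2 : ℝ) ≤ ∑ s ∈ Ioo (-(H : ℤ)) H,
      ‖Lam H (dl s θ) (dlz (s * (h0 - h 0)) f)
        (fun j : Fin r => dlz (s * (h j.succ - h 0)) (g j.succ)) (h0 - h 0)
        (fun j => h j.succ - h 0)‖ := by
    refine le_trans ?_ (norm_sum_le _ _)
    rw [← e4, Complex.norm_real]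
    exact le_abs_self _
  calc _ ≤ (∑ n : ZMod N, ‖∑ u ∈ Ico (0 : ℤ) H, Ψ n u‖) ^ 2 :=
        pow_le_pow_left₀ (norm_nonneg _) e2 2
    _ ≤ _ := e3
    _ ≤ _ := mul_le_mul_of_nonneg_left e5 (Nat.cast_nonneg _)

theorem norm_dlz_le {N : ℕ} {φ : ZMod N → ℂ} (hφ : ∀ n, ‖φ n‖ ≤ 1) (h : ℤ) (n : ZMod N) :
    ‖dlz h φ n‖ ≤ 1 := by
  unfold dlz
  rw [norm_mul, RCLike.norm_conj]
  exact mul_le_one₀ (hφ _) (norm_nonneg _) (hφ _)

theorem sum_glo_le {N : ℕ} [NeZero N] (H K r : ℕ) (f : ZMod N → ℂ) (a : ℤ) (ha : a ≠ 0)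
    (hK : |a| * H ≤ K) :
    ∑ s ∈ Ioo (-(H : ℤ)) H, glo K r (dlz (s * a) f) ≤ glo K (r + 1) f := by
  rw [glo_succ, ← sum_image (s := Ioo (-(H : ℤ)) H) (g := fun s => s * a)
    (f := fun t => glo K r (dlz t f)) (fun x _ y _ hxy => mul_right_cancel₀ ha hxy)]
  refine sum_le_sum_of_subset_of_nonneg ?_ fun _ _ _ => glo_nonneg _ _ _
  intro t ht
  obtain ⟨s, hs, rfl⟩ := mem_image.1 ht
  rw [mem_Ioo] at hs ⊢
  rw [← abs_lt, abs_mul]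
  have h1 : |s| < H := abs_lt.2 hs
  have h2 : 0 < |a| := abs_pos.2 ha
  calc |s| * |a| < H * |a| := mul_lt_mul_of_pos_right h1 h2
    _ ≤ K := by rwa [mul_comm]

/-- the numerical part of the induction step -/
theorem numeric {S : Finset ℤ} {H C l : ℝ} {m : ℕ} {x A B : ℤ → ℝ} (hH : 0 < H)
    (hS : (S.card : ℝ) ≤ 2 * H) (hC : 0 ≤ C) (hx : ∀ s, 0 ≤ x s) (hA : ∀ s, 0 ≤ A s)
    (hB : ∀ s, 0 ≤ B s) (hl : l ^ 2 ≤ (∑ s ∈ S, x s) / H)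
    (h : ∀ s ∈ S, x s ^ (2 * (m + 1)) ≤ C * A s * B s) :
    l ^ (2 * (2 * (m + 1))) ≤ (4 ^ m * C) * ((∑ s ∈ S, A s) / H) * ((∑ s ∈ S, B s) / H) := by
  have h1 : (∑ s ∈ S, x s) ^ (m + 1) ≤ (2 * H) ^ m * ∑ s ∈ S, x s ^ (m + 1) := by
    refine (pow_sum_le_card_mul_sum_pow (fun s _ => hx s) m).trans ?_
    exact mul_le_mul_of_nonneg_right (pow_le_pow_left₀ (Nat.cast_nonneg _) hS m)
      (sum_nonneg fun s _ => pow_nonneg (hx s) _)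
  have h2 : (∑ s ∈ S, x s ^ (m + 1)) ^ 2 ≤ (∑ s ∈ S, C * A s) * ∑ s ∈ S, B s := by
    refine sum_sq_le_sum_mul_sum_of_sq_le_mul S (fun s _ => mul_nonneg hC (hA s))
      (fun s _ => hB s) fun s hs => ?_
    rw [← pow_mul, mul_comm (m + 1)]
    exact h s hs
  have h3 : ((∑ s ∈ S, x s) / H) ^ (m + 1) ≤ 2 ^ m * (∑ s ∈ S, x s ^ (m + 1)) / H := by
    rw [div_pow, div_le_div_iff₀ (by positivity) hH]
    calc _ ≤ ((2 * H) ^ m * ∑ s ∈ S, x s ^ (m + 1)) * H := mul_le_mul_of_nonneg_right h1 hH.le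
      _ = _ := by ring
  have h0 : 0 ≤ (∑ s ∈ S, x s) / H := div_nonneg (sum_nonneg fun s _ => hx s) hH.le
  calc l ^ (2 * (2 * (m + 1))) = ((l ^ 2) ^ (m + 1)) ^ 2 := by ring
    _ ≤ (((∑ s ∈ S, x s) / H) ^ (m + 1)) ^ 2 := by gcongr
    _ ≤ (2 ^ m * (∑ s ∈ S, x s ^ (m + 1)) / H) ^ 2 := by gcongr
    _ = 4 ^ m * (∑ s ∈ S, x s ^ (m + 1)) ^ 2 / H ^ 2 := by
        rw [div_pow, mul_pow, ← pow_mul, mul_comm m 2, pow_mul]; norm_num
    _ ≤ 4 ^ m * ((∑ s ∈ S, C * A s) * ∑ s ∈ S, B s) / H ^ 2 := by gcongr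
    _ = _ := by rw [← mul_sum]; field_simp

end CS

open CS in
theorem cs : S_CS := by
  intro r
  induction r with
  | zero =>
    refine ⟨1, one_pos, ?_⟩
    intro N _ H K θ f g h0 h hH _ _ _
    have hN : (0 : ℝ) < N := by exact_mod_cast Nat.pos_of_ne_zero (NeZero.ne N)
    have hH' : (0 : ℝ) < H := by exact_mod_cast hH
    simp only [Finset.univ_eq_empty, prod_empty, mul_one, sum_shift f]
    rw [← sum_mul, norm_mul, gow_zero, glo_zero]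
    apply le_of_eq
    norm_num
    field_simp
  | succ r ih =>
    obtain ⟨C, hC, ih⟩ := ih
    obtain ⟨m, hm⟩ : ∃ m, 2 ^ r = m + 1 := ⟨2 ^ r - 1, by have := Nat.one_le_two_pow (n := r); omega⟩
    refine ⟨4 ^ m * C, by positivity, ?_⟩
    intro N _ H K θ f g h0 h hH hθ hg hh
    have hN : (0 : ℝ) < N := by exact_mod_cast Nat.pos_of_ne_zero (NeZero.ne N)
    have hH' : (0 : ℝ) < H := by exact_mod_cast hH
    have hc : ((Ioo (-(H : ℤ)) H).card : ℝ) ≤ 2 * H := by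
      have : (Ioo (-(H : ℤ)) H).card ≤ 2 * H := by rw [Int.card_Ioo]; omega
      exact_mod_cast this
    have hs := step H θ f g h0 h hθ (hg 0)
    have key := numeric (S := Ioo (-(H : ℤ)) H) (H := (H : ℝ)) (C := C) (m := m)
      (l := ‖Lam H θ f g h0 h‖ / (N * H))
      (x := fun s => ‖Lam H (dl s θ) (dlz (s * (h0 - h 0)) f)
        (fun j : Fin r => dlz (s * (h j.succ - h 0)) (g j.succ)) (h0 - h 0)
        (fun j => h j.succ - h 0)‖ / (N * H))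
      (A := fun s => gow H r (dl s θ) / (H : ℝ) ^ (r + 2))
      (B := fun s => glo K r (dlz (s * (h0 - h 0)) f) / ((N : ℝ) ^ 2 * (H : ℝ) ^ r))
      hH' hc hC.le (fun s => by positivity)
      (fun s => div_nonneg (gow_nonneg _ _ _) (by positivity))
      (fun s => div_nonneg (glo_nonneg _ _ _) (by positivity)) ?_ ?_
    · have e : 2 ^ (r + 1 + 1) = 2 * (2 * (m + 1)) := by rw [← hm]; ring
      rw [e]
      refine key.trans ?_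
      rw [← sum_div, ← sum_div, ← gow_succ, div_div, div_div, ← pow_succ, mul_assoc ((N : ℝ) ^ 2),
        ← pow_succ]
      have hg1 := sum_glo_le H K r f (h0 - h 0) (sub_ne_zero.2 (hh 0).1.symm) (hh 0).2
      have hg0 := gow_nonneg H (r + 1) θ
      gcongr
    · rw [← sum_div, div_pow, div_div, div_le_div_iff₀ (by positivity) (by positivity)]
      calc _ ≤ _ := mul_le_mul_of_nonneg_right hs (by positivity)
        _ = _ := by ring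
    · intro s _
      have e : 2 * (m + 1) = 2 ^ (r + 1) := by rw [← hm]; ring
      rw [e]
      refine ih N H K (dl s θ) _ _ _ _ hH ?_ ?_ ?_
      · intro u hu
        refine hθ u fun h0 => hu (dl_eq_zero s h0)
      · intro j n
        exact norm_dlz_le (hg j.succ) _ _
      · intro j
        refine ⟨fun e => (hh j.succ).1 (by linarith), ?_⟩
        have : h0 - h 0 - (h j.succ - h 0) = h0 - h j.succ := by ring
        rw [this]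
        exact (hh j.succ).2

end Pool.Agent.P.MP_a14ce1_nt.V
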