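import Pool.Agent.P.MP_a14ce1_nt.V.St

/-! Consequences of part V for the Liouville function. -/

open Finset Filter

namespace Pool.Agent.P.MP_a14ce1_nt.V

open Ch (CM lam)

/-- the Liouville function with complex values -/
noncomputable def lamC (n : ℕ) : ℂ := (lam n : ℂ)

theorem norm_lamC (n : ℕ) : ‖lamC n‖ = 1 := by
  unfold lamC; rw [Complex.norm_real, Real.norm_eq_abs, Ch.abs_lam]

theorem lamC_CM : CM lamC :=
  ⟨fun m n hm hn => by unfold lamC; rw [Ch.lam_mul hm hn]; push_cast; ring,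
    fun n => (norm_lamC n).le⟩

theorem lamC_PCM : PCM lamC := ⟨lamC_CM, 0, fun p _ _ => norm_lamC p⟩

/-- Chowla at almost all scales for pairwise non-proportional affine forms. -/
theorem chowla_scales (hA : S_Aff) (hLU : LU lamC atTop) (k : ℕ) (hk : 0 < k) (a b : Fin k → ℕ)
    (ha : ∀ i, 0 < a i) (hab : ∀ i j, i ≠ j → a i * b j ≠ a j * b i) :
    Asymptotics.IsLittleO atTop
      (fun X : ℕ => ∑ N ∈ Icc 1 X, (1 / (N : ℝ)) *
        |(1 / (N : ℝ)) * ∑ n ∈ Icc 1 N, ∏ i, lam (a i * n + b i)|)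
      (fun X : ℕ => Real.log X) := by
  obtain ⟨r, rfl⟩ : ∃ r, k = r + 1 := ⟨k - 1, by omega⟩
  rw [Asymptotics.isLittleO_iff]
  intro δ hδ
  have h := hA r lamC (fun _ => lamC) (a 0) (b 0) (fun j => a j.succ) (fun j => b j.succ)
    lamC_PCM (fun _ => lamC_PCM) (fun n _ => norm_lamC n) (fun _ n _ => norm_lamC n) (ha 0)
    (fun j => ha _) (fun j => hab 0 j.succ (Fin.succ_ne_zero j).symm) (hLU _) δ hδ
  filter_upwards [h] with X hX
  rw [Real.norm_of_nonneg (sum_nonneg fun _ _ => by positivity),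
    Real.norm_of_nonneg (Real.log_natCast_nonneg X)]
  refine le_trans (le_of_eq (sum_congr rfl fun N _ => ?_)) hX
  congr 1
  rw [← Real.norm_eq_abs, ← Complex.norm_real]
  congr 1
  unfold av lamC
  push_cast
  simp only [Fin.prod_univ_succ]

/-- The logarithmically averaged Chowla conjecture. -/
theorem chowla_log (hA : S_Aff) (hL : S_Log) (hLU : LU lamC atTop) (k : ℕ) (hk : 0 < k)
    (a b : Fin k → ℕ) (ha : ∀ i, 0 < a i) (hab : ∀ i j, i ≠ j → a i * b j ≠ a j * b i) :
    Asymptotics.IsLittleO atTop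
      (fun X : ℕ => ∑ n ∈ Icc 1 X, (∏ i, lam (a i * n + b i)) / (n : ℝ))
      (fun X : ℕ => Real.log X) := by
  have h1 := chowla_scales hA hLU k hk a b ha hab
  have h2 : Asymptotics.IsLittleO atTop (fun _ : ℕ => (1 : ℝ)) (fun X : ℕ => Real.log X) :=
    (Asymptotics.isLittleO_const_left.2 (Or.inr (tendsto_norm_atTop_atTop.comp
      (Real.tendsto_log_atTop.comp tendsto_natCast_atTop_atTop))))
  refine Asymptotics.IsBigO.trans_isLittleO ?_ (h1.add h2)
  refine Asymptotics.IsBigO.of_bound 1 (Eventually.of_forall fun X => ?_)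
  have h3 := hL (fun n => ((∏ i, lam (a i * n + b i) : ℝ) : ℂ)) X fun n => by
    rw [Complex.norm_real, norm_prod]
    exact prod_le_one (fun _ _ => norm_nonneg _) fun i _ => by
      rw [Real.norm_eq_abs, Ch.abs_lam]
  rw [one_mul, ← Complex.norm_real]
  refine le_trans (le_trans (le_of_eq ?_) h3) (le_trans (le_of_eq ?_) (Real.le_norm_self _))
  · congr 1; push_cast; rfl
  · congr 1
    refine sum_congr rfl fun N _ => ?_
    congr 1
    rw [← Real.norm_eq_abs, ← Complex.norm_real]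
    congr 1
    unfold av
    push_cast; rfl

end Pool.Agent.P.MP_a14ce1_nt.V
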