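import Pool.Agent.P.MP_a14ce1_nt.V.St

/-!
Local densities of a system of distinct linear forms with coefficients 0 and 1.
-/

open Finset

namespace Pool.Agent.P.MP_a14ce1_nt.V

namespace Dens

theorem ker_card {G G' : Type*} [AddCommGroup G] [AddCommGroup G'] [Fintype G] [Fintype G']
    (φ : G →+ G') (h : Function.Surjective φ) (P : G → Prop) [DecidablePred P]
    (hP : ∀ x, P x ↔ φ x = 0) :
    ((univ.filter P).card : ℝ) * Fintype.card G' = Fintype.card G := by
  have h1 := AddSubgroup.card_eq_card_quotient_mul_card_addSubgroup φ.ker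
  have h2 : Nat.card (G ⧸ φ.ker) = Nat.card G' :=
    Nat.card_congr (QuotientAddGroup.quotientKerEquivOfSurjective φ h).toEquiv
  have h3 : Nat.card φ.ker = (univ.filter P).card := by
    rw [← Nat.card_eq_finsetCard]
    refine Nat.card_congr (Equiv.subtypeEquivRight fun x => ?_)
    simp [AddMonoidHom.mem_ker, hP]
  rw [h2, h3, Nat.card_eq_fintype_card, Nat.card_eq_fintype_card] at h1
  rw [h1]; push_cast; ring

/-- the form modulo p -/
def phi {ι : Type} [Fintype ι] (p : ℕ) (a : ι → Bool) : (ι → ZMod p) →+ ZMod p where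
  toFun y := ∑ i, if a i then y i else 0
  map_zero' := by simp
  map_add' x y := by
    rw [← sum_add_distrib]
    refine sum_congr rfl fun i _ => ?_
    split_ifs <;> simp

theorem phi_apply {ι : Type} [Fintype ι] (p : ℕ) (a : ι → Bool) (y : ι → ZMod p) :
    phi p a y = ∑ i, if a i then y i else 0 := rfl

theorem phi_single {ι : Type} [Fintype ι] [DecidableEq ι] (p : ℕ) (a : ι → Bool) (i : ι)
    (c : ZMod p) : phi p a (Pi.single i c) = if a i then c else 0 := by
  rw [phi_apply, sum_eq_single i]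
  · simp
  · intro j _ hj
    simp [Pi.single_eq_of_ne hj]
  · intro h; exact absurd (mem_univ i) h

theorem dvd_iff {ι : Type} [Fintype ι] (p : ℕ) (a : ι → Bool) (x : ι → ℤ) :
    (p : ℤ) ∣ frm a x ↔ phi p a (fun i => (x i : ZMod p)) = 0 := by
  rw [← ZMod.intCast_zmod_eq_zero_iff_dvd, phi_apply, frm]
  push_cast
  rfl

theorem card_box {ι : Type} [Fintype ι] [DecidableEq ι] (p : ℕ) [NeZero p]
    (P : (ι → ZMod p) → Prop) [DecidablePred P] (Q : (ι → ℤ) → Prop) [DecidablePred Q]
    (h : ∀ x, Q x ↔ P (fun i => (x i : ZMod p))) :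
    ((box ι 0 p).filter Q).card = (univ.filter P).card := by
  refine card_nbij' (fun x i => (x i : ZMod p)) (fun y i => ((y i).val : ℤ)) ?_ ?_ ?_ ?_
  · intro x hx
    simp only [coe_filter, mem_univ, true_and, Set.mem_ofPred_eq] at hx ⊢
    exact (h x).1 hx.2
  · intro y hy
    simp only [coe_filter, mem_univ, true_and, Set.mem_ofPred_eq] at hy ⊢
    refine ⟨?_, (h _).2 ?_⟩
    · simp only [box, Fintype.mem_piFinset, mem_Ico]
      intro i
      have := ZMod.val_lt (y i)
      constructor
      · positivity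
      · omega
    · simpa using hy
  · intro x hx
    simp only [coe_filter, Set.mem_ofPred_eq, box, Fintype.mem_piFinset, mem_Ico] at hx
    funext i
    have h1 := hx.1 i
    change ((((x i : ℤ) : ZMod p).val : ℕ) : ℤ) = x i
    rw [ZMod.val_intCast]
    exact Int.emod_eq_of_lt h1.1 (by omega)
  · intro y _
    funext i
    simp

theorem surj_one {ι : Type} [Fintype ι] [DecidableEq ι] (p : ℕ) (a : ι → Bool)
    (ha : ∃ i, a i = true) : Function.Surjective (phi p a) := by
  obtain ⟨i, hi⟩ := ha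
  intro c
  exact ⟨Pi.single i c, by rw [phi_single, if_pos hi]⟩

theorem surj_aux {ι : Type} [Fintype ι] [DecidableEq ι] (p : ℕ) (a b : ι → Bool) (i j : ι)
    (h1 : a i = true) (h2 : b i = false) (h3 : b j = true) (c d : ZMod p) :
    ∃ y, phi p a y = c ∧ phi p b y = d := by
  refine ⟨Pi.single i (c - if a j then d else 0) + Pi.single j d, ?_, ?_⟩
  · rw [map_add, phi_single, phi_single, if_pos h1]; ring
  · rw [map_add, phi_single, phi_single, if_pos h3, if_neg (by simp [h2])]; ring

theorem surj_two {ι : Type} [Fintype ι] [DecidableEq ι] (p : ℕ) (a b : ι → Bool) (hab : a ≠ b)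
    (ha : ∃ i, a i = true) (hb : ∃ i, b i = true) :
    Function.Surjective ((phi p a).prod (phi p b)) := by
  rintro ⟨c, d⟩
  obtain ⟨i, hi⟩ := Function.ne_iff.1 hab
  obtain ⟨j, hj⟩ := ha
  obtain ⟨k, hk⟩ := hb
  cases h1 : a i with
  | true =>
    have h2 : b i = false := by simpa [h1] using hi
    obtain ⟨y, hy1, hy2⟩ := surj_aux p a b i k h1 h2 hk c d
    exact ⟨y, Prod.ext hy1 hy2⟩
  | false =>
    have h2 : b i = true := by simpa [h1] using hi
    obtain ⟨y, hy1, hy2⟩ := surj_aux p b a i j h2 h1 hj d c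
    exact ⟨y, Prod.ext hy2 hy1⟩

/-- first and second Bonferroni inequalities -/
theorem bonf {G Ω : Type*} [Fintype G] [Fintype Ω] (A : Ω → G → Prop) [∀ ω y, Decidable (A ω y)]
    [∀ y, Decidable (∃ ω, A ω y)] (u v : ℝ) (hv : 0 ≤ v)
    (h1 : ∀ ω, ((univ.filter (A ω)).card : ℝ) = u)
    (h2 : ∀ ω ω', ω ≠ ω' → ((univ.filter fun y => A ω y ∧ A ω' y).card : ℝ) = v) :
    Fintype.card Ω * u - (Fintype.card Ω : ℝ) ^ 2 * v ≤
        ((univ.filter fun y => ∃ ω, A ω y).card : ℝ) ∧
      ((univ.filter fun y => ∃ ω, A ω y).card : ℝ) ≤ Fintype.card Ω * u := by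
  classical
  set k : G → ℝ := fun y => ∑ ω, if A ω y then 1 else 0 with hk
  have hS : ((univ.filter fun y => ∃ ω, A ω y).card : ℝ) =
      ∑ y, if ∃ ω, A ω y then (1 : ℝ) else 0 := by simp
  have hk1 : ∑ y, k y = Fintype.card Ω * u := by
    simp only [hk]
    rw [sum_comm]
    have : ∀ ω, ∑ y, (if A ω y then (1 : ℝ) else 0) = u := fun ω => by rw [← h1 ω]; simp
    simp only [this, sum_const, card_univ, nsmul_eq_mul]
  have hk2 : ∑ y, k y ^ 2 ≤ Fintype.card Ω * u + (Fintype.card Ω : ℝ) ^ 2 * v := by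
    have e : ∀ y, k y ^ 2 = ∑ ω, ∑ ω', if A ω y ∧ A ω' y then (1 : ℝ) else 0 := by
      intro y
      rw [sq, hk, sum_mul_sum]
      refine sum_congr rfl fun ω _ => sum_congr rfl fun ω' _ => ?_
      by_cases a1 : A ω y <;> by_cases a2 : A ω' y <;> simp [a1, a2]
    simp only [e]
    rw [sum_comm]
    have b : ∀ ω, ∑ y, ∑ ω', (if A ω y ∧ A ω' y then (1 : ℝ) else 0) ≤ u + Fintype.card Ω * v := by
      intro ω
      rw [sum_comm]
      have c : ∀ ω', ∑ y, (if A ω y ∧ A ω' y then (1 : ℝ) else 0) ≤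
          (if ω = ω' then u else 0) + v := by
        intro ω'
        have d : ∑ y, (if A ω y ∧ A ω' y then (1 : ℝ) else 0) =
            ((univ.filter fun y => A ω y ∧ A ω' y).card : ℝ) := by simp
        rw [d]
        by_cases hω : ω = ω'
        · subst hω
          simp only [and_self, if_true]
          rw [h1 ω]; linarith
        · rw [h2 ω ω' hω, if_neg hω, zero_add]
      refine (sum_le_sum fun ω' _ => c ω').trans (le_of_eq ?_)
      rw [sum_add_distrib]
      simp
    refine (sum_le_sum fun ω _ => b ω).trans (le_of_eq ?_)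
    simp only [sum_const, card_univ, nsmul_eq_mul]; ring
  constructor
  · have p1 : ∀ y, 2 * k y - k y ^ 2 ≤ if ∃ ω, A ω y then (1 : ℝ) else 0 := by
      intro y
      split_ifs with h
      · nlinarith [sq_nonneg (k y - 1)]
      · have : k y = 0 := sum_eq_zero fun ω _ => if_neg fun h' => h ⟨ω, h'⟩
        rw [this]; norm_num
    have p2 := sum_le_sum fun y (_ : y ∈ (univ : Finset G)) => p1 y
    rw [sum_sub_distrib, ← mul_sum, hk1] at p2
    rw [hS]; linarith
  · rw [hS, ← hk1]
    refine sum_le_sum fun y _ => ?_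
    split_ifs with h
    · obtain ⟨ω, hω⟩ := h
      have := single_le_sum (f := fun ω => if A ω y then (1 : ℝ) else 0)
        (fun ω _ => by split_ifs <;> norm_num) (mem_univ ω)
      rw [if_pos hω] at this
      exact this
    · exact sum_nonneg fun ω _ => by split_ifs <;> norm_num

end Dens

theorem dens : S_Dens := by
  classical
  intro ι Ω _ _ _ a ha hne p hp
  have : NeZero p := ⟨hp.ne_zero⟩
  have hp0 : (0 : ℝ) < p := by exact_mod_cast hp.pos
  set N : ℝ := (p : ℝ) ^ Fintype.card ι with hN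
  have hN0 : 0 < N := by positivity
  have hG : (Fintype.card (ι → ZMod p) : ℝ) = N := by
    rw [Fintype.card_fun, ZMod.card]; push_cast; rfl
  have e := Dens.card_box p (fun y : ι → ZMod p => ∃ ω, Dens.phi p (a ω) y = 0)
    (fun x => ∃ ω, (p : ℤ) ∣ frm (a ω) x) (fun x => by simp only [Dens.dvd_iff])
  have hb := Dens.bonf (fun ω (y : ι → ZMod p) => Dens.phi p (a ω) y = 0) (N / p) (N / p ^ 2)
    (by positivity)
    (fun ω => by
      have := Dens.ker_card _ (Dens.surj_one p (a ω) (hne ω))
        (fun y => Dens.phi p (a ω) y = 0) (fun _ => Iff.rfl)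
      rw [hG, ZMod.card] at this
      rw [eq_div_iff hp0.ne']; exact this)
    (fun ω ω' h => by
      have := Dens.ker_card _ (Dens.surj_two p (a ω) (a ω') (ha.ne h) (hne ω) (hne ω'))
        (fun y => Dens.phi p (a ω) y = 0 ∧ Dens.phi p (a ω') y = 0)
        (fun y => by simp [Prod.ext_iff])
      rw [hG, Fintype.card_prod, ZMod.card] at this
      rw [eq_div_iff (by positivity), ← this]; push_cast; ring)
  rw [← e] at hb
  constructor
  · rw [le_div_iff₀ hN0]
    refine le_trans (le_of_eq ?_) (hb.1.trans (le_of_eq ?_))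
    · ring
    · congr
  · rw [div_le_iff₀ hN0]
    refine le_trans (le_of_eq ?_) (hb.2.trans (le_of_eq ?_))
    · congr
    · ring

end Pool.Agent.P.MP_a14ce1_nt.V
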