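import Pool.Agent.P.MP_a14ce1_nt.V.St

/-!
Elementary manipulations of logarithmic sums of means: dilation, exchange of sums, logarithmic
weights.
-/

open Finset Filter

namespace Pool.Agent.P.MP_a14ce1_nt.V

namespace Dil

theorem av_zero (a : ℕ → ℂ) : av a 0 = 0 := by simp [av]

theorem norm_av (a : ℕ → ℂ) (M : ℕ) : ‖av a M‖ = ‖∑ n ∈ Icc 1 M, a n‖ / M := by
  rw [av, norm_mul, norm_div, norm_one, Complex.norm_natCast, one_div_mul_eq_div]

theorem sum_add_le {a : ℕ → ℂ} (ha : ∀ n, ‖a n‖ ≤ 1) (M j : ℕ) :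
    ‖∑ n ∈ Icc 1 (M + j), a n‖ ≤ ‖∑ n ∈ Icc 1 M, a n‖ + j := by
  induction j with
  | zero => simp
  | succ j ih =>
    rw [← add_assoc, sum_Icc_succ_top (by omega)]
    refine (norm_add_le _ _).trans ?_
    have := ha (M + j + 1)
    push_cast
    linarith

theorem term_le {a : ℕ → ℂ} (ha : ∀ n, ‖a n‖ ≤ 1) {q L j : ℕ} (hL : 1 ≤ L) (hj : j < q) :
    (1 / ((q * L + j : ℕ) : ℝ)) * ‖av a (q * L + j)‖ ≤
      (1 / q) * ((1 / (L : ℝ)) * ‖av a (q * L)‖ + ((L : ℝ) ^ 2)⁻¹) := by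
  have hq : (0 : ℝ) < q := by exact_mod_cast (Nat.zero_le j).trans_lt hj
  have hL' : (0 : ℝ) < L := by exact_mod_cast hL
  have hj' : (j : ℝ) ≤ q := by exact_mod_cast hj.le
  have hj0 : (0 : ℝ) ≤ j := Nat.cast_nonneg j
  have h0 : (0 : ℝ) < q * L := mul_pos hq hL'
  have h1 := sum_add_le ha (q * L) j
  have h2 := norm_nonneg (∑ n ∈ Icc 1 (q * L), a n)
  rw [norm_av, norm_av]
  push_cast
  calc 1 / ((q : ℝ) * L + j) * (‖∑ n ∈ Icc 1 (q * L + j), a n‖ / (q * L + j))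
      ≤ 1 / ((q : ℝ) * L) * ((‖∑ n ∈ Icc 1 (q * L), a n‖ + q) / (q * L)) := by
        gcongr <;> linarith
    _ = _ := by field_simp

theorem blocks {a : ℕ → ℂ} (ha : ∀ n, ‖a n‖ ≤ 1) {q : ℕ} (hq : 1 ≤ q) (K : ℕ) :
    ∑ N ∈ range (q * (K + 1)), (1 / (N : ℝ)) * ‖av a N‖ ≤
      q + ∑ L ∈ Icc 1 K, ((1 / (L : ℝ)) * ‖av a (q * L)‖ + ((L : ℝ) ^ 2)⁻¹) := by
  induction K with
  | zero =>
    have : ∑ N ∈ range q, (1 / (N : ℝ)) * ‖av a N‖ ≤ (range q).card • (1 : ℝ) := by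
      refine sum_le_card_nsmul _ _ _ fun N _ => ?_
      refine mul_le_one₀ ?_ (norm_nonneg _) (norm_av_le ha N)
      rw [one_div]
      exact Nat.cast_inv_le_one N
    simpa using this
  | succ K ih =>
    have hq' : (q : ℝ) ≠ 0 := by exact_mod_cast (by omega : q ≠ 0)
    rw [mul_add q (K + 1) 1, mul_one, sum_range_add, sum_Icc_succ_top (by omega), ← add_assoc]
    refine add_le_add ih ?_
    refine (sum_le_card_nsmul _ _ _ fun j hj =>
      term_le ha (L := K + 1) (by omega) (mem_range.mp hj)).trans (le_of_eq ?_)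
    rw [card_range, nsmul_eq_mul, ← mul_assoc, mul_one_div_cancel hq', one_mul]

theorem abel (a : ℕ → ℂ) (X : ℕ) :
    ∑ n ∈ Icc 1 X, a n / n = av a X + ∑ N ∈ range X, av a N / (N + 1) := by
  induction X with
  | zero => simp [av]
  | succ X ih =>
    rw [sum_Icc_succ_top (by omega), ih, sum_range_succ]
    have h1 : (X : ℂ) + 1 ≠ 0 := by exact_mod_cast Nat.succ_ne_zero X
    have h2 : ∑ n ∈ Icc 1 X, a n = X * av a X := by
      rcases Nat.eq_zero_or_pos X with rfl | hX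
      · simp
      · have : (X : ℂ) ≠ 0 := by exact_mod_cast hX.ne'
        rw [av]; field_simp
    rw [show av a (X + 1) = (1 / ((X + 1 : ℕ) : ℂ)) * ∑ n ∈ Icc 1 (X + 1), a n from rfl,
      sum_Icc_succ_top (by omega), h2]
    push_cast
    field_simp
    ring

end Dil

open Dil

theorem dil : S_Dil := by
  intro a q Q X ha hq hQ
  set K := X / Q with hK
  have hQ0 : 0 < Q := by omega
  have hX : X < Q * (K + 1) := Nat.lt_mul_div_succ X hQ0
  have h0 : ∀ N : ℕ, 0 ≤ (1 / (N : ℝ)) * ‖av a N‖ := fun N => by positivity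
  have h1 : ∑ N ∈ (Icc 1 X).filter (fun N => N < q * (K + 1)), (1 / (N : ℝ)) * ‖av a N‖ ≤
      ∑ N ∈ range (q * (K + 1)), (1 / (N : ℝ)) * ‖av a N‖ :=
    sum_le_sum_of_subset_of_nonneg (fun N hN => mem_range.mpr (mem_filter.mp hN).2)
      fun N _ _ => h0 N
  have hK0 : (0 : ℝ) < (K : ℝ) + 1 := by positivity
  have h2 : ∑ N ∈ (Icc 1 X).filter (fun N => ¬N < q * (K + 1)), (1 / (N : ℝ)) * ‖av a N‖ ≤ Q := by
    refine (sum_le_card_nsmul _ _ (1 / ((K : ℝ) + 1)) fun N hN => ?_).trans ?_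
    · have h3 : K + 1 ≤ N :=
        (Nat.le_mul_of_pos_left _ hq).trans (not_lt.mp (mem_filter.mp hN).2)
      have h4 : (K : ℝ) + 1 ≤ N := by exact_mod_cast h3
      calc (1 / (N : ℝ)) * ‖av a N‖ ≤ (1 / ((K : ℝ) + 1)) * 1 := by
            gcongr
            exact norm_av_le ha N
        _ = _ := mul_one _
    · have h3 : ((Icc 1 X).filter (fun N => ¬N < q * (K + 1))).card ≤ Q * (K + 1) :=
        (card_filter_le _ _).trans (by simp; omega)
      have h4 : (((Icc 1 X).filter (fun N => ¬N < q * (K + 1))).card : ℝ) ≤ Q * (K + 1) := by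
        exact_mod_cast h3
      rw [nsmul_eq_mul, mul_one_div, div_le_iff₀ hK0]
      exact h4
  have h3 := blocks ha hq K
  have h4 : ∑ L ∈ Icc 1 K, ((L : ℝ) ^ 2)⁻¹ ≤ 2 := by
    have := sum_Ioo_inv_sq_le (α := ℝ) 0 (K + 1)
    rw [show Ioo 0 (K + 1) = Icc 1 K by ext; simp; omega] at this
    simpa using this
  have h5 : (q : ℝ) ≤ Q := by exact_mod_cast hQ
  rw [sum_add_distrib] at h3
  rw [← sum_filter_add_sum_filter_not (Icc 1 X) (fun N => N < q * (K + 1))]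
  linarith

theorem swap : S_Swap := by
  intro c Q X hc hQ
  have hQ' : (0 : ℝ) < Q := by exact_mod_cast hQ
  have h1 : ∀ L ∈ Icc 1 (X / Q), (1 / (L : ℝ)) * ((∑ x ∈ Icc 1 (Q * L), c x) / ((Q * L : ℕ) : ℝ)) =
      ∑ x ∈ Icc 1 X, if x ≤ Q * L then c x / Q * ((L : ℝ) ^ 2)⁻¹ else 0 := fun L hL => by
    have h2 : Q * L ≤ X := (Nat.mul_le_mul_left Q (mem_Icc.mp hL).2).trans (Nat.mul_div_le X Q)
    rw [← sum_filter, show (Icc 1 X).filter (fun x => x ≤ Q * L) = Icc 1 (Q * L) by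
      ext; simp; omega, ← sum_mul, ← sum_div]
    push_cast
    ring
  rw [sum_congr rfl h1, sum_comm, mul_sum]
  refine sum_le_sum fun x hx => ?_
  have hx1 := (mem_Icc.mp hx).1
  have hx' : (0 : ℝ) < x := by exact_mod_cast hx1
  have h2 : ∑ L ∈ (Icc 1 (X / Q)).filter (fun L => x ≤ Q * L), ((L : ℝ) ^ 2)⁻¹ ≤
      2 / ((((x - 1) / Q : ℕ) : ℝ) + 1) := by
    refine le_trans (sum_le_sum_of_subset_of_nonneg (fun L hL => ?_) fun _ _ _ => by positivity)
      (sum_Ioo_inv_sq_le ((x - 1) / Q) (X / Q + 1))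
    obtain ⟨h3, h4⟩ := mem_filter.mp hL
    refine mem_Ioo.mpr ⟨?_, Nat.lt_succ_of_le (mem_Icc.mp h3).2⟩
    rw [Nat.div_lt_iff_lt_mul hQ, mul_comm]
    omega
  have h3 : x ≤ Q * ((x - 1) / Q + 1) := by
    have := Nat.lt_mul_div_succ (x - 1) hQ
    omega
  have h4 : (x : ℝ) ≤ Q * ((((x - 1) / Q : ℕ) : ℝ) + 1) := by exact_mod_cast h3
  have h5 := hc x
  rw [← sum_filter, ← mul_sum]
  calc c x / Q * _ ≤ c x / Q * (2 / ((((x - 1) / Q : ℕ) : ℝ) + 1)) := by gcongr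
    _ = 2 * c x / (Q * ((((x - 1) / Q : ℕ) : ℝ) + 1)) := by field_simp
    _ ≤ 2 * c x / x := by gcongr
    _ = _ := by ring

theorem logw : S_Log := by
  intro a X ha
  rw [abel, add_comm]
  refine (norm_add_le _ _).trans (add_le_add ((norm_sum_le _ _).trans ?_) (norm_av_le ha X))
  calc ∑ N ∈ range X, ‖av a N / (N + 1)‖ ≤ ∑ N ∈ range X, (1 / (N : ℝ)) * ‖av a N‖ := by
        refine sum_le_sum fun N _ => ?_
        rcases Nat.eq_zero_or_pos N with rfl | hN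
        · simp [av_zero]
        · have h1 : (0 : ℝ) < N := by exact_mod_cast hN
          rw [norm_div, show (N : ℂ) + 1 = ((N + 1 : ℕ) : ℂ) by push_cast; rfl, Complex.norm_natCast,
            one_div_mul_eq_div]
          gcongr
          omega
    _ ≤ _ := by
        rw [← sum_filter_ne_zero]
        refine sum_le_sum_of_subset_of_nonneg (fun N hN => ?_) fun _ _ _ => by positivity
        obtain ⟨h1, h2⟩ := mem_filter.mp hN
        refine mem_Icc.mpr ⟨Nat.pos_of_ne_zero ?_, (mem_range.mp h1).le⟩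
        rintro rfl
        simp at h2

end Pool.Agent.P.MP_a14ce1_nt.V
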