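import Pool.Agent.P.MP_a14ce1_nt.V.St

/-!
The abstract entropy decrement inequality, by tilting and doubling a predictor.
-/

open Finset Filter

namespace Pool.Agent.P.MP_a14ce1_nt.V

namespace ED

variable {N : ℕ} [NeZero N]

theorem per {B : Type} {φ : ZMod N → B} {q : ZMod N} (h : ∀ n, φ (n + q) = φ n) (k n : ZMod N) :
    φ (n + k * q) = φ n := by
  rw [← ZMod.natCast_zmod_val k]
  induction k.val with
  | zero => simp
  | succ j ih => rw [Nat.cast_succ, add_mul, one_mul, ← add_assoc, h, ih]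

omit [NeZero N] in
theorem per_nat {B : Type} {φ : ZMod N → B} {q Q : ℕ} (h : ∀ n, φ (n + (q : ZMod N)) = φ n)
    (hd : q ∣ Q) (n : ZMod N) : φ (n + (Q : ZMod N)) = φ n := by
  obtain ⟨k, rfl⟩ := hd
  induction k with
  | zero => simp
  | succ j ih => rw [mul_add, mul_one, Nat.cast_add, ← add_assoc, h, ih]

theorem indep {φ ψ : ZMod N → ℝ} {Q p : ℕ} (h1 : ∀ n, φ (n + (Q : ZMod N)) = φ n)
    (h2 : ∀ n, ψ (n + (p : ZMod N)) = ψ n) (hc : Nat.Coprime Q p) :
    (N : ℝ) * ∑ n, φ n * ψ n = (∑ n, φ n) * ∑ n, ψ n := by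
  obtain ⟨a, b, hab⟩ : IsCoprime (Q : ZMod N) (p : ZMod N) := hc.cast
  have key : ∀ j : ZMod N, ∑ n, φ n * ψ (n + j) = ∑ n, φ n * ψ n := fun j => by
    rw [← sum_shift (fun n => φ n * ψ n) (j * a * Q)]
    refine sum_congr rfl fun n _ => ?_
    rw [per h1, ← per h2 (j * b) (n + j * a * Q)]
    congr 2
    linear_combination (-j) * hab
  calc (N : ℝ) * ∑ n, φ n * ψ n = ∑ j : ZMod N, ∑ n, φ n * ψ (n + j) := by
        simp only [key, sum_const, card_univ, ZMod.card, nsmul_eq_mul]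
    _ = ∑ n, φ n * ∑ j, ψ j := by
        rw [sum_comm]
        refine sum_congr rfl fun n _ => ?_
        rw [← mul_sum, ← sum_shift ψ n]
        simp only [add_comm]
    _ = _ := by rw [sum_mul]

theorem Npos : (0 : ℝ) < N := by exact_mod_cast Nat.pos_of_ne_zero (NeZero.ne N)

theorem indep_prod {φ : ZMod N → ℝ} {ψ : ℕ → ZMod N → ℝ} {Q : ℕ} {B : ℝ} (T : Finset ℕ)
    (h0 : ∀ n, 0 ≤ φ n) (h1 : ∀ n, φ (n + (Q : ZMod N)) = φ n)
    (hT : ∀ p ∈ T, p.Prime ∧ Nat.Coprime Q p ∧ (∀ n, 0 ≤ ψ p n) ∧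
      (∀ n, ψ p (n + (p : ZMod N)) = ψ p n) ∧ ∑ n, ψ p n ≤ N * B) :
    ∑ n, φ n * ∏ p ∈ T, ψ p n ≤ B ^ T.card * ∑ n, φ n := by
  induction T using Finset.induction_on with
  | empty => simp
  | insert p T hp ih =>
    have ih' := ih fun q hq => hT q (mem_insert_of_mem hq)
    obtain ⟨hp1, hp2, hp3, hp4, hp5⟩ := hT p (mem_insert_self _ _)
    have hc : Nat.Coprime (Q * ∏ q ∈ T, q) p := by
      refine Nat.Coprime.mul_left hp2 (Nat.Coprime.prod_left fun q hq => ?_)
      exact (Nat.coprime_primes (hT q (mem_insert_of_mem hq)).1 hp1).2 fun e => hp (e ▸ hq)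
    have h2 := indep (φ := fun n => φ n * ∏ q ∈ T, ψ q n) (ψ := ψ p) (fun n => by
      rw [per_nat h1 (dvd_mul_right _ _)]
      congr 1
      exact prod_congr rfl fun q hq => per_nat (hT q (mem_insert_of_mem hq)).2.2.2.1
        (dvd_mul_of_dvd_right (dvd_prod_of_mem (fun q => q) hq) _) n) hp4 hc
    have h3 : 0 ≤ ∑ n, φ n * ∏ q ∈ T, ψ q n := sum_nonneg fun n _ =>
      mul_nonneg (h0 n) (prod_nonneg fun q hq => (hT q (mem_insert_of_mem hq)).2.2.1 n)
    refine le_of_mul_le_mul_left ?_ (Npos (N := N))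
    simp only [prod_insert hp, card_insert_of_notMem hp]
    calc (N : ℝ) * ∑ n, φ n * (ψ p n * ∏ q ∈ T, ψ q n)
        = N * ∑ n, (φ n * ∏ q ∈ T, ψ q n) * ψ p n := by
          congr 1
          exact sum_congr rfl fun n _ => by ring
      _ ≤ (B ^ T.card * ∑ n, φ n) * (N * B) := by
          rw [h2]
          exact mul_le_mul ih' hp5 (sum_nonneg fun n _ => hp3 n) (h3.trans ih')
      _ = _ := by ring

theorem sum_exp_le {Y : ZMod N → ℝ} {t : ℝ} (h0 : 0 ≤ t) (h1 : t ≤ 1 / 2) (hm : ∑ n, Y n = 0)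
    (hb : ∀ n, |Y n| ≤ 2) : ∑ n, Real.exp (t * Y n) ≤ N * Real.exp (4 * t ^ 2) := by
  have key : ∀ n, Real.exp (t * Y n) ≤ Real.exp (4 * t ^ 2) + t * Y n := fun n => by
    have h2 : |t * Y n| ≤ 2 * t := by
      rw [abs_mul, abs_of_nonneg h0]
      nlinarith [hb n]
    have h3 := (abs_le.mp (Real.abs_exp_sub_one_sub_id_le (x := t * Y n) (by linarith))).2
    have h4 : (t * Y n) ^ 2 ≤ (2 * t) ^ 2 := sq_le_sq' (abs_le.mp h2).1 (abs_le.mp h2).2
    have h5 := Real.add_one_le_exp (4 * t ^ 2)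
    nlinarith
  refine (sum_le_sum fun n _ => key n).trans (le_of_eq ?_)
  rw [sum_add_distrib, ← mul_sum, hm]
  simp only [sum_const, card_univ, ZMod.card, nsmul_eq_mul, mul_zero, add_zero]

variable {A : Type} [Fintype A] (F : ZMod N → A)

/-- the word of length `L` read at `n` -/
def wd (L : ℕ) (n : ZMod N) : Fin L → A := fun j => F (n + ((j : ℕ) : ZMod N))

/-- a predictor for words of length `L`, of period `Q`, with logarithmic cost at most `c` -/
def Pred (L Q : ℕ) (c : ℝ) : Prop :=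
  ∃ π : ZMod N → (Fin L → A) → ℝ, (∀ n u, 0 < π n u) ∧ (∀ n, π (n + (Q : ZMod N)) = π n) ∧
    (∀ n, ∑ u, π n u ≤ 1) ∧ ∑ n, -Real.log (π n (wd F L n)) ≤ N * c

variable {F} {L Q : ℕ} {c : ℝ}

theorem Pred.nonneg (h : Pred F L Q c) : 0 ≤ c := by
  obtain ⟨π, h1, -, h2, h3⟩ := h
  refine nonneg_of_mul_nonneg_right (le_trans (sum_nonneg fun n _ => ?_) h3) (Npos (N := N))
  refine neg_nonneg.mpr (Real.log_nonpos (h1 _ _).le (le_trans ?_ (h2 n)))
  exact single_le_sum (f := π n) (fun u _ => (h1 n u).le) (mem_univ _)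

theorem start [Nonempty A] (L : ℕ) : Pred F L 1 (L * Real.log (Fintype.card A)) := by
  have h : (0 : ℝ) < (Fintype.card A : ℝ) ^ L := by
    have := Fintype.card_pos (α := A)
    positivity
  refine ⟨fun _ _ => ((Fintype.card A : ℝ) ^ L)⁻¹, fun _ _ => inv_pos.mpr h, fun _ => rfl,
    fun _ => ?_, ?_⟩
  · simp only [sum_const, card_univ, Fintype.card_fun, Fintype.card_fin, nsmul_eq_mul,
      Nat.cast_pow]
    exact (mul_inv_cancel₀ h.ne').le
  · simp only [Real.log_inv, neg_neg, Real.log_pow, sum_const, card_univ, ZMod.card, nsmul_eq_mul,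
      le_refl]

theorem Pred.double (h : Pred F L Q c) : Pred F (L + L) Q (2 * c) := by
  obtain ⟨π, h1, h2, h3, h4⟩ := h
  refine ⟨fun n u => π n (fun j => u (Fin.castAdd L j)) * π (n + L) (fun j => u (Fin.natAdd L j)),
    fun n u => mul_pos (h1 _ _) (h1 _ _), fun n => ?_, fun n => ?_, ?_⟩
  · simp only [h2 n, add_right_comm n (Q : ZMod N), h2 (n + L)]
  · rw [← (Fin.appendEquiv L L).sum_comp, Fintype.sum_prod_type]
    simp only [Fin.appendEquiv_apply, Fin.append_left, Fin.append_right]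
    rw [← sum_mul_sum]
    exact mul_le_one₀ (h3 _) (sum_nonneg fun u _ => (h1 _ u).le) (h3 _)
  · have e1 : ∀ n, (fun j => wd F (L + L) n (Fin.castAdd L j)) = wd F L n := fun n => rfl
    have e2 : ∀ n, (fun j => wd F (L + L) n (Fin.natAdd L j)) = wd F L (n + L) := fun n => by
      funext j
      simp only [wd, Fin.val_natAdd, Nat.cast_add, add_assoc]
    simp only [e1, e2, Real.log_mul (h1 _ _).ne' (h1 _ _).ne', neg_add, sum_add_distrib]
    rw [sum_shift (fun n => -Real.log (π n (wd F L n))) L]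
    linarith

theorem Pred.tilt [Nonempty A] (h : Pred F L Q c) {T : Finset ℕ}
    {Y : ℕ → (Fin L → A) → ZMod N → ℝ} {t : ℝ} (h0 : 0 ≤ t) (ht : t ≤ 1 / 2)
    (hT : ∀ p ∈ T, p.Prime ∧ Nat.Coprime Q p ∧ ∀ u, (∀ n, Y p u (n + (p : ZMod N)) = Y p u n) ∧
      ∑ n, Y p u n = 0 ∧ ∀ n, |Y p u n| ≤ 2) :
    Pred F L (Q * ∏ p ∈ T, p)
      (c - (t * ((∑ n, ∑ p ∈ T, Y p (wd F L n) n) / N) - 4 * t ^ 2 * T.card)) := by
  obtain ⟨π, h1, h2, h3, h4⟩ := h
  set W : ZMod N → (Fin L → A) → ℝ := fun n u => π n u * Real.exp (t * ∑ p ∈ T, Y p u n) with hW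
  have hWp : ∀ n u, 0 < W n u := fun n u => mul_pos (h1 n u) (Real.exp_pos _)
  have hS : ∀ n, 0 < ∑ u, W n u := fun n => sum_pos (fun u _ => hWp n u) univ_nonempty
  have hper : ∀ n, W (n + ((Q * ∏ p ∈ T, p : ℕ) : ZMod N)) = W n := fun n => by
    funext u
    simp only [hW]
    rw [per_nat h2 (dvd_mul_right _ _)]
    congr 3
    exact sum_congr rfl fun p hp => per_nat ((hT p hp).2.2 u).1
      (dvd_mul_of_dvd_right (dvd_prod_of_mem (fun q => q) hp) _) n
  set B : ℝ := Real.exp (4 * t ^ 2 * T.card) with hB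
  have hBp : 0 < B := Real.exp_pos _
  have hsum : ∑ n, ∑ u, W n u ≤ N * B := by
    have e : Real.exp (4 * t ^ 2) ^ T.card = B := by rw [hB, ← Real.exp_nat_mul, mul_comm]
    rw [sum_comm]
    calc ∑ u, ∑ n, W n u ≤ ∑ u, B * ∑ n, π n u := sum_le_sum fun u _ => by
          rw [← e]
          refine le_trans (le_of_eq (sum_congr rfl fun n _ => ?_))
            (indep_prod (φ := fun n => π n u) (ψ := fun p n => Real.exp (t * Y p u n)) (Q := Q) T
              (fun n => (h1 n u).le) (fun n => by rw [h2]) fun p hp =>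
              ⟨(hT p hp).1, (hT p hp).2.1, fun n => (Real.exp_pos _).le,
                fun n => by rw [((hT p hp).2.2 u).1],
                sum_exp_le h0 ht ((hT p hp).2.2 u).2.1 ((hT p hp).2.2 u).2.2⟩)
          simp only [hW]
          rw [mul_sum, Real.exp_sum]
      _ = B * ∑ n, ∑ u, π n u := by rw [← mul_sum, sum_comm]
      _ ≤ B * N := by
          refine mul_le_mul_of_nonneg_left ((sum_le_sum fun n _ => h3 n).trans (le_of_eq ?_)) hBp.le
          simp only [sum_const, card_univ, ZMod.card, nsmul_eq_mul, mul_one]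
      _ = N * B := mul_comm _ _
  refine ⟨fun n u => W n u / ∑ u, W n u, fun n u => div_pos (hWp n u) (hS n), fun n => ?_,
    fun n => ?_, ?_⟩
  · simp only [hper]
  · rw [← sum_div, div_self (hS n).ne']
  · have key : ∀ n, -Real.log (W n (wd F L n) / ∑ u, W n u) ≤
        -Real.log (π n (wd F L n)) - t * ∑ p ∈ T, Y p (wd F L n) n +
          (4 * t ^ 2 * T.card - 1) + (∑ u, W n u) / B := fun n => by
      have h5 := Real.log_le_sub_one_of_pos (div_pos (hS n) hBp)
      rw [Real.log_div (hS n).ne' hBp.ne', hB, Real.log_exp] at h5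
      rw [Real.log_div (hWp _ _).ne' (hS n).ne']
      simp only [hW] at h5 ⊢
      rw [Real.log_mul (h1 _ _).ne' (Real.exp_pos _).ne', Real.log_exp]
      linarith
    refine (sum_le_sum fun n _ => key n).trans ?_
    rw [sum_add_distrib, sum_add_distrib, sum_sub_distrib, ← mul_sum, ← sum_div]
    have h6 := (div_le_iff₀ hBp).mpr hsum
    have h7 : (N : ℝ) * ((∑ n, ∑ p ∈ T, Y p (wd F L n) n) / N) =
        ∑ n, ∑ p ∈ T, Y p (wd F L n) n := mul_div_cancel₀ _ (Npos (N := N)).ne'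
    simp only [sum_const, card_univ, ZMod.card, nsmul_eq_mul]
    nlinarith

end ED

open ED in
theorem ed : S_ED := by
  intro A _ _ N _ F D M0 M1 P Z t hD h0 ht hp hdis hloc hper hmean hb
  obtain ⟨a0⟩ := ‹Nonempty A›
  have : Nonempty A := ⟨a0⟩
  rcases lt_or_ge M1 M0 with hM | hM
  · rw [Ico_eq_empty (by omega), sum_empty]
    exact Real.log_natCast_nonneg _
  have hpos : ∀ m : ℕ, (0 : ℝ) < D * 2 ^ m := fun m => by positivity
  have key : Pred F (D * 2 ^ M1) (∏ m ∈ Ico M0 M1, ∏ p ∈ P m, p)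
      (D * 2 ^ M1 * (Real.log (Fintype.card A) - ∑ m ∈ Ico M0 M1,
        (t * ((∑ n : ZMod N, ∑ p ∈ P m, Z m p (fun j => F (n + (j : ZMod N))) n) / N) -
          4 * t ^ 2 * (P m).card) / (D * 2 ^ m))) := by
    induction M1, hM using Nat.le_induction with
    | base => simpa using start (F := F) (D * 2 ^ M0)
    | succ M hM ih =>
      have h1 := (ih.tilt (T := P M) (Y := fun p u n =>
        Z M p (fun j => if h : j < D * 2 ^ M then u ⟨j, h⟩ else a0) n) h0 ht fun p hpM =>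
          ⟨hp M p hpM, Nat.Coprime.prod_left fun m hm => Nat.Coprime.prod_left fun q hq =>
            (Nat.coprime_primes (hp m q hq) (hp M p hpM)).2 fun e =>
              disjoint_left.mp (hdis m M (mem_Ico.mp hm).2.ne) hq (e ▸ hpM),
            fun u => ⟨hper M p hpM _, hmean M p hpM _, hb M p hpM _⟩⟩).double
      have e1 : ∀ n, ∑ p ∈ P M, Z M p
          (fun j => if h : j < D * 2 ^ M then wd F (D * 2 ^ M) n ⟨j, h⟩ else a0) n =
          ∑ p ∈ P M, Z M p (fun j => F (n + (j : ZMod N))) n := fun n =>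
        sum_congr rfl fun p hpM => hloc M p hpM _ _ n fun j hj => by rw [dif_pos hj]; rfl
      simp only [e1] at h1
      rw [prod_Ico_succ_top hM, sum_Ico_succ_top hM,
        show D * 2 ^ (M + 1) = D * 2 ^ M + D * 2 ^ M by ring]
      convert h1 using 1
      have := (hpos M).ne'
      field_simp
      ring
  exact sub_nonneg.mp (nonneg_of_mul_nonneg_right key.nonneg (hpos M1))

end Pool.Agent.P.MP_a14ce1_nt.V
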