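import Pool.Agent.P.MP_a14ce1_nt.V.St

/-!
Entropy decrement for correlations with values in the unit polydisc, by a finite net.
-/

open Finset Filter

namespace Pool.Agent.P.MP_a14ce1_nt.V

open Ch (CM rs pv)

namespace EDapp

theorem prod_sub {ι : Type*} (s : Finset ι) {a b : ι → ℂ} (ha : ∀ i, ‖a i‖ ≤ 1)
    (hb : ∀ i, ‖b i‖ ≤ 1) : ‖∏ i ∈ s, a i - ∏ i ∈ s, b i‖ ≤ ∑ i ∈ s, ‖a i - b i‖ := by
  classical
  induction s using Finset.induction_on with
  | empty => simp
  | insert j s hj ih =>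
    rw [prod_insert hj, prod_insert hj, sum_insert hj]
    have e : a j * ∏ i ∈ s, a i - b j * ∏ i ∈ s, b i =
        (a j - b j) * ∏ i ∈ s, a i + b j * (∏ i ∈ s, a i - ∏ i ∈ s, b i) := by ring
    rw [e]
    refine (norm_add_le _ _).trans (add_le_add ?_ ?_)
    · rw [norm_mul]
      exact mul_le_of_le_one_right (norm_nonneg _) (norm_prod_le_one s fun i _ => ha i)
    · rw [norm_mul]
      exact (mul_le_of_le_one_left (norm_nonneg _) (hb j)).trans ih

theorem err {N p : ℕ} [NeZero N] (hp : p ∣ N) {s : ℂ} (hs : ‖s‖ ≤ 1) {u v : ZMod N → ℂ} {d : ℝ}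
    (h : ∀ n, ‖u n - v n‖ ≤ d) :
    (s * ((∑ n : ZMod N, ((ind p n - 1 / p : ℝ) : ℂ) * u n) / N)).re ≤
      (s * ((∑ n : ZMod N, ((ind p n - 1 / p : ℝ) : ℂ) * v n) / N)).re + 2 * d * (1 / p) := by
  have hN : (0 : ℝ) < N := by exact_mod_cast Nat.pos_of_ne_zero (NeZero.ne N)
  have h1 : ‖∑ n : ZMod N, ((ind p n - 1 / p : ℝ) : ℂ) * (u n - v n)‖ ≤ 2 * d * (1 / p) * N := by
    refine (norm_sum_le _ _).trans ((sum_le_sum (g := fun n => (ind p n + 1 / p) * d)
      fun n _ => ?_).trans_eq ?_)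
    · have a1 : (0 : ℝ) ≤ 1 / p := by positivity
      rw [norm_mul, Complex.norm_real, Real.norm_eq_abs]
      refine mul_le_mul ((abs_sub _ _).trans_eq ?_) (h n) (norm_nonneg _)
        (add_nonneg (ind_nonneg p n) a1)
      rw [abs_of_nonneg (ind_nonneg p n), abs_of_nonneg a1]
    · rw [← sum_mul, sum_add_distrib, sum_ind hp, sum_const, card_univ, ZMod.card, nsmul_eq_mul]
      ring
  rw [← sub_le_iff_le_add', ← Complex.sub_re, ← mul_sub, ← sub_div, ← sum_sub_distrib]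
  simp only [← mul_sub]
  refine (Complex.re_le_norm _).trans ?_
  rw [norm_mul, norm_div, Complex.norm_natCast]
  exact (mul_le_of_le_one_left (by positivity) hs).trans ((div_le_iff₀ hN).2 h1)

end EDapp

theorem edapp (h : S_EDfin) : S_EDapp := by
  intro ι _ k ε hε
  set η := ε / (4 * (Fintype.card ι + 1)) with hη
  have η0 : 0 < η := by positivity
  obtain ⟨T, hT, hf, hc⟩ := Metric.finite_approx_of_totallyBounded
    (isCompact_closedBall (0 : ι → ℂ) 1).totallyBounded η η0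
  have := hf.fintype
  have hball : ∀ x : ι → ℂ, (∀ i, ‖x i‖ ≤ 1) → ∃ a : T, dist x a < η := fun x hx => by
    obtain ⟨a, ha, h1⟩ := Set.mem_iUnion₂.1 (hc (mem_closedBall_zero_iff.2
      ((pi_norm_le_iff_of_nonneg zero_le_one).2 hx)))
    exact ⟨⟨a, ha⟩, h1⟩
  have : Nonempty T := (hball 0 (by simp)).nonempty
  have hv : ∀ (a : T) i, ‖(a : ι → ℂ) i‖ ≤ 1 := fun a i =>
    (norm_le_pi_norm _ i).trans (mem_closedBall_zero_iff.1 (hT a.2))
  obtain ⟨C, C0, hC⟩ := h ι k T (fun a => a) (ε / 2) (by positivity) hv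
  refine ⟨C, C0, fun N _ G σ M0 M1 hM hG hσ hP => ?_⟩
  choose F hF using fun n => hball (fun i => G i n) fun i => hG i n
  have h1 := hC N F σ M0 M1 hM hσ hP
  have h2 : 2 * (Fintype.card ι * η) ≤ ε / 2 := by
    have : η * (4 * (Fintype.card ι + 1)) = ε := div_mul_cancel₀ _ (by positivity)
    nlinarith
  refine (sum_le_sum fun p hp => EDapp.err (hP p hp) (hσ p) (d := Fintype.card ι * η)
    (v := fun n => ∏ i, (F (n + ((p * k i : ℕ) : ZMod N)) : ι → ℂ) i) fun n => ?_).trans ?_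
  · refine (EDapp.prod_sub univ (fun i => hG i _) fun i => hv _ i).trans
      ((sum_le_card_nsmul _ _ η fun i _ => ?_).trans_eq (by rw [card_univ, nsmul_eq_mul]))
    rw [← dist_eq_norm]
    exact (dist_le_pi_dist (fun j => G j (n + ((p * k i : ℕ) : ZMod N))) _ i).trans (hF _).le
  · rw [sum_add_distrib, ← mul_sum]
    have h3 := mul_le_mul_of_nonneg_right h2 (Ch.rs_nonneg (PP M0 M1))
    unfold rs at *
    linarith

end Pool.Agent.P.MP_a14ce1_nt.V
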