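import Pool.Agent.P.MP_a14ce1_nt.V.St

/-!
Entropy decrement for correlations with values in a finite set.
-/

open Finset

namespace Pool.Agent.P.MP_a14ce1_nt.V

open Ch (rs)

namespace EDfin

theorem sum_ind_le {N p K : ℕ} [NeZero N] (hp : p ∣ N) (hK : K ≤ p) (n : ZMod N) :
    ∑ j ∈ range K, ind p (n + (j : ZMod N)) ≤ 1 := by
  simp only [ind_eq hp, map_add, map_natCast]
  rw [← sum_filter, sum_const, nsmul_eq_mul, mul_one]
  have h : ((range K).filter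
      (fun j : ℕ => ZMod.castHom hp (ZMod p) n + (j : ZMod p) = 0)).card ≤ 1 := by
    rw [card_le_one]
    intro a ha b hb
    rw [mem_filter, mem_range] at ha hb
    have e : (a : ZMod p) = (b : ZMod p) := add_left_cancel (ha.2.trans hb.2.symm)
    exact Nat.ModEq.eq_of_lt_of_lt ((ZMod.natCast_eq_natCast_iff _ _ _).1 e) (by omega) (by omega)
  exact_mod_cast h

variable {ι : Type} [Fintype ι] {A : Type}

/-- the correlation read off a word -/
noncomputable def Y (h : ι → ℕ) (v : A → ι → ℂ) (σ : ℕ → ℂ) (p : ℕ) (w : ℕ → A) (j : ℕ) : ℝ :=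
  (σ p * ∏ i, v (w (j + p * h i)) i).re

/-- the test functions -/
noncomputable def Z {N : ℕ} (h : ι → ℕ) (v : A → ι → ℂ) (σ : ℕ → ℂ) (m p : ℕ) (w : ℕ → A)
    (n : ZMod N) : ℝ :=
  ∑ j ∈ range (2 ^ m), (ind p (n + (j : ZMod N)) - 1 / p) * Y h v σ p w j

/-- the quantity to be bounded -/
noncomputable def T {N : ℕ} [NeZero N] (h : ι → ℕ) (v : A → ι → ℂ) (σ : ℕ → ℂ) (F : ZMod N → A)
    (p : ℕ) : ℝ :=
  ∑ n : ZMod N, (ind p n - 1 / p) * (σ p * ∏ i, v (F (n + ((p * h i : ℕ) : ZMod N))) i).re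

variable {N : ℕ} [NeZero N] {h : ι → ℕ} {v : A → ι → ℂ} {σ : ℕ → ℂ}

theorem Y_le (hv : ∀ a i, ‖v a i‖ ≤ 1) (hσ : ∀ p, ‖σ p‖ ≤ 1) (p : ℕ) (w : ℕ → A) (j : ℕ) :
    |Y h v σ p w j| ≤ 1 := by
  refine (Complex.abs_re_le_norm _).trans ?_
  rw [norm_mul]
  exact mul_le_one₀ (hσ p) (norm_nonneg _) (norm_prod_le_one _ fun i _ => hv _ i)

omit [NeZero N] in
theorem Z_loc {m p : ℕ} (hp : p ≤ 2 * 2 ^ m) (w w' : ℕ → A) (n : ZMod N)
    (H : ∀ j < (2 * ∑ i, h i + 1) * 2 ^ m, w j = w' j) : Z h v σ m p w n = Z h v σ m p w' n := by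
  refine sum_congr rfl fun j hj => ?_
  rw [mem_range] at hj
  unfold Y
  congr 3
  refine prod_congr rfl fun i _ => ?_
  have h1 : h i ≤ ∑ i, h i := single_le_sum (fun _ _ => Nat.zero_le _) (mem_univ i)
  have h2 : p * h i ≤ 2 * 2 ^ m * ∑ i, h i := Nat.mul_le_mul hp h1
  rw [H _ (by nlinarith)]

theorem Z_per {m p : ℕ} (hp : p ∣ N) (w : ℕ → A) (n : ZMod N) :
    Z h v σ m p w (n + (p : ZMod N)) = Z h v σ m p w n := by
  refine sum_congr rfl fun j _ => ?_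
  rw [add_right_comm, ind_add hp]

theorem Z_mean {m p : ℕ} (hp : p ∣ N) (w : ℕ → A) : ∑ n : ZMod N, Z h v σ m p w n = 0 := by
  unfold Z
  rw [sum_comm]
  refine sum_eq_zero fun j _ => ?_
  rw [← sum_mul, sum_sub_distrib, sum_shift (fun n => ind p n), sum_ind hp, sum_const, card_univ,
    ZMod.card, nsmul_eq_mul, mul_one_div, sub_self, zero_mul]

theorem Z_le (hv : ∀ a i, ‖v a i‖ ≤ 1) (hσ : ∀ p, ‖σ p‖ ≤ 1) {m p : ℕ} (hp : p ∣ N)
    (hm : 2 ^ m < p) (w : ℕ → A) (n : ZMod N) : |Z h v σ m p w n| ≤ 2 := by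
  have p0 : (0 : ℝ) < p := by exact_mod_cast lt_of_le_of_lt (Nat.zero_le _) hm
  have h1 : |Z h v σ m p w n| ≤ ∑ j ∈ range (2 ^ m), (ind p (n + (j : ZMod N)) + 1 / p) := by
    refine (abs_sum_le_sum_abs _ _).trans (sum_le_sum fun j _ => ?_)
    rw [abs_mul]
    refine (mul_le_of_le_one_right (abs_nonneg _) (Y_le hv hσ _ _ _)).trans ?_
    have a := ind_nonneg p (n + (j : ZMod N))
    have b : (0 : ℝ) < 1 / p := by positivity
    rw [abs_le]
    constructor <;> linarith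
  rw [sum_add_distrib, sum_const, card_range, nsmul_eq_mul, mul_one_div] at h1
  have h2 := sum_ind_le hp hm.le n
  have h3 : ((2 ^ m : ℕ) : ℝ) / p ≤ 1 := by
    rw [div_le_one p0]
    exact_mod_cast hm.le
  linarith

theorem Z_sum (F : ZMod N → A) (m p : ℕ) :
    ∑ n : ZMod N, Z h v σ m p (fun j => F (n + (j : ZMod N))) n = 2 ^ m * T h v σ F p := by
  unfold Z
  rw [sum_comm]
  have e : ∀ j ∈ range (2 ^ m), ∑ n : ZMod N, (ind p (n + (j : ZMod N)) - 1 / p) *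
      Y h v σ p (fun j => F (n + (j : ZMod N))) j = T h v σ F p := by
    intro j _
    unfold T
    refine Eq.trans (sum_congr rfl fun n _ => ?_) (sum_shift _ (j : ZMod N))
    simp only [Y, Nat.cast_add, add_assoc]
  rw [sum_congr rfl e, sum_const, card_range, nsmul_eq_mul]
  push_cast
  rfl

theorem T_eq (F : ZMod N → A) (p : ℕ) :
    (σ p * ((∑ n : ZMod N, ((ind p n - 1 / p : ℝ) : ℂ) *
      ∏ i, v (F (n + ((p * h i : ℕ) : ZMod N))) i) / N)).re = T h v σ F p / N := by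
  rw [← mul_div_assoc, Complex.div_natCast_re, mul_sum, Complex.re_sum]
  congr 1
  refine sum_congr rfl fun n _ => ?_
  rw [mul_left_comm, Complex.re_ofReal_mul]

theorem card_le (m : ℕ) : ((dy (2 ^ m)).card : ℝ) ≤ 2 ^ m * (2 * rs (dy (2 ^ m))) := by
  unfold rs
  rw [← mul_assoc, mul_sum, card_eq_sum_ones]
  push_cast
  refine sum_le_sum fun p hp => ?_
  obtain ⟨h1, _, h3⟩ := mem_dy.1 hp
  have p0 : (0 : ℝ) < p := by exact_mod_cast h1.pos
  rw [mul_one_div, one_le_div p0, mul_comm]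
  exact_mod_cast h3

end EDfin

open EDfin in
theorem edfin (h : S_ED) : S_EDfin := by
  intro ι _ s A _ _ v ε hε hv
  have t0 : 0 < min (1 / 2 : ℝ) (ε / 8) := lt_min (by norm_num) (by positivity)
  have t1 : min (1 / 2 : ℝ) (ε / 8) ≤ 1 / 2 := min_le_left _ _
  have t2 : min (1 / 2 : ℝ) (ε / 8) ≤ ε / 8 := min_le_right _ _
  generalize min (1 / 2 : ℝ) (ε / 8) = t at t0 t1 t2
  have lA : 0 ≤ Real.log (Fintype.card A) := Real.log_natCast_nonneg _
  refine ⟨((2 * ∑ i, s i + 1 : ℕ) : ℝ) * Real.log (Fintype.card A) / t + 1, by positivity, ?_⟩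
  intro N _ F σ M0 M1 hM hσ hN
  have key := h A N F (2 * ∑ i, s i + 1) M0 M1 (fun m => (dy (2 ^ m)).filter (· ∣ N))
    (Z s v σ) t (Nat.succ_pos _) t0.le t1
    (fun m p hp => (mem_dy.1 (mem_filter.1 hp).1).1)
    (fun m m' hm => (dy_disjoint hm).mono (filter_subset _ _) (filter_subset _ _))
    (fun m p hp w w' n H => Z_loc (mem_dy.1 (mem_filter.1 hp).1).2.2 w w' n H)
    (fun m p hp w n => Z_per (mem_filter.1 hp).2 w n)
    (fun m p hp w => Z_mean (mem_filter.1 hp).2 w)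
    (fun m p hp w n => Z_le hv hσ (mem_filter.1 hp).2 (mem_dy.1 (mem_filter.1 hp).1).2.1 w n)
  have D0 : (0 : ℝ) < ((2 * ∑ i, s i + 1 : ℕ) : ℝ) := by positivity
  generalize ((2 * ∑ i, s i + 1 : ℕ) : ℝ) = D at key D0 ⊢
  have low : ∑ m ∈ Ico M0 M1, (t * ∑ p ∈ dy (2 ^ m), T s v σ F p / N -
      8 * t ^ 2 * rs (dy (2 ^ m))) / D ≤ Real.log (Fintype.card A) := by
    refine le_trans (sum_le_sum fun m hm => ?_) key
    rw [mem_Ico] at hm
    have e : (dy (2 ^ m)).filter (· ∣ N) = dy (2 ^ m) := by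
      refine filter_true_of_mem fun p hp => hN p ?_
      obtain ⟨h1, h2, h3⟩ := mem_dy.1 hp
      have a : 2 ^ M0 ≤ 2 ^ m := Nat.pow_le_pow_right (by norm_num) hm.1
      have b : 2 ^ (m + 1) ≤ 2 ^ M1 := Nat.pow_le_pow_right (by norm_num) hm.2
      rw [pow_succ] at b
      exact mem_PP.2 ⟨h1, by omega, by omega⟩
    rw [e, sum_comm]
    simp only [Z_sum]
    have c := card_le m
    have m0 : (0 : ℝ) < 2 ^ m := by positivity
    rw [← mul_sum, ← sum_div, mul_comm D, ← div_div]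
    refine div_le_div_of_nonneg_right ?_ D0.le
    rw [le_div_iff₀ m0, mul_div_assoc]
    have c' := mul_le_mul_of_nonneg_left c (show 0 ≤ 4 * t ^ 2 by positivity)
    nlinarith
  rw [← sum_div, sum_sub_distrib, ← mul_sum, ← mul_sum, div_le_iff₀ D0] at low
  have r : rs (PP M0 M1) = ∑ m ∈ Ico M0 M1, rs (dy (2 ^ m)) := sum_PP _ hM
  have r0 : 0 ≤ rs (PP M0 M1) := sum_nonneg fun p _ => by positivity
  simp only [T_eq]
  rw [sum_PP _ hM]
  rw [← r] at low
  generalize ∑ m ∈ Ico M0 M1, ∑ p ∈ dy (2 ^ m), T s v σ F p / N = S at low ⊢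
  have f : S ≤ D * Real.log (Fintype.card A) / t + 8 * t * rs (PP M0 M1) := by
    rw [← sub_le_iff_le_add, le_div_iff₀ t0]
    nlinarith
  have g : 8 * t * rs (PP M0 M1) ≤ ε * rs (PP M0 M1) :=
    mul_le_mul_of_nonneg_right (by linarith) r0
  linarith

end Pool.Agent.P.MP_a14ce1_nt.V
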