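import Pool.Agent.P.MP_a14ce1_nt.V.St

/-!
Upper bound sieve for systems of linear forms with coefficients 0 and 1.
-/

open Finset

namespace Pool.Agent.P.MP_a14ce1_nt.V

open Ch (rs pv pr)

namespace Forms

theorem card_box (ι : Type) [Fintype ι] [DecidableEq ι] (c : ℤ) (L : ℕ) :
    (box ι c L).card = L ^ Fintype.card ι := by
  simp [box, Fintype.card_piFinset]

theorem frm_congr {ι : Type} [Fintype ι] (a : ι → Bool) {p : ℤ} {x y : ι → ℤ}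
    (h : ∀ i, x i ≡ y i [ZMOD p]) (hx : p ∣ frm a x) : p ∣ frm a y := by
  have : p ∣ frm a y - frm a x := by
    unfold frm
    rw [← sum_sub_distrib]
    refine dvd_sum fun i _ => ?_
    split_ifs
    · exact (h i).dvd
    · simp
  simpa using dvd_add this hx

theorem prod_le (h1 : Ch.S_M1) (κ : ℕ) : ∃ C : ℝ, 0 < C ∧ ∀ (z : ℕ) (g : ℕ → ℝ), 2 * κ + 2 ≤ z →
    (∀ p ∈ (Ioc (2 * κ + 2) z).filter Nat.Prime,
      (κ : ℝ) / p - (κ : ℝ) ^ 2 / (p : ℝ) ^ 2 ≤ g p ∧ g p ≤ 1) →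
    ∏ p ∈ (Ioc (2 * κ + 2) z).filter Nat.Prime, (1 - g p) ≤ C / (Real.log z) ^ κ := by
  obtain ⟨C1, hC1, h1⟩ := h1
  have hu : (2 : ℝ) ≤ ((2 * κ + 2 : ℕ) : ℝ) := by exact_mod_cast (by omega : 2 ≤ 2 * κ + 2)
  have hlu : 0 < Real.log ((2 * κ + 2 : ℕ) : ℝ) := Real.log_pos (by linarith)
  refine ⟨Real.exp ((κ : ℝ) ^ 2 + κ * C1) * (Real.log ((2 * κ + 2 : ℕ) : ℝ)) ^ κ, by positivity,
    fun z g hz hg => ?_⟩
  set u := 2 * κ + 2 with hudef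
  set P := (Ioc u z).filter Nat.Prime with hP
  have hz' : ((u : ℕ) : ℝ) ≤ z := by exact_mod_cast hz
  have hlz : 0 < Real.log z := Real.log_pos (by linarith)
  have k1 : ∏ p ∈ P, (1 - g p) ≤ Real.exp (-∑ p ∈ P, g p) := by
    rw [← sum_neg_distrib, Real.exp_sum]
    refine prod_le_prod (fun p hp => sub_nonneg.2 (hg p hp).2) fun p _ => ?_
    have := Real.add_one_le_exp (-g p)
    linarith
  have k2 : ∑ p ∈ P, ((p : ℝ) ^ 2)⁻¹ ≤ 1 := by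
    have a1 : ∑ p ∈ P, ((p : ℝ) ^ 2)⁻¹ ≤ ∑ p ∈ Ioc u z, ((p : ℝ) ^ 2)⁻¹ :=
      sum_le_sum_of_subset_of_nonneg (filter_subset _ _) fun _ _ _ => by positivity
    have a2 := sum_Ioc_inv_sq_le_sub (α := ℝ) (k := u) (n := z) (by omega) hz
    have a3 : ((u : ℕ) : ℝ)⁻¹ ≤ 1 := inv_le_one_of_one_le₀ (by linarith)
    have a4 : 0 ≤ ((z : ℕ) : ℝ)⁻¹ := by positivity
    linarith
  have k3 : κ * rs P - (κ : ℝ) ^ 2 ≤ ∑ p ∈ P, g p := by
    have a1 : ∑ p ∈ P, ((κ : ℝ) / p - (κ : ℝ) ^ 2 / (p : ℝ) ^ 2) ≤ ∑ p ∈ P, g p :=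
      sum_le_sum fun p hp => (hg p hp).1
    have a2 : ∑ p ∈ P, ((κ : ℝ) / p - (κ : ℝ) ^ 2 / (p : ℝ) ^ 2) =
        κ * rs P - (κ : ℝ) ^ 2 * ∑ p ∈ P, ((p : ℝ) ^ 2)⁻¹ := by
      rw [sum_sub_distrib, rs, mul_sum, mul_sum]
      congr 1
      exact sum_congr rfl fun p _ => by ring
    have a3 : (κ : ℝ) ^ 2 * ∑ p ∈ P, ((p : ℝ) ^ 2)⁻¹ ≤ (κ : ℝ) ^ 2 :=
      mul_le_of_le_one_right (by positivity) k2
    linarith
  have e : pr (u : ℕ) (z : ℕ) = P := by simp only [pr, Nat.floor_natCast, hP]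
  have k4 := (abs_le.1 (h1 u z hu hz')).1
  rw [e] at k4
  have k5 : (κ : ℝ) * (Real.log (Real.log z / Real.log (u : ℕ)) - C1) ≤ κ * rs P :=
    mul_le_mul_of_nonneg_left (by linarith) (Nat.cast_nonneg _)
  have e2 : (Real.log (u : ℕ)) ^ κ / (Real.log z) ^ κ =
      Real.exp (-(κ * Real.log (Real.log z / Real.log (u : ℕ)))) := by
    rw [Real.exp_neg, Real.exp_nat_mul, Real.exp_log (by positivity), div_pow, inv_div]
  rw [mul_div_assoc, e2, ← Real.exp_add]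
  exact k1.trans (Real.exp_le_exp.2 (by linarith))

theorem sieve_bound (h1 : Ch.S_M1) (hS : Ch.S_Sieve) (hR : S_Rem) (hD : S_Dens) (ι Ω : Type)
    [Fintype ι] [DecidableEq ι] [Fintype Ω] (a : Ω → ι → Bool) (ha : Function.Injective a)
    (ha' : ∀ ω, ∃ i, a ω i = true) : ∃ C : ℝ, 0 < C ∧ ∀ (z Y L : ℕ) (c : ℤ) (S : Finset (ι → ℤ)),
      2 * Fintype.card Ω + 2 ≤ z → z ≤ Y → S ⊆ box ι c L →
      (∀ x ∈ S, ∀ ω, ∃ p : ℕ, p.Prime ∧ Y < p ∧ (p : ℤ) = frm (a ω) x) →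
      (S.card : ℝ) ≤ C * (L : ℝ) ^ Fintype.card ι / (Real.log z) ^ Fintype.card Ω +
        2 * (z : ℝ) ^ 14 * (Fintype.card ι * (L : ℝ) ^ (Fintype.card ι - 1)) := by
  classical
  set κ := Fintype.card Ω with hκ
  set n := Fintype.card ι with hn
  obtain ⟨C0, hC0, h0⟩ := prod_le h1 κ
  obtain ⟨C, hC, hS⟩ := hS κ (1 / 2) (Nat.cast_nonneg _) (by norm_num)
  refine ⟨(C + 1) * C0, by positivity, fun z Y L c S hz hzY hSb hSp => ?_⟩
  set P := (Ioc (2 * κ + 2) z).filter Nat.Prime with hP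
  have hPm : ∀ p ∈ P, p.Prime ∧ 2 * κ + 2 < p ∧ p ≤ z := fun p hp => by
    simp only [hP, mem_filter, mem_Ioc] at hp
    tauto
  set g : ℕ → ℝ := fun p => (((box ι 0 p).filter (fun x => ∃ ω, (p : ℤ) ∣ frm (a ω) x)).card : ℝ) /
    (p : ℝ) ^ n with hg
  have hz1 : (1 : ℝ) ≤ z := by exact_mod_cast (by omega : 1 ≤ z)
  set E : ℝ := n * (L : ℝ) ^ (n - 1) with hE
  have hE0 : 0 ≤ E := by positivity
  have hg1 : ∀ p ∈ P, 0 ≤ g p ∧ g p ≤ κ / p ∧ g p ≤ 1 - 1 / 2 := fun p hp => by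
    have h2 := (hD ι Ω a ha ha' p (hPm p hp).1).2
    have h3 : ((2 * κ + 2 : ℕ) : ℝ) < p := by exact_mod_cast (hPm p hp).2.1
    push_cast at h3
    have h4 : (0 : ℝ) ≤ κ := Nat.cast_nonneg _
    refine ⟨by positivity, h2, h2.trans ?_⟩
    rw [div_le_iff₀ (by linarith)]
    linarith
  have hrem : ∀ T ⊆ P, pv T ≤ z ^ (4 * 0 + 6) →
      |(((box ι c L).filter (fun x => ∀ p ∈ T, ∃ ω, (p : ℤ) ∣ frm (a ω) x)).card : ℝ) -
        (L : ℝ) ^ n * ∏ p ∈ T, g p| ≤ (z : ℝ) ^ 6 * E := fun T hT hv => by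
    refine (hR ι T (fun p x => ∃ ω, (p : ℤ) ∣ frm (a ω) x) c L (fun p hp => (hPm p (hT hp)).1)
      fun p _ x y hxy ⟨ω, hω⟩ => ⟨ω, frm_congr _ hxy hω⟩).trans ?_
    have : (pv T : ℝ) ≤ (z : ℝ) ^ 6 := by exact_mod_cast hv
    calc (n : ℝ) * pv T * (L : ℝ) ^ (n - 1) ≤ n * (z : ℝ) ^ 6 * (L : ℝ) ^ (n - 1) := by gcongr
      _ = _ := by rw [hE]; ring
  have key := hS (ι → ℤ) (box ι c L) (fun _ => 1) z 0 P (fun x p => ∃ ω, (p : ℤ) ∣ frm (a ω) x)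
    g ((L : ℝ) ^ n) ((z : ℝ) ^ 6 * E) (((L : ℝ) ^ n : ℝ) : ℂ) (fun _ => (z : ℝ) ^ 6 * E) (by omega)
    (by positivity) (by rw [Complex.norm_real, Real.norm_eq_abs, abs_of_nonneg (by positivity)])
    (by simp) (fun p hp => ⟨(hPm p hp).1, (hPm p hp).2.2⟩) hg1
    (fun _ => by positivity) hrem (fun T hT hv => ?_)
  swap
  · have := hrem T hT hv
    rw [sum_const, nsmul_eq_mul, mul_one, ← Complex.ofReal_mul, ← Complex.ofReal_natCast,
      ← Complex.ofReal_sub, Complex.norm_real, Real.norm_eq_abs]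
    exact this
  set V := ∏ p ∈ P, (1 - g p) with hV
  set N := ((box ι c L).filter fun x => ∀ p ∈ P, ¬ ∃ ω, (p : ℤ) ∣ frm (a ω) x).card with hN
  have k1 : (N : ℝ) ≤ (C + 1) * (L : ℝ) ^ n * V + 2 * (z : ℝ) ^ 14 * E := by
    rw [sum_const, nsmul_eq_mul, mul_one, ← Complex.ofReal_mul, ← Complex.ofReal_natCast,
      ← Complex.ofReal_sub, Complex.norm_real, Real.norm_eq_abs, sum_const, Nat.card_Icc,
      nsmul_eq_mul] at key
    have e2 := (le_abs_self _).trans key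
    have e3 : (z : ℝ) ^ 6 * (z : ℝ) ^ 6 ≤ (z : ℝ) ^ 14 := by
      rw [← pow_add]; exact pow_le_pow_right₀ hz1 (by norm_num)
    have e4 := mul_le_mul_of_nonneg_right e3 hE0
    simp only [mul_zero, zero_add, pow_zero, div_one, add_tsub_cancel_right, Nat.cast_pow] at e2
    nlinarith
  have k2 : S.card ≤ N := by
    apply card_le_card
    intro x hx
    refine mem_filter.2 ⟨hSb hx, fun p hp ⟨ω, hω⟩ => ?_⟩
    obtain ⟨q, q1, q2, q3⟩ := hSp x hx ω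
    rw [← q3, Int.natCast_dvd_natCast] at hω
    have := (Nat.prime_dvd_prime_iff_eq (hPm p hp).1 q1).1 hω
    have := (hPm p hp).2.2
    omega
  have k3 : V ≤ C0 / (Real.log z) ^ κ := h0 z g hz fun p hp =>
    ⟨(hD ι Ω a ha ha' p (hPm p hp).1).1, (hg1 p hp).2.2.trans (by norm_num)⟩
  calc (S.card : ℝ) ≤ N := by exact_mod_cast k2
    _ ≤ (C + 1) * (L : ℝ) ^ n * V + 2 * (z : ℝ) ^ 14 * E := k1
    _ ≤ (C + 1) * (L : ℝ) ^ n * (C0 / (Real.log z) ^ κ) + 2 * (z : ℝ) ^ 14 * E := by gcongr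
    _ = _ := by ring

theorem err_le (κ : ℕ) {z Y : ℝ} (hY : 1 ≤ Y) (h : z ^ 28 ≤ Y) :
    z ^ 14 * (Real.log Y) ^ κ ≤ 2 ^ κ * κ.factorial * Y := by
  have hl : 0 ≤ Real.log Y := Real.log_nonneg hY
  have e : Real.exp (Real.log Y / 2) ^ 2 = Y := by
    rw [← Real.exp_nat_mul, show ((2 : ℕ) : ℝ) * (Real.log Y / 2) = Real.log Y by push_cast; ring,
      Real.exp_log (by linarith)]
  have h1 : z ^ 14 ≤ Real.exp (Real.log Y / 2) := by
    refine (abs_le_of_sq_le_sq' ?_ (Real.exp_pos _).le).2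
    rw [e, ← pow_mul]; exact h
  have h2 := Real.pow_div_factorial_le_exp (Real.log Y / 2) (by linarith) κ
  rw [div_le_iff₀ (by positivity), div_pow, div_le_iff₀ (by positivity)] at h2
  calc z ^ 14 * (Real.log Y) ^ κ
      ≤ Real.exp (Real.log Y / 2) * (Real.exp (Real.log Y / 2) * κ.factorial * 2 ^ κ) := by gcongr
    _ = 2 ^ κ * κ.factorial * Real.exp (Real.log Y / 2) ^ 2 := by ring
    _ = _ := by rw [e]

end Forms

open Forms in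
theorem forms (h1 : Ch.S_M1) (hS : Ch.S_Sieve) (hR : S_Rem) (hD : S_Dens) : S_Forms := by
  intro ι Ω _ _ _ a ha ha'
  obtain ⟨C, hC, h⟩ := sieve_bound h1 hS hR hD ι Ω a ha ha'
  have hcb := card_box ι
  generalize Fintype.card Ω = κ at *
  generalize Fintype.card ι = n at *
  obtain ⟨W, hW1, hW⟩ : ∃ W : ℕ, 1 ≤ W ∧ ∀ z : ℕ, z < 2 * κ + 2 → (z + 1) ^ 28 ≤ W :=
    ⟨(2 * κ + 2) ^ 28, Nat.one_le_pow _ _ (by omega), fun z hz => Nat.pow_le_pow_left hz _⟩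
  have hlu : 0 ≤ Real.log W := Real.log_nonneg (by exact_mod_cast hW1)
  obtain ⟨A, hA⟩ : ∃ A : ℝ, A = (Real.log W) ^ κ := ⟨_, rfl⟩
  obtain ⟨B, hB⟩ : ∃ B : ℝ, B = 2 * n * (2 ^ κ * κ.factorial) := ⟨_, rfl⟩
  have hA0 : 0 ≤ A := hA ▸ pow_nonneg hlu _
  have hB0 : 0 ≤ B := by rw [hB]; positivity
  refine ⟨A + (C * 56 ^ κ + B), by positivity, fun Y L c S hY hYL hSb hSp => ?_⟩
  have hY2 : (2 : ℝ) ≤ Y := by exact_mod_cast hY
  have hl : 0 < Real.log Y := Real.log_pos (by linarith)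
  have hYL' : (Y : ℝ) ≤ L := by exact_mod_cast hYL
  have hLn : (0 : ℝ) ≤ (L : ℝ) ^ n := by positivity
  obtain ⟨z, hzY, hYz⟩ : ∃ z : ℕ, z ^ 28 ≤ Y ∧ Y < (z + 1) ^ 28 :=
    ⟨Nat.nthRoot 28 Y, Nat.pow_nthRoot_le_iff.2 (Or.inl (by norm_num)),
      Nat.lt_pow_nthRoot_add_one (by norm_num) Y⟩
  rw [le_div_iff₀ (by positivity)]
  by_cases hs : z < 2 * κ + 2
  · have e1 : (S.card : ℝ) ≤ (L : ℝ) ^ n := by
      exact_mod_cast (card_le_card hSb).trans_eq (hcb c L)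
    have e2 : (Y : ℝ) ≤ W := by exact_mod_cast hYz.le.trans (hW z hs)
    have e3 : (Real.log Y) ^ κ ≤ A :=
      hA ▸ pow_le_pow_left₀ hl.le (Real.log_le_log (by linarith) e2) _
    calc (S.card : ℝ) * (Real.log Y) ^ κ ≤ (L : ℝ) ^ n * A :=
          mul_le_mul e1 e3 (pow_nonneg hl.le _) hLn
      _ = A * (L : ℝ) ^ n := mul_comm _ _
      _ ≤ _ := mul_le_mul_of_nonneg_right (le_add_of_nonneg_right
          (add_nonneg (mul_nonneg hC.le (pow_nonneg (by norm_num) _)) hB0)) hLn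
  · have hz2 : 2 ≤ z := by omega
    have hzY' : z ≤ Y := (Nat.le_self_pow (by norm_num) z).trans hzY
    have hYz' : Y ≤ z ^ 56 := by
      refine hYz.le.trans ?_
      rw [show 56 = 2 * 28 by norm_num, pow_mul]
      refine Nat.pow_le_pow_left ?_ _
      clear hYz hzY hzY' hs
      nlinarith
    have hz2' : (2 : ℝ) ≤ z := by exact_mod_cast hz2
    have hlz : 0 < Real.log z := Real.log_pos (by linarith)
    have hlog : Real.log Y ≤ 56 * Real.log z := by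
      have := Real.log_le_log (by linarith : (0 : ℝ) < Y) (by exact_mod_cast hYz' : (Y : ℝ) ≤ z ^ 56)
      simpa using this
    have e1 := h z Y L c S (not_lt.1 hs) hzY' hSb hSp
    have e3 := err_le κ (z := z) (Y := Y) (by linarith) (by exact_mod_cast hzY)
    clear hzY hYz hYz' hW hs hz2 hzY' hY hYL hW1 h hcb
    have e2 : C * (L : ℝ) ^ n / (Real.log z) ^ κ * (Real.log Y) ^ κ ≤ C * 56 ^ κ * (L : ℝ) ^ n := by
      rw [div_mul_eq_mul_div, div_le_iff₀ (by positivity)]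
      calc C * (L : ℝ) ^ n * (Real.log Y) ^ κ ≤ C * (L : ℝ) ^ n * (56 * Real.log z) ^ κ := by gcongr
        _ = _ := by rw [mul_pow]; ring
    have e4 : (n : ℝ) * (L : ℝ) ^ (n - 1) * Y ≤ n * (L : ℝ) ^ n := by
      rcases Nat.eq_zero_or_pos n with h0 | h0
      · simp [h0]
      · calc (n : ℝ) * (L : ℝ) ^ (n - 1) * Y ≤ n * (L : ℝ) ^ (n - 1) * L := by gcongr
          _ = _ := by rw [mul_assoc, ← pow_succ, Nat.sub_add_cancel h0]
    have e5 : 2 * (z : ℝ) ^ 14 * (n * (L : ℝ) ^ (n - 1)) * (Real.log Y) ^ κ ≤ B * (L : ℝ) ^ n := by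
      calc 2 * (z : ℝ) ^ 14 * (n * (L : ℝ) ^ (n - 1)) * (Real.log Y) ^ κ
          = 2 * (n * (L : ℝ) ^ (n - 1)) * ((z : ℝ) ^ 14 * (Real.log Y) ^ κ) := by ring
        _ ≤ 2 * (n * (L : ℝ) ^ (n - 1)) * (2 ^ κ * κ.factorial * Y) := by gcongr
        _ = 2 * (2 ^ κ * κ.factorial) * (n * (L : ℝ) ^ (n - 1) * Y) := by ring
        _ ≤ 2 * (2 ^ κ * κ.factorial) * (n * (L : ℝ) ^ n) := by gcongr
        _ = _ := by rw [hB]; ring
    have e6 := mul_le_mul_of_nonneg_right e1 (by positivity : 0 ≤ (Real.log Y) ^ κ)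
    have e7 := mul_nonneg hA0 hLn
    rw [add_mul] at e6
    linarith

end Pool.Agent.P.MP_a14ce1_nt.V
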