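import Pool.Agent.P.MP_a14ce1_nt.V.St

/-!
Localisation: cube sums with short steps are bounded by the average of local cube sums.
-/

open Finset Filter

namespace Pool.Agent.P.MP_a14ce1_nt.V

namespace Loc

theorem base {N : ℕ} [NeZero N] (H : ℕ) (f : ZMod N → ℂ) (χ : ℤ → ℝ) (a b : ℤ)
    (h0 : ∀ n, 0 ≤ χ n) (ha : 0 ≤ a) (hb : b ≤ H) (h1 : ∀ n, a ≤ n → n < b → χ n = 1)
    (hab : a ≤ b) :
    ‖∑ n, f n‖ ^ 2 * ((b : ℝ) - a) ^ 2 ≤
      N * ∑ x : ZMod N, ‖∑ n ∈ Ico (0 : ℤ) H, (χ n : ℂ) * f (x + (n : ZMod N))‖ ^ 2 := by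
  have hS : (b : ℝ) - a ≤ ∑ n ∈ Ico (0 : ℤ) H, χ n := by
    have h2 : ∑ n ∈ Ico a b, χ n = (b : ℝ) - a := by
      rw [sum_congr rfl (g := fun _ => (1 : ℝ)) fun n hn => h1 n (mem_Ico.1 hn).1 (mem_Ico.1 hn).2,
        sum_const, Int.card_Ico, nsmul_eq_mul, mul_one]
      have : ((b - a).toNat : ℤ) = b - a := Int.toNat_of_nonneg (by omega)
      exact_mod_cast this
    rw [← h2]
    exact sum_le_sum_of_subset_of_nonneg (Ico_subset_Ico ha hb) fun n _ _ => h0 n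
  have hab' : (0 : ℝ) ≤ (b : ℝ) - a := by
    have : (a : ℝ) ≤ b := by exact_mod_cast hab
    linarith
  have hE : ∑ x : ZMod N, ∑ n ∈ Ico (0 : ℤ) H, (χ n : ℂ) * f (x + (n : ZMod N)) =
      ((∑ n ∈ Ico (0 : ℤ) H, χ n : ℝ) : ℂ) * ∑ n, f n := by
    rw [sum_comm, Complex.ofReal_sum, sum_mul]
    refine sum_congr rfl fun n _ => ?_
    rw [← mul_sum, sum_shift]
  have h3 : ‖∑ n, f n‖ * ((b : ℝ) - a) ≤
      ∑ x : ZMod N, ‖∑ n ∈ Ico (0 : ℤ) H, (χ n : ℂ) * f (x + (n : ZMod N))‖ := by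
    refine le_trans ?_ (norm_sum_le _ _)
    rw [hE, norm_mul, Complex.norm_real, Real.norm_of_nonneg (hab'.trans hS), mul_comm]
    exact mul_le_mul_of_nonneg_right hS (norm_nonneg _)
  have h4 := sq_sum_le_card_mul_sum_sq (s := (univ : Finset (ZMod N)))
    (f := fun x => ‖∑ n ∈ Ico (0 : ℤ) H, (χ n : ℂ) * f (x + (n : ZMod N))‖)
  rw [card_univ, ZMod.card] at h4
  rw [← mul_pow]
  exact (pow_le_pow_left₀ (mul_nonneg (norm_nonneg _) hab') h3 2).trans h4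

theorem dl_eq {N : ℕ} (f : ZMod N → ℂ) (χ : ℤ → ℝ) (x : ZMod N) (s : ℤ) :
    dl s (fun n => (χ n : ℂ) * f (x + (n : ZMod N))) =
      fun n => ((χ (n + s) * χ n : ℝ) : ℂ) * dlz s f (x + (n : ZMod N)) := by
  funext n
  simp only [dl, dlz, map_mul, Complex.conj_ofReal, Int.cast_add, Complex.ofReal_mul, add_assoc]
  ring

theorem aux {N : ℕ} [NeZero N] (K H k : ℕ) : ∀ (f : ZMod N → ℂ) (χ : ℤ → ℝ) (a b : ℤ),
    (∀ n, 0 ≤ χ n) → 0 ≤ a → b ≤ H → (∀ n, a ≤ n → n < b → χ n = 1) →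
    2 * (k : ℤ) * K ≤ b - a →
    glo K k f * ((b : ℝ) - a - 2 * k * K) ^ 2 ≤
      N * ∑ x : ZMod N, gow H k (fun n => (χ n : ℂ) * f (x + (n : ZMod N))) := by
  induction k with
  | zero =>
    intro f χ a b h0 ha hb h1 hab
    have := base H f χ a b h0 ha hb h1 (by simpa using hab)
    simpa [glo_zero, gow_zero] using this
  | succ k ih =>
    intro f χ a b h0 ha hb h1 hab
    have hK0 : (0 : ℤ) ≤ K := Int.natCast_nonneg K
    have hkK : (0 : ℤ) ≤ (k : ℤ) * K := mul_nonneg (Int.natCast_nonneg k) hK0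
    have hab' : 2 * ((k : ℤ) * K) + 2 * K ≤ b - a := by push_cast at hab; linarith
    have hKH : (K : ℤ) ≤ H := by omega
    rw [glo_succ, sum_mul]
    simp only [gow_succ, dl_eq]
    rw [sum_comm, mul_sum]
    refine le_trans (sum_le_sum fun s hs => ?_) (sum_le_sum_of_subset_of_nonneg
      (Ioo_subset_Ioo (by omega) hKH) fun s _ _ =>
        mul_nonneg (Nat.cast_nonneg _) (sum_nonneg fun x _ => gow_nonneg _ _ _))
    have hs' := mem_Ioo.1 hs
    have := ih (dlz s f) (fun n => χ (n + s) * χ n) (a + K) (b - K)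
      (fun n => mul_nonneg (h0 _) (h0 _)) (by omega) (by omega)
      (fun n h2 h3 => by rw [h1 n (by omega) (by omega), h1 (n + s) (by omega) (by omega), mul_one])
      (by linarith)
    refine le_of_eq_of_le ?_ this
    push_cast
    ring

end Loc

theorem loc : S_Loc := by
  intro N _ r K H f hH
  have hH' : 4 * (r : ℤ) * K ≤ H := by exact_mod_cast hH
  have hrK : (0 : ℤ) ≤ (r : ℤ) * K := by positivity
  have h := Loc.aux K H r f (fun n => if 0 ≤ n ∧ n < H then 1 else 0) 0 H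
    (fun n => by split_ifs <;> norm_num) le_rfl le_rfl
    (fun n h1 h2 => if_pos ⟨h1, h2⟩) (by linarith)
  have he : ∀ x : ZMod N, (fun n : ℤ => (((if 0 ≤ n ∧ n < H then 1 else 0 : ℝ) : ℝ) : ℂ) *
      f (x + (n : ZMod N))) = winz f x H := by
    intro x
    funext n
    unfold winz
    split_ifs <;> simp
  simp only [he] at h
  refine le_trans (mul_le_mul_of_nonneg_left ?_ (glo_nonneg _ _ _)) h
  have hR : 4 * (r : ℝ) * K ≤ H := by exact_mod_cast hH
  refine pow_le_pow_left₀ (by positivity) ?_ 2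
  push_cast
  linarith

end Pool.Agent.P.MP_a14ce1_nt.V
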