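import Pool.Agent.P.MP_a14ce1_nt.V.St

/-!
Package Mult: restriction to the multiples of a prime, and removal of the wrap-around.
-/

open Finset

namespace Pool.Agent.P.MP_a14ce1_nt.V

namespace Mult

theorem sum_mult {p : ℕ} (hp : 0 < p) (M : ℕ) (φ : ℕ → ℂ) :
    ∑ n ∈ range (p * M), (if p ∣ n then φ n else 0) = ∑ m ∈ range M, φ (p * m) := by
  have e : (range (p * M)).filter (fun n => p ∣ n) = (range M).image (fun m => p * m) := by
    ext n
    simp only [mem_filter, mem_range, mem_image]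
    constructor
    · rintro ⟨h1, m, rfl⟩
      exact ⟨m, lt_of_mul_lt_mul_left h1 (Nat.zero_le _), rfl⟩
    · rintro ⟨m, h1, rfl⟩
      exact ⟨Nat.mul_lt_mul_of_pos_left h1 hp, dvd_mul_right _ _⟩
  rw [← sum_filter, e, sum_image fun x _ y _ h => mul_right_injective₀ hp.ne' h]

theorem norm_sub_le_card {s t G : Finset ℕ} {A B : ℕ → ℂ} (hs : G ⊆ s) (ht : G ⊆ t)
    (h : ∀ m ∈ G, A m = B m) (hA : ∀ m, ‖A m‖ ≤ 1) (hB : ∀ m, ‖B m‖ ≤ 1) :
    ‖∑ m ∈ s, A m - ∑ m ∈ t, B m‖ ≤ (s \ G).card + (t \ G).card := by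
  rw [← sum_sdiff hs, ← sum_sdiff ht, sum_congr rfl h, add_sub_add_right_eq_sub]
  refine (norm_sub_le _ _).trans (add_le_add ?_ ?_)
  · exact (norm_sum_le _ _).trans ((sum_le_card_nsmul _ _ 1 fun m _ => hA m).trans (by simp))
  · exact (norm_sum_le _ _).trans ((sum_le_card_nsmul _ _ 1 fun m _ => hB m).trans (by simp))

end Mult

open Mult

theorem mult : S_Mult := by
  intro ι _ g h b p M N _ hg hb hN
  have hN0 : N ≠ 0 := NeZero.ne N
  have hp : 0 < p := Nat.pos_of_ne_zero (left_ne_zero_of_mul (hN ▸ hN0))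
  have e1 : ∑ n : ZMod N, (ind p n : ℂ) * ∏ i, g i (n + ((p * h i : ℕ) : ZMod N)).val =
      ∑ m ∈ range M, ∏ i, g i ((p * m + p * h i) % N) := by
    rw [← sum_mult hp M fun n => ∏ i, g i ((n + p * h i) % N), ← hN, ← sum_val]
    refine sum_congr rfl fun n _ => ?_
    have : ∀ i, (n + ((p * h i : ℕ) : ZMod N)).val = (n.val + p * h i) % N := fun i => by
      rw [ZMod.val_add, ZMod.val_natCast, Nat.add_mod_mod]
    simp only [this, ind]
    split_ifs <;> simp
  rw [e1, mul_sum]
  refine (norm_sub_le_card (G := Ico 1 (M - b)) (fun m hm => ?_) (fun m hm => ?_)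
    (fun m hm => ?_) (fun m => norm_prod_le_one _ fun i _ => (hg i).bd _) fun m => ?_).trans ?_
  · rw [mem_Ico] at hm
    exact mem_range.2 (by omega)
  · rw [mem_Ico] at hm
    exact mem_Icc.2 (by omega)
  · rw [mem_Ico] at hm
    rw [← prod_mul_distrib]
    refine prod_congr rfl fun i _ => ?_
    have h1 := hb i
    rw [← mul_add, Nat.mod_eq_of_lt (hN ▸ Nat.mul_lt_mul_of_pos_left (by omega) hp),
      (hg i).mul _ _ hp.ne' (by omega)]
  · rw [norm_mul]
    exact mul_le_one₀ (norm_prod_le_one _ fun i _ => (hg i).bd _) (norm_nonneg _)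
      (norm_prod_le_one _ fun i _ => (hg i).bd _)
  · have h1 : (range M \ Ico 1 (M - b)).card ≤ b + 1 := by
      refine (card_le_card (t := insert 0 (Ico (M - b) M)) fun m hm => ?_).trans
        ((card_insert_le _ _).trans (by rw [Nat.card_Ico]; omega))
      simp only [mem_sdiff, mem_range, mem_Ico, mem_insert] at hm ⊢
      omega
    have h2 : (Icc 1 M \ Ico 1 (M - b)).card ≤ b + 1 := by
      refine (card_le_card (t := Icc (M - b) M) fun m hm => ?_).trans
        (by rw [Nat.card_Icc]; omega)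
      simp only [mem_sdiff, mem_Icc, mem_Ico] at hm ⊢
      omega
    have h3 : (range M \ Ico 1 (M - b)).card + (Icc 1 M \ Ico 1 (M - b)).card ≤ 2 * b + 2 := by
      omega
    exact_mod_cast h3

theorem wrap : S_Wrap := by
  intro N _ k H f hf
  let Φ : ℕ → ℝ := fun x =>
    gow H k (winz (fun n : ZMod N => f n.val) (x : ZMod N) H) / (H : ℝ) ^ (k + 2)
  have hΦ : ∀ x, Φ x ≤ 2 ^ k := fun x => by
    refine div_le_of_le_mul₀ (by positivity) (by positivity) (gow_le H k _ fun n => ?_)
    unfold winz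
    split_ifs
    exacts [hf _, by simp]
  have e1 : ∑ x : ZMod N, gow H k (winz (fun n => f n.val) x H) / (H : ℝ) ^ (k + 2) =
      ∑ x ∈ range N, Φ x := by
    rw [← sum_val]
    simp only [Φ, ZMod.natCast_zmod_val]
  have hG : ∀ x ∈ Ico 1 (N - H), Φ x = cube k f x H := by
    intro x hx
    rw [mem_Ico] at hx
    have : winz (fun n : ZMod N => f n.val) (x : ZMod N) H = win f x H := by
      funext n
      unfold winz win
      split_ifs with hn
      · obtain ⟨m, rfl⟩ := Int.eq_ofNat_of_zero_le hn.1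
        have : m < H := by exact_mod_cast hn.2
        beta_reduce
        rw [Int.cast_natCast, ← Nat.cast_add, ZMod.val_cast_of_lt (by omega), Int.toNat_natCast]
      · rfl
    simp only [Φ, cube, this]
  have hs : Ico 1 (N - H) ⊆ range N := fun m hm => by
    rw [mem_Ico] at hm
    exact mem_range.2 (by omega)
  have h1 : (range N \ Ico 1 (N - H)).card ≤ H + 1 := by
    refine (card_le_card (t := insert 0 (Ico (N - H) N)) fun m hm => ?_).trans
      ((card_insert_le _ _).trans (by rw [Nat.card_Ico]; omega))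
    simp only [mem_sdiff, mem_range, mem_Ico, mem_insert] at hm ⊢
    omega
  rw [e1, ← sum_sdiff hs, sum_congr rfl hG, add_comm]
  refine add_le_add (sum_le_sum_of_subset_of_nonneg (fun m hm => ?_)
    fun x _ _ => cube_nonneg k f x H) ((sum_le_card_nsmul _ _ _ fun x _ => hΦ x).trans ?_)
  · rw [mem_Ico] at hm
    exact mem_Icc.2 (by omega)
  · rw [nsmul_eq_mul]
    have : ((range N \ Ico 1 (N - H)).card : ℝ) ≤ H + 1 := by exact_mod_cast h1
    gcongr

end Pool.Agent.P.MP_a14ce1_nt.V
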