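import Pool.Agent.P.MP_a14ce1_nt.V.St

/-!
The cube sum of a function supported on primes is bounded by the sieve for systems of forms.
-/

open Finset Filter

namespace Pool.Agent.P.MP_a14ce1_nt.V

namespace PrimeGow

theorem frm_cons {k : ℕ} (b : Bool) (ω : Fin k → Bool) (h : ℤ) (s : Fin k → ℤ) :
    frm (Fin.cons b ω : Fin (k + 1) → Bool) (Fin.cons h s : Fin (k + 1) → ℤ) =
      (if b then h else 0) + frm ω s := by
  simp only [frm, Fin.sum_univ_succ, Fin.cons_zero, Fin.cons_succ]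

theorem sum_pi_succ {k : ℕ} (T : Finset ℤ) (F : (Fin (k + 1) → ℤ) → ℝ) :
    ∑ x ∈ Fintype.piFinset (fun _ : Fin (k + 1) => T), F x =
      ∑ h ∈ T, ∑ s ∈ Fintype.piFinset (fun _ : Fin k => T), F (Fin.cons h s) := by
  rw [← sum_product']
  refine sum_nbij' (fun x => (x 0, Fin.tail x)) (fun q => Fin.cons q.1 q.2) ?_ ?_ ?_ ?_ ?_
  · intro x hx
    rw [Fintype.mem_piFinset] at hx
    exact mem_product.2 ⟨hx 0, Fintype.mem_piFinset.2 fun i => hx i.succ⟩
  · intro q hq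
    obtain ⟨h1, h2⟩ := mem_product.1 hq
    rw [Fintype.mem_piFinset] at h2 ⊢
    intro i
    refine Fin.cases ?_ (fun j => ?_) i
    · simpa using h1
    · simpa using h2 j
  · intro x _
    exact Fin.cons_self_tail x
  · intro q _
    simp
  · intro x _
    rw [Fin.cons_self_tail]

/-- the product over the vertices of a cube -/
noncomputable def P (k : ℕ) (a : ℤ → ℝ) (s : Fin k → ℤ) (u : ℤ) : ℝ :=
  ∏ ω : Fin k → Bool, a (u + frm ω s)

theorem P_succ (k : ℕ) (a : ℤ → ℝ) (h : ℤ) (s : Fin k → ℤ) (u : ℤ) :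
    P (k + 1) a (Fin.cons h s) u = P k (fun n => a (n + h) * a n) s u := by
  unfold P
  rw [← (Fin.consEquiv fun _ : Fin (k + 1) => Bool).prod_comp, Fintype.prod_prod_type,
    Fintype.prod_bool, ← prod_mul_distrib]
  refine prod_congr rfl fun ω _ => ?_
  have h1 := frm_cons true ω h s
  have h2 := frm_cons false ω h s
  simp only [if_true, Bool.false_eq_true, if_false, zero_add] at h1 h2
  change a (u + frm (Fin.cons true ω : Fin (k + 1) → Bool) (Fin.cons h s : Fin (k + 1) → ℤ)) *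
    a (u + frm (Fin.cons false ω : Fin (k + 1) → Bool) (Fin.cons h s : Fin (k + 1) → ℤ)) = _
  rw [h1, h2, add_comm h, ← add_assoc]

/-- the sum over all cubes -/
noncomputable def G (T : Finset ℤ) (k : ℕ) (a : ℤ → ℝ) : ℝ :=
  ∑ s ∈ Fintype.piFinset (fun _ : Fin k => T), ∑ u ∈ T, P k a s u

theorem G_succ (T : Finset ℤ) (k : ℕ) (a : ℤ → ℝ) :
    G T (k + 1) a = ∑ h ∈ T, G T k (fun n => a (n + h) * a n) := by
  unfold G
  rw [sum_pi_succ]
  simp only [P_succ]

theorem G_zero (T : Finset ℤ) (a : ℤ → ℝ) : G T 0 a = ∑ u ∈ T, a u := by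
  simp [G, P, frm]

theorem G_nonneg (T : Finset ℤ) (k : ℕ) {a : ℤ → ℝ} (ha : ∀ n, 0 ≤ a n) : 0 ≤ G T k a :=
  sum_nonneg fun _ _ => sum_nonneg fun _ _ => prod_nonneg fun _ _ => ha _

theorem gow_le_G (H : ℕ) (T : Finset ℤ) (h1 : Ioo (-(H : ℤ)) H ⊆ T) (h2 : Ico (0 : ℤ) H ⊆ T)
    (k : ℕ) (φ : ℤ → ℂ) : gow H k φ ≤ G T (k + 1) fun n => ‖φ n‖ := by
  induction k generalizing φ with
  | zero =>
    rw [gow_zero, G_succ]
    simp only [G_zero]
    refine (pow_le_pow_left₀ (norm_nonneg _) (norm_sum_le _ _) 2).trans ?_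
    rw [sum_comm, sq, sum_mul]
    refine le_trans (sum_le_sum fun u hu => ?_) (sum_le_sum_of_subset_of_nonneg h2 fun u _ _ =>
      sum_nonneg fun h _ => mul_nonneg (norm_nonneg _) (norm_nonneg _))
    rw [← sum_mul, mul_comm]
    refine mul_le_mul_of_nonneg_right ?_ (norm_nonneg _)
    have h3 : ∑ v ∈ Ico (0 : ℤ) H, ‖φ v‖ =
        ∑ h ∈ (Ico (0 : ℤ) H).image (fun v => v - u), ‖φ (u + h)‖ := by
      rw [sum_image fun x _ y _ e => sub_left_injective e]
      simp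
    rw [h3]
    refine sum_le_sum_of_subset_of_nonneg (fun h hh => h1 ?_) fun _ _ _ => norm_nonneg _
    obtain ⟨v, hv, rfl⟩ := mem_image.1 hh
    rw [mem_Ico] at hu hv
    rw [mem_Ioo]
    omega
  | succ k ih =>
    rw [gow_succ, G_succ]
    refine le_trans (sum_le_sum fun h _ => ?_) (sum_le_sum_of_subset_of_nonneg h1 fun h _ _ =>
      G_nonneg T _ fun n => mul_nonneg (norm_nonneg _) (norm_nonneg _))
    refine (ih _).trans_eq ?_
    simp only [dl, norm_mul, RCLike.norm_conj]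

end PrimeGow

open PrimeGow in
theorem primeGow (h : S_Forms) : S_PrimeGow := by
  classical
  intro r
  obtain ⟨C, hC, hS⟩ := h (Fin (r + 2)) (Fin (r + 1) → Bool) (fun ω => Fin.cons true ω)
    (Fin.cons_right_injective (α := fun _ : Fin (r + 2) => Bool) true) (fun ω => ⟨0, rfl⟩)
  refine ⟨C * 6 ^ (r + 2), by positivity, fun Y θ hY h1 h2 => ?_⟩
  set T : Finset ℤ := Ico (-(3 * Y : ℤ)) (-(3 * Y : ℤ) + (6 * Y : ℕ)) with hT
  set F : (Fin (r + 2) → ℤ) → ℝ := fun x =>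
    ∏ ω : Fin (r + 1) → Bool, ‖θ (frm (Fin.cons true ω : Fin (r + 2) → Bool) x)‖ with hF
  have e1 : G T (r + 1) (fun n => ‖θ n‖) = ∑ x ∈ box (Fin (r + 2)) (-(3 * Y : ℤ)) (6 * Y), F x := by
    rw [box, sum_pi_succ, G, sum_comm]
    simp only [hF, P, frm_cons, if_true, hT]
  have e2 := hS Y (6 * Y) (-(3 * Y : ℤ))
    ((box (Fin (r + 2)) (-(3 * Y : ℤ)) (6 * Y)).filter fun x => F x ≠ 0) hY (by omega)
    (filter_subset _ _) fun x hx ω => by
      have h3 := prod_ne_zero_iff.1 (mem_filter.1 hx).2 ω (mem_univ ω)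
      obtain ⟨p, hp, e⟩ := h2 _ (norm_ne_zero_iff.1 h3)
      exact ⟨p, (mem_dy.1 hp).1, (mem_dy.1 hp).2.1, e⟩
  have e3 : gow (3 * Y) r θ ≤ G T (r + 1) fun n => ‖θ n‖ := by
    refine gow_le_G _ T (fun v hv => ?_) (fun v hv => ?_) r θ
    · rw [mem_Ioo] at hv
      rw [hT, mem_Ico]
      push_cast at hv ⊢
      omega
    · rw [mem_Ico] at hv
      rw [hT, mem_Ico]
      push_cast at hv ⊢
      omega
  rw [e1, ← sum_filter_ne_zero] at e3
  have e4 := sum_le_card_nsmul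
    ((box (Fin (r + 2)) (-(3 * Y : ℤ)) (6 * Y)).filter fun x => F x ≠ 0) F 1 fun x _ =>
      prod_le_one (fun _ _ => norm_nonneg _) fun _ _ => h1 _
  rw [nsmul_eq_mul, mul_one] at e4
  refine (e3.trans (e4.trans e2)).trans_eq ?_
  simp only [Fintype.card_fin, Fintype.card_pi, Fintype.card_bool, prod_const, card_univ]
  push_cast
  rw [mul_pow, mul_assoc]

end Pool.Agent.P.MP_a14ce1_nt.V
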