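import Pool.Agent.P.MP_a14ce1_nt.V.St

/-!
Counting points of a box that satisfy congruence conditions modulo several primes.
-/

open Finset Filter

namespace Pool.Agent.P.MP_a14ce1_nt.V

open Ch (CM rs pv)

namespace Rem

variable {ι : Type} [Fintype ι] [DecidableEq ι]

theorem mem_box {c : ℤ} {L : ℕ} {x : ι → ℤ} : x ∈ box ι c L ↔ ∀ i, c ≤ x i ∧ x i < c + L := by
  simp [box, Fintype.mem_piFinset]

theorem card_box (c : ℤ) (L : ℕ) : (box ι c L).card = L ^ Fintype.card ι := by
  simp [box, Fintype.card_piFinset]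

theorem emod_mem {d : ℕ} (hd : 0 < d) (x : ι → ℤ) : (fun i => x i % d) ∈ box ι 0 d := by
  have hd' : (0 : ℤ) < d := by exact_mod_cast hd
  rw [mem_box]
  intro i
  exact ⟨Int.emod_nonneg _ hd'.ne', by simpa using Int.emod_lt_of_pos _ hd'⟩

theorem card_class (c v : ℤ) (q : ℕ) {d : ℕ} (hd : 0 < d) :
    ((Ico c (c + (q * d : ℕ))).filter (fun x => x ≡ v [ZMOD d])).card = q := by
  have hd' : (0 : ℤ) < d := by exact_mod_cast hd
  have h := Int.Ico_filter_modEq_card c (c + (q * d : ℕ)) hd' v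
  have hq : (((c + (q * d : ℕ) : ℤ) : ℚ) - v) / ((d : ℤ) : ℚ) = ((c : ℚ) - v) / ((d : ℤ) : ℚ) + q := by
    have : (d : ℚ) ≠ 0 := by exact_mod_cast hd.ne'
    push_cast
    field_simp
    ring
  rw [hq, Int.ceil_add_natCast, add_sub_cancel_left, max_eq_left (Int.natCast_nonneg q)] at h
  exact_mod_cast h

/-- a periodic condition in a box whose side is a multiple of the period -/
theorem card_mul {d : ℕ} (hd : 0 < d) (S : (ι → ℤ) → Prop) [DecidablePred S]
    (hS : ∀ x y : ι → ℤ, (∀ i, x i ≡ y i [ZMOD d]) → S x → S y) (c : ℤ) (q : ℕ) :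
    ((box ι c (q * d)).filter S).card = q ^ Fintype.card ι * ((box ι 0 d).filter S).card := by
  have hd' : (0 : ℤ) < d := by exact_mod_cast hd
  rw [card_eq_sum_card_fiberwise (f := fun (x : ι → ℤ) i => x i % d) (t := (box ι 0 d).filter S)]
  · rw [mul_comm (q ^ Fintype.card ι)]
    refine sum_const_nat fun y hy => ?_
    rw [mem_filter, mem_box] at hy
    have hy' : ∀ i, y i % d = y i := fun i =>
      Int.emod_eq_of_lt (hy.1 i).1 (by simpa using (hy.1 i).2)
    have e : ((box ι c (q * d)).filter S).filter (fun x => (fun i => x i % (d : ℤ)) = y) =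
        Fintype.piFinset fun i => (Ico c (c + (q * d : ℕ))).filter (fun x => x ≡ y i [ZMOD d]) := by
      ext x
      simp only [mem_filter, mem_box, Fintype.mem_piFinset, mem_Ico]
      constructor
      · rintro ⟨⟨h1, -⟩, h2⟩ i
        refine ⟨h1 i, ?_⟩
        have h3 : x i % d = y i := congrFun h2 i
        unfold Int.ModEq
        rw [hy', h3]
      · intro h
        refine ⟨⟨fun i => (h i).1, hS y x (fun i => (h i).2.symm) hy.2⟩, funext fun i => ?_⟩
        have h3 : x i % d = y i % d := (h i).2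
        rw [h3, hy']
    rw [e, Fintype.card_piFinset, prod_congr rfl fun i _ => card_class c (y i) q hd, prod_const,
      card_univ]
  · intro x hx
    rw [mem_coe, mem_filter] at hx ⊢
    exact ⟨emod_mem hd x, hS x _ (fun i => (Int.mod_modEq _ _).symm) hx.2⟩

/-- Chinese remainder theorem for two conditions -/
theorem card_crt {a b : ℕ} (ha : 0 < a) (hb : 0 < b) (hab : Nat.Coprime a b)
    (A B : (ι → ℤ) → Prop) [DecidablePred A] [DecidablePred B] [DecidablePred fun x => A x ∧ B x]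
    (hA : ∀ x y : ι → ℤ, (∀ i, x i ≡ y i [ZMOD a]) → A x → A y)
    (hB : ∀ x y : ι → ℤ, (∀ i, x i ≡ y i [ZMOD b]) → B x → B y) :
    ((box ι 0 (a * b)).filter fun x => A x ∧ B x).card =
      ((box ι 0 a).filter A).card * ((box ι 0 b).filter B).card := by
  rw [← card_product]
  refine card_nbij (fun x => (fun i => x i % a, fun i => x i % b)) ?_ ?_ ?_
  · intro x hx
    rw [mem_coe, mem_filter] at hx
    rw [mem_coe, mem_product, mem_filter, mem_filter]
    exact ⟨⟨emod_mem ha x, hA x _ (fun i => (Int.mod_modEq _ _).symm) hx.2.1⟩,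
      ⟨emod_mem hb x, hB x _ (fun i => (Int.mod_modEq _ _).symm) hx.2.2⟩⟩
  · intro x hx y hy hxy
    rw [mem_coe, mem_filter, mem_box] at hx hy
    funext i
    have h1 : x i ≡ y i [ZMOD a] := congrFun (congrArg Prod.fst hxy) i
    have h2 : x i ≡ y i [ZMOD b] := congrFun (congrArg Prod.snd hxy) i
    have h3 : x i ≡ y i [ZMOD (a : ℤ) * b] :=
      (Int.modEq_and_modEq_iff_modEq_mul (by simpa using hab)).1 ⟨h1, h2⟩
    have h4 := hx.1 i
    have h5 := hy.1 i
    push_cast at h4 h5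
    unfold Int.ModEq at h3
    rwa [Int.emod_eq_of_lt h4.1 (by linarith [h4.2]),
      Int.emod_eq_of_lt h5.1 (by linarith [h5.2])] at h3
  · rintro ⟨y, z⟩ hyz
    rw [mem_coe, mem_product, mem_filter, mem_filter, mem_box, mem_box] at hyz
    obtain ⟨⟨hy, hyA⟩, hz, hzB⟩ := hyz
    obtain ⟨u, v, huv⟩ := Nat.isCoprime_iff_coprime.2 hab
    set x0 : ι → ℤ := fun i => y i * (v * b) + z i * (u * a) with hx0
    set x : ι → ℤ := fun i => x0 i % ((a * b : ℕ) : ℤ) with hx
    have hxa : ∀ i, x i ≡ y i [ZMOD a] := fun i => by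
      have h1 : x i ≡ x0 i [ZMOD a] :=
        (Int.mod_modEq _ _).of_dvd (by push_cast; exact dvd_mul_right _ _)
      refine h1.trans (Int.modEq_iff_dvd.2 ⟨y i * u - z i * u, ?_⟩)
      simp only [hx0]
      linear_combination (-y i) * huv
    have hxb : ∀ i, x i ≡ z i [ZMOD b] := fun i => by
      have h1 : x i ≡ x0 i [ZMOD b] :=
        (Int.mod_modEq _ _).of_dvd (by push_cast; exact dvd_mul_left _ _)
      refine h1.trans (Int.modEq_iff_dvd.2 ⟨z i * v - y i * v, ?_⟩)
      simp only [hx0]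
      linear_combination (-z i) * huv
    refine ⟨x, ?_, ?_⟩
    · rw [mem_coe, mem_filter]
      exact ⟨emod_mem (Nat.mul_pos ha hb) x0, hA y x (fun i => (hxa i).symm) hyA,
        hB z x (fun i => (hxb i).symm) hzB⟩
    · refine Prod.ext (funext fun i => ?_) (funext fun i => ?_)
      · have h1 : x i % a = y i % a := hxa i
        simp only
        rw [h1, Int.emod_eq_of_lt (hy i).1 (by simpa using (hy i).2)]
      · have h1 : x i % b = z i % b := hxb i
        simp only
        rw [h1, Int.emod_eq_of_lt (hz i).1 (by simpa using (hz i).2)]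

theorem pv_pos {T : Finset ℕ} (hT : ∀ p ∈ T, p.Prime) : 0 < pv T :=
  prod_pos fun p hp => (hT p hp).pos

omit [Fintype ι] [DecidableEq ι] in
theorem inv_all {T : Finset ℕ} {D : ℕ → (ι → ℤ) → Prop}
    (hD : ∀ p ∈ T, ∀ x y : ι → ℤ, (∀ i, x i ≡ y i [ZMOD p]) → D p x → D p y)
    (x y : ι → ℤ) (h : ∀ i, x i ≡ y i [ZMOD (pv T)]) (hx : ∀ p ∈ T, D p x) : ∀ p ∈ T, D p y :=
  fun p hp => hD p hp x y (fun i => (h i).of_dvd
    (Int.natCast_dvd_natCast.2 (dvd_prod_of_mem (fun q => q) hp))) (hx p hp)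

theorem card_prod (D : ℕ → (ι → ℤ) → Prop) [∀ p x, Decidable (D p x)] (T : Finset ℕ)
    (hT : ∀ p ∈ T, p.Prime)
    (hD : ∀ p ∈ T, ∀ x y : ι → ℤ, (∀ i, x i ≡ y i [ZMOD p]) → D p x → D p y) :
    ((box ι 0 (pv T)).filter (fun x => ∀ p ∈ T, D p x)).card =
      ∏ p ∈ T, ((box ι 0 p).filter (D p)).card := by
  induction T using Finset.induction_on with
  | empty => simp [pv, card_box]
  | insert p T hp ih =>
    have hT' : ∀ q ∈ T, q.Prime := fun q hq => hT q (mem_insert_of_mem hq)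
    have hD' : ∀ q ∈ T, ∀ x y : ι → ℤ, (∀ i, x i ≡ y i [ZMOD q]) → D q x → D q y :=
      fun q hq => hD q (mem_insert_of_mem hq)
    have hpp := hT p (mem_insert_self _ _)
    have hc : Nat.Coprime p (pv T) := Nat.Coprime.prod_right fun q hq =>
      (Nat.coprime_primes hpp (hT' q hq)).2 fun h => hp (h ▸ hq)
    have e : pv (insert p T) = p * pv T := prod_insert hp
    rw [prod_insert hp, ← ih hT' hD', e,
      ← card_crt hpp.pos (pv_pos hT') hc (D p) (fun x => ∀ q ∈ T, D q x)
        (hD p (mem_insert_self _ _)) (inv_all hD')]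
    exact congrArg card (filter_congr fun x _ => forall_mem_insert _ _ _)

end Rem

open Rem

theorem rem : S_Rem := by
  intro ι _ _ T D _ c L hT hD
  have hd : 0 < pv T := pv_pos hT
  have hP := card_prod D T hT hD
  set d := pv T with hdd
  set n := Fintype.card ι with hn
  have hdR : (0 : ℝ) < d := by exact_mod_cast hd
  set c0 := ((box ι 0 d).filter (fun x => ∀ p ∈ T, D p x)).card with hc0
  have hdens : ∏ p ∈ T, ((((box ι 0 p).filter (D p)).card : ℝ) / (p : ℝ) ^ n) =
      (c0 : ℝ) / (d : ℝ) ^ n := by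
    rw [prod_div_distrib, prod_pow, hP, hdd]
    unfold pv
    push_cast
    rfl
  rw [hdens]
  have hc0d : c0 ≤ d ^ n := (card_filter_le _ _).trans (card_box 0 d).le
  have hρ0 : 0 ≤ (c0 : ℝ) / (d : ℝ) ^ n := by positivity
  have hρ1 : (c0 : ℝ) / (d : ℝ) ^ n ≤ 1 := by
    rw [div_le_one (by positivity)]; exact_mod_cast hc0d
  set q := L / d with hq
  have hq1 : q * d ≤ L := Nat.div_mul_le_self _ _
  have hq2 : L < q * d + d := by
    have h1 : q * d + L % d = L := Nat.div_add_mod' L d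
    have := Nat.mod_lt L hd
    omega
  have h1 := card_mul hd (fun x => ∀ p ∈ T, D p x) (inv_all hD) c q
  have hsub : box ι c (q * d) ⊆ box ι c L := by
    intro x hx
    rw [mem_box] at hx ⊢
    intro i
    have h2 : ((q * d : ℕ) : ℤ) ≤ L := by exact_mod_cast hq1
    exact ⟨(hx i).1, by linarith [(hx i).2]⟩
  have h2 : ((box ι c (q * d)).filter (fun x => ∀ p ∈ T, D p x)).card ≤
      ((box ι c L).filter (fun x => ∀ p ∈ T, D p x)).card :=
    card_le_card (filter_subset_filter _ hsub)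
  have h3 : ((box ι c L).filter (fun x => ∀ p ∈ T, D p x)).card + (q * d) ^ n ≤
      ((box ι c (q * d)).filter (fun x => ∀ p ∈ T, D p x)).card + L ^ n := by
    have h4 : (box ι c L).filter (fun x => ∀ p ∈ T, D p x) ⊆
        (box ι c (q * d)).filter (fun x => ∀ p ∈ T, D p x) ∪ (box ι c L \ box ι c (q * d)) := by
      intro x hx
      rw [mem_filter] at hx
      rw [mem_union, mem_filter, Finset.mem_sdiff]
      by_cases h : x ∈ box ι c (q * d)
      · exact Or.inl ⟨h, hx.2⟩
      · exact Or.inr ⟨hx.1, h⟩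
    have h5 := (card_le_card h4).trans (card_union_le _ _)
    have h6 := card_sdiff_add_card_eq_card hsub
    rw [card_box, card_box, ← hn] at h6
    omega
  rw [h1] at h2 h3
  have h2' : (q : ℝ) ^ n * c0 ≤ ((box ι c L).filter (fun x => ∀ p ∈ T, D p x)).card := by
    exact_mod_cast h2
  have h3' : (((box ι c L).filter (fun x => ∀ p ∈ T, D p x)).card : ℝ) + ((q : ℝ) * d) ^ n ≤
      (q : ℝ) ^ n * c0 + (L : ℝ) ^ n := by exact_mod_cast h3
  have hq1' : (q : ℝ) * d ≤ L := by exact_mod_cast hq1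
  have hq2' : (L : ℝ) ≤ q * d + d := by exact_mod_cast hq2.le
  have h4 : ((q : ℝ) * d) ^ n ≤ (L : ℝ) ^ n := pow_le_pow_left₀ (by positivity) hq1' n
  have h5 : (L : ℝ) ^ n - ((q : ℝ) * d) ^ n ≤ n * d * (L : ℝ) ^ (n - 1) := by
    have h := abs_pow_sub_pow_le (a := (L : ℝ)) (b := (q : ℝ) * d) (n := n)
    rw [abs_of_nonneg (sub_nonneg.2 h4), abs_of_nonneg (sub_nonneg.2 hq1'),
      abs_of_nonneg (Nat.cast_nonneg L), abs_of_nonneg (show (0 : ℝ) ≤ q * d by positivity),
      max_eq_left hq1'] at h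
    refine h.trans ?_
    have h6 : ((L : ℝ) - q * d) * n ≤ n * d := by
      rw [mul_comm]
      exact mul_le_mul_of_nonneg_left (by linarith) (Nat.cast_nonneg n)
    exact mul_le_mul_of_nonneg_right h6 (by positivity)
  have h6 : (q : ℝ) ^ n * c0 = ((q : ℝ) * d) ^ n * ((c0 : ℝ) / (d : ℝ) ^ n) := by
    rw [mul_pow]; field_simp
  have h7 := mul_le_mul_of_nonneg_right h4 hρ0
  have h8 := mul_le_mul_of_nonneg_left hρ1 (sub_nonneg.2 h4)
  rw [abs_le]
  constructor <;> nlinarith

end Pool.Agent.P.MP_a14ce1_nt.V
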