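import Pool.Agent.P.MP_a14ce1_nt.Ch.Mertens
import Pool.Agent.P.MP_a14ce1_nt.Ch.Sieve
import Pool.Agent.P.MP_a14ce1_nt.V.ED
import Pool.Agent.P.MP_a14ce1_nt.V.EDfin
import Pool.Agent.P.MP_a14ce1_nt.V.EDapp
import Pool.Agent.P.MP_a14ce1_nt.V.Rem
import Pool.Agent.P.MP_a14ce1_nt.V.Dens
import Pool.Agent.P.MP_a14ce1_nt.V.Forms
import Pool.Agent.P.MP_a14ce1_nt.V.PrimeGow
import Pool.Agent.P.MP_a14ce1_nt.V.CS
import Pool.Agent.P.MP_a14ce1_nt.V.Loc
import Pool.Agent.P.MP_a14ce1_nt.V.GvN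
import Pool.Agent.P.MP_a14ce1_nt.V.Mult
import Pool.Agent.P.MP_a14ce1_nt.V.One
import Pool.Agent.P.MP_a14ce1_nt.V.Dil
import Pool.Agent.P.MP_a14ce1_nt.V.Aff
import Pool.Agent.P.MP_a14ce1_nt.V.Final
import Pool.Agent.P.MP_a14ce1_nt.V.Cor

/-! Assembly of part V. -/

open Finset Filter

namespace Pool.Agent.P.MP_a14ce1_nt.V

theorem forms_all : S_Forms := forms Ch.m1 Ch.sieve rem dens

theorem gvn_all : S_GvN := gvn (primeGow forms_all) cs loc

theorem v_all : S_V := vmain Ch.m1 (one (edapp (edfin ed)) gvn_all mult wrap) dil swap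

theorem aff_all : S_Aff := aff v_all

/-- local uniformity of the Liouville function gives Chowla at almost all scales -/
theorem scales_of_LU (hLU : LU lamC atTop) (k : ℕ) (hk : 0 < k) (a b : Fin k → ℕ)
    (ha : ∀ i, 0 < a i) (hab : ∀ i j, i ≠ j → a i * b j ≠ a j * b i) :
    Asymptotics.IsLittleO atTop
      (fun X : ℕ => ∑ N ∈ Icc 1 X, (1 / (N : ℝ)) *
        |(1 / (N : ℝ)) * ∑ n ∈ Icc 1 N, ∏ i, Ch.lam (a i * n + b i)|)
      (fun X : ℕ => Real.log X) := chowla_scales aff_all hLU k hk a b ha hab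

/-- local uniformity of the Liouville function gives the logarithmic Chowla conjecture -/
theorem log_of_LU (hLU : LU lamC atTop) (k : ℕ) (hk : 0 < k) (a b : Fin k → ℕ)
    (ha : ∀ i, 0 < a i) (hab : ∀ i j, i ≠ j → a i * b j ≠ a j * b i) :
    Asymptotics.IsLittleO atTop
      (fun X : ℕ => ∑ n ∈ Icc 1 X, (∏ i, Ch.lam (a i * n + b i)) / (n : ℝ))
      (fun X : ℕ => Real.log X) := chowla_log aff_all logw hLU k hk a b ha hab

end Pool.Agent.P.MP_a14ce1_nt.V
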