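import Pool.Agent.P.MP_a14ce1_nt.V.Norm

/-!
Statements of the pieces of part V (entropy decrement and generalised von Neumann along primes).
Every piece is a theorem of the shape  S_a → S_b → S_c  in a file importing only this one
(and finished files of the directory Ch).
-/

open Finset Filter

namespace Pool.Agent.P.MP_a14ce1_nt.V

open Ch (CM rs pv)

/-- primes in (Y, 2Y] -/
def dy (Y : ℕ) : Finset ℕ := (Ioc Y (2 * Y)).filter Nat.Prime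

/-- primes in (2^a, 2^b] -/
def PP (a b : ℕ) : Finset ℕ := (Ioc (2 ^ a) (2 ^ b)).filter Nat.Prime

/-- indicator of the multiples of p -/
noncomputable def ind {N : ℕ} (p : ℕ) (n : ZMod N) : ℝ := if p ∣ n.val then 1 else 0

/-- multiplicative derivative on Z/N -/
noncomputable def dlz {N : ℕ} (h : ℤ) (f : ZMod N → ℂ) : ZMod N → ℂ :=
  fun n => f (n + (h : ZMod N)) * (starRingEnd ℂ) (f n)

/-- cube sums on Z/N with the base point free and k steps shorter than K -/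
noncomputable def glo {N : ℕ} [NeZero N] (K : ℕ) : ℕ → (ZMod N → ℂ) → ℝ
  | 0, f => ‖∑ n, f n‖ ^ 2
  | k + 1, f => ∑ h ∈ Ioo (-(K : ℤ)) K, glo K k (dlz h f)

/-- window of a function on Z/N -/
noncomputable def winz {N : ℕ} (f : ZMod N → ℂ) (x : ZMod N) (H : ℕ) : ℤ → ℂ :=
  fun n => if 0 ≤ n ∧ n < H then f (x + (n : ZMod N)) else 0

/-- cube of side L in Z^ι -/
noncomputable def box (ι : Type) [Fintype ι] [DecidableEq ι] (c : ℤ) (L : ℕ) : Finset (ι → ℤ) :=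
  Fintype.piFinset fun _ : ι => Ico c (c + L)

/-- linear form with coefficients 0 and 1 -/
def frm {ι : Type} [Fintype ι] (a : ι → Bool) (x : ι → ℤ) : ℤ := ∑ i, if a i then x i else 0

/-- mean of a over [1, M] -/
noncomputable def av (a : ℕ → ℂ) (M : ℕ) : ℂ := (1 / (M : ℂ)) * ∑ n ∈ Icc 1 M, a n

/-! ### Entropy decrement -/

def S_ED : Prop := ∀ (A : Type) [Fintype A] [Nonempty A] (N : ℕ) [NeZero N] (F : ZMod N → A)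
  (D M0 M1 : ℕ) (P : ℕ → Finset ℕ) (Z : ℕ → ℕ → (ℕ → A) → ZMod N → ℝ) (t : ℝ),
  0 < D → 0 ≤ t → t ≤ 1 / 2 →
  (∀ m, ∀ p ∈ P m, p.Prime) → (∀ m m', m ≠ m' → Disjoint (P m) (P m')) →
  (∀ m, ∀ p ∈ P m, ∀ w w' n, (∀ j < D * 2 ^ m, w j = w' j) → Z m p w n = Z m p w' n) →
  (∀ m, ∀ p ∈ P m, ∀ w n, Z m p w (n + (p : ZMod N)) = Z m p w n) →
  (∀ m, ∀ p ∈ P m, ∀ w, ∑ n, Z m p w n = 0) →
  (∀ m, ∀ p ∈ P m, ∀ w n, |Z m p w n| ≤ 2) →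
  ∑ m ∈ Ico M0 M1,
      (t * ((∑ n : ZMod N, ∑ p ∈ P m, Z m p (fun j => F (n + (j : ZMod N))) n) / N) -
        4 * t ^ 2 * (P m).card) / (D * 2 ^ m) ≤ Real.log (Fintype.card A)

/-- entropy decrement for correlations with values in a finite set -/
def S_EDfin : Prop := ∀ (ι : Type) [Fintype ι] (h : ι → ℕ) (A : Type) [Fintype A] [Nonempty A]
  (v : A → ι → ℂ) (ε : ℝ), 0 < ε → (∀ a i, ‖v a i‖ ≤ 1) → ∃ C : ℝ, 0 < C ∧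
  ∀ (N : ℕ) [NeZero N] (F : ZMod N → A) (σ : ℕ → ℂ) (M0 M1 : ℕ), M0 ≤ M1 →
    (∀ p, ‖σ p‖ ≤ 1) → (∀ p ∈ PP M0 M1, p ∣ N) →
    ∑ p ∈ PP M0 M1, (σ p * ((∑ n : ZMod N, ((ind p n - 1 / p : ℝ) : ℂ) *
      ∏ i, v (F (n + ((p * h i : ℕ) : ZMod N))) i) / N)).re ≤ C + ε * rs (PP M0 M1)

def S_EDapp : Prop := ∀ (ι : Type) [Fintype ι] (h : ι → ℕ) (ε : ℝ), 0 < ε → ∃ C : ℝ, 0 < C ∧
  ∀ (N : ℕ) [NeZero N] (G : ι → ZMod N → ℂ) (σ : ℕ → ℂ) (M0 M1 : ℕ), M0 ≤ M1 →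
    (∀ i n, ‖G i n‖ ≤ 1) → (∀ p, ‖σ p‖ ≤ 1) → (∀ p ∈ PP M0 M1, p ∣ N) →
    ∑ p ∈ PP M0 M1, (σ p * ((∑ n : ZMod N, ((ind p n - 1 / p : ℝ) : ℂ) *
      ∏ i, G i (n + ((p * h i : ℕ) : ZMod N))) / N)).re ≤ C + ε * rs (PP M0 M1)

/-! ### Sieve for systems of forms -/

def S_Rem : Prop := ∀ (ι : Type) [Fintype ι] [DecidableEq ι] (T : Finset ℕ)
  (D : ℕ → (ι → ℤ) → Prop) [∀ p x, Decidable (D p x)] (c : ℤ) (L : ℕ),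
  (∀ p ∈ T, p.Prime) →
  (∀ p ∈ T, ∀ x y : ι → ℤ, (∀ i, x i ≡ y i [ZMOD p]) → D p x → D p y) →
  |(((box ι c L).filter (fun x => ∀ p ∈ T, D p x)).card : ℝ) - (L : ℝ) ^ Fintype.card ι *
      ∏ p ∈ T, ((((box ι 0 p).filter (D p)).card : ℝ) / (p : ℝ) ^ Fintype.card ι)| ≤
    Fintype.card ι * pv T * (L : ℝ) ^ (Fintype.card ι - 1)

def S_Dens : Prop := ∀ (ι Ω : Type) [Fintype ι] [DecidableEq ι] [Fintype Ω] (a : Ω → ι → Bool),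
  Function.Injective a → (∀ ω, ∃ i, a ω i = true) → ∀ p : ℕ, p.Prime →
    (Fintype.card Ω : ℝ) / p - (Fintype.card Ω : ℝ) ^ 2 / (p : ℝ) ^ 2 ≤
      (((box ι 0 p).filter (fun x => ∃ ω, (p : ℤ) ∣ frm (a ω) x)).card : ℝ) /
        (p : ℝ) ^ Fintype.card ι ∧
    (((box ι 0 p).filter (fun x => ∃ ω, (p : ℤ) ∣ frm (a ω) x)).card : ℝ) /
        (p : ℝ) ^ Fintype.card ι ≤ (Fintype.card Ω : ℝ) / p

def S_Forms : Prop := ∀ (ι Ω : Type) [Fintype ι] [DecidableEq ι] [Fintype Ω] (a : Ω → ι → Bool),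
  Function.Injective a → (∀ ω, ∃ i, a ω i = true) → ∃ C : ℝ, 0 < C ∧
  ∀ (Y L : ℕ) (c : ℤ) (S : Finset (ι → ℤ)), 2 ≤ Y → Y ≤ L → S ⊆ box ι c L →
    (∀ x ∈ S, ∀ ω, ∃ p : ℕ, p.Prime ∧ Y < p ∧ (p : ℤ) = frm (a ω) x) →
    (S.card : ℝ) ≤ C * (L : ℝ) ^ Fintype.card ι / (Real.log Y) ^ Fintype.card Ω

def S_PrimeGow : Prop := ∀ r : ℕ, ∃ C : ℝ, 0 < C ∧ ∀ (Y : ℕ) (θ : ℤ → ℂ), 2 ≤ Y →
  (∀ u, ‖θ u‖ ≤ 1) → (∀ u, θ u ≠ 0 → ∃ p ∈ dy Y, (p : ℤ) = u) →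
  gow (3 * Y) r θ ≤ C * (Y : ℝ) ^ (r + 2) / (Real.log Y) ^ 2 ^ (r + 1)

/-! ### Generalised von Neumann -/

def S_CS : Prop := ∀ r : ℕ, ∃ C : ℝ, 0 < C ∧ ∀ (N : ℕ) [NeZero N] (H K : ℕ) (θ : ℤ → ℂ)
  (f : ZMod N → ℂ) (g : Fin r → ZMod N → ℂ) (h0 : ℤ) (h : Fin r → ℤ),
  0 < H → (∀ u, θ u ≠ 0 → 0 ≤ u ∧ u < H) → (∀ j n, ‖g j n‖ ≤ 1) →
  (∀ j, h j ≠ h0 ∧ |h0 - h j| * H ≤ K) →
  (‖∑ u ∈ Ico (0 : ℤ) H, θ u * ∑ n : ZMod N, f (n + ((u * h0 : ℤ) : ZMod N)) *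
      ∏ j, g j (n + ((u * h j : ℤ) : ZMod N))‖ / (N * H)) ^ 2 ^ (r + 1) ≤
    C * (gow H r θ / (H : ℝ) ^ (r + 2)) * (glo K r f / ((N : ℝ) ^ 2 * (H : ℝ) ^ r))

def S_Loc : Prop := ∀ (N : ℕ) [NeZero N] (r K H : ℕ) (f : ZMod N → ℂ), 4 * r * K ≤ H →
  glo K r f * ((H : ℝ) / 2) ^ 2 ≤ N * ∑ x : ZMod N, gow H r (winz f x H)

def S_GvN : Prop := ∀ (r h0 : ℕ) (h : Fin r → ℕ), (∀ j, h j ≠ h0) → ∃ D : ℕ, 0 < D ∧
  ∀ ε : ℝ, 0 < ε → ∃ C : ℝ, 0 < C ∧ ∀ (Y N : ℕ) [NeZero N] (f : ZMod N → ℂ)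
    (g : Fin r → ZMod N → ℂ) (σ : ℕ → ℂ), 2 ≤ Y → (∀ j n, ‖g j n‖ ≤ 1) → (∀ p, ‖σ p‖ ≤ 1) →
    ‖∑ p ∈ dy Y, σ p / p * ((∑ n : ZMod N, f (n + ((p * h0 : ℕ) : ZMod N)) *
        ∏ j, g j (n + ((p * h j : ℕ) : ZMod N))) / N)‖ ≤
      (ε + C * ((∑ x : ZMod N, gow (D * Y) r (winz f x (D * Y)) / ((D * Y : ℕ) : ℝ) ^ (r + 2)) / N)) /
        Real.log Y

/-! ### Assembly -/

def S_Mult : Prop := ∀ (ι : Type) [Fintype ι] (g : ι → ℕ → ℂ) (h : ι → ℕ) (b p M N : ℕ) [NeZero N],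
  (∀ i, CM (g i)) → (∀ i, h i ≤ b) → N = p * M →
  ‖∑ n : ZMod N, (ind p n : ℂ) * ∏ i, g i (n + ((p * h i : ℕ) : ZMod N)).val -
      (∏ i, g i p) * ∑ m ∈ Icc 1 M, ∏ i, g i (m + h i)‖ ≤ 2 * b + 2

def S_Wrap : Prop := ∀ (N : ℕ) [NeZero N] (k H : ℕ) (f : ℕ → ℂ), (∀ n, ‖f n‖ ≤ 1) →
  ∑ x : ZMod N, gow H k (winz (fun n => f n.val) x H) / (H : ℝ) ^ (k + 2) ≤
    ∑ x ∈ Icc 1 N, cube k f x H + (H + 1) * 2 ^ k

def S_One : Prop := ∀ (r h0 : ℕ) (h : Fin r → ℕ), (∀ j, h j ≠ h0) → ∃ D : ℕ, 0 < D ∧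
  ∀ ε : ℝ, 0 < ε → ∃ C : ℝ, 0 < C ∧ ∀ M0 M1 : ℕ, 1 ≤ M0 → M0 ≤ M1 → ∃ B : ℝ, 0 ≤ B ∧
    ∀ (f : ℕ → ℂ) (g : Fin r → ℕ → ℂ), CM f → (∀ j, CM (g j)) →
      (∀ p ∈ PP M0 M1, ‖f p‖ = 1 ∧ ∀ j, ‖g j p‖ = 1) → ∀ L : ℕ, 1 ≤ L →
      ∑ p ∈ PP M0 M1, (1 / (p : ℝ)) *
          ‖av (fun n => f (n + h0) * ∏ j, g j (n + h j)) (pv (PP M0 M1) / p * L)‖ ≤
        C + ε * rs (PP M0 M1) + B / L + ∑ m ∈ Ico M0 M1,
          (ε + C * ((∑ x ∈ Icc 1 (pv (PP M0 M1) * L), cube r f x (D * 2 ^ m)) /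
            ((pv (PP M0 M1) * L : ℕ) : ℝ))) / m

def S_Dil : Prop := ∀ (a : ℕ → ℂ) (q Q X : ℕ), (∀ n, ‖a n‖ ≤ 1) → 1 ≤ q → q ≤ Q →
  ∑ N ∈ Icc 1 X, (1 / (N : ℝ)) * ‖av a N‖ ≤
    ∑ L ∈ Icc 1 (X / Q), (1 / (L : ℝ)) * ‖av a (q * L)‖ + (2 * Q + 4)

def S_Swap : Prop := ∀ (c : ℕ → ℝ) (Q X : ℕ), (∀ x, 0 ≤ c x) → 1 ≤ Q →
  ∑ L ∈ Icc 1 (X / Q), (1 / (L : ℝ)) * ((∑ x ∈ Icc 1 (Q * L), c x) / ((Q * L : ℕ) : ℝ)) ≤
    2 * ∑ x ∈ Icc 1 X, (1 / (x : ℝ)) * c x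

/-- from almost all scales to logarithmic weights -/
def S_Log : Prop := ∀ (a : ℕ → ℂ) (X : ℕ), (∀ n, ‖a n‖ ≤ 1) →
  ‖∑ n ∈ Icc 1 X, a n / n‖ ≤ ∑ N ∈ Icc 1 X, (1 / (N : ℝ)) * ‖av a N‖ + 1

/-- affine forms -/
def S_Aff : Prop := ∀ (r : ℕ) (f : ℕ → ℂ) (g : Fin r → ℕ → ℂ) (a0 b0 : ℕ) (a b : Fin r → ℕ),
  PCM f → (∀ j, PCM (g j)) → (∀ n, n ≠ 0 → ‖f n‖ = 1) → (∀ j n, n ≠ 0 → ‖g j n‖ = 1) →
  0 < a0 → (∀ j, 0 < a j) → (∀ j, a0 * b j ≠ a j * b0) → LUk (r + 1) f atTop → ∀ δ : ℝ, 0 < δ →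
    ∀ᶠ X : ℕ in atTop, ∑ N ∈ Icc 1 X, (1 / (N : ℝ)) *
      ‖av (fun n => f (a0 * n + b0) * ∏ j, g j (a j * n + b j)) N‖ ≤ δ * Real.log X

/-! ### Small facts -/

theorem mem_dy {Y p : ℕ} : p ∈ dy Y ↔ p.Prime ∧ Y < p ∧ p ≤ 2 * Y := by
  simp only [dy, mem_filter, mem_Ioc]; tauto

theorem mem_PP {a b p : ℕ} : p ∈ PP a b ↔ p.Prime ∧ 2 ^ a < p ∧ p ≤ 2 ^ b := by
  simp only [PP, mem_filter, mem_Ioc]; tauto

theorem sum_PP {M : Type*} [AddCommMonoid M] (φ : ℕ → M) {a b : ℕ} (hab : a ≤ b) :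
    ∑ p ∈ PP a b, φ p = ∑ m ∈ Ico a b, ∑ p ∈ dy (2 ^ m), φ p := by
  induction b, hab using Nat.le_induction with
  | base => simp [PP]
  | succ b hab ih =>
    rw [sum_Ico_succ_top hab, ← ih, ← sum_union]
    · congr 1
      ext p
      have h1 : 2 ^ a ≤ 2 ^ b := Nat.pow_le_pow_right (by norm_num) hab
      simp only [mem_union, mem_PP, mem_dy, pow_succ]
      constructor
      · rintro ⟨h, h2, h3⟩
        by_cases h4 : p ≤ 2 ^ b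
        · exact Or.inl ⟨h, h2, h4⟩
        · exact Or.inr ⟨h, by omega, by omega⟩
      · rintro (⟨h, h2, h3⟩ | ⟨h, h2, h3⟩)
        · exact ⟨h, h2, by omega⟩
        · exact ⟨h, by omega, by omega⟩
    · rw [disjoint_left]
      intro p hp hq
      rw [mem_PP] at hp
      rw [mem_dy] at hq
      omega

theorem dy_disjoint {m m' : ℕ} (h : m ≠ m') : Disjoint (dy (2 ^ m)) (dy (2 ^ m')) := by
  rw [disjoint_left]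
  intro p hp hq
  rw [mem_dy] at hp hq
  rcases lt_or_gt_of_ne h with h | h
  · have : 2 ^ (m + 1) ≤ 2 ^ m' := Nat.pow_le_pow_right (by norm_num) h
    rw [pow_succ] at this; omega
  · have : 2 ^ (m' + 1) ≤ 2 ^ m := Nat.pow_le_pow_right (by norm_num) h
    rw [pow_succ] at this; omega

theorem ind_eq {N p : ℕ} [NeZero N] (hp : p ∣ N) (n : ZMod N) :
    ind p n = if ZMod.castHom hp (ZMod p) n = 0 then 1 else 0 := by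
  unfold ind
  rw [ZMod.castHom_apply, ZMod.cast_eq_val]
  simp only [ZMod.natCast_eq_zero_iff]

theorem ind_add {N p : ℕ} [NeZero N] (hp : p ∣ N) (n : ZMod N) : ind p (n + (p : ZMod N)) = ind p n := by
  rw [ind_eq hp, ind_eq hp, map_add, map_natCast, ZMod.natCast_self, add_zero]

theorem ind_nonneg {N : ℕ} (p : ℕ) (n : ZMod N) : 0 ≤ ind p n := by
  unfold ind; split_ifs <;> norm_num

theorem ind_le_one {N : ℕ} (p : ℕ) (n : ZMod N) : ind p n ≤ 1 := by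
  unfold ind; split_ifs <;> norm_num

theorem sum_val {M : Type*} [AddCommMonoid M] {N : ℕ} [NeZero N] (φ : ℕ → M) :
    ∑ n : ZMod N, φ n.val = ∑ n ∈ range N, φ n := by
  refine sum_nbij' (fun n => n.val) (fun n => (n : ZMod N)) ?_ ?_ ?_ ?_ ?_
  · intro n _; exact mem_range.2 (ZMod.val_lt n)
  · intro n _; exact mem_univ _
  · intro n _; exact ZMod.natCast_zmod_val n
  · intro n hn; exact ZMod.val_cast_of_lt (mem_range.1 hn)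
  · intro n _; rfl

theorem sum_ind {N p : ℕ} [NeZero N] (hp : p ∣ N) : ∑ n : ZMod N, ind p n = (N : ℝ) / p := by
  have hN : N ≠ 0 := NeZero.ne N
  obtain ⟨M, rfl⟩ := hp
  have hp0 : p ≠ 0 := left_ne_zero_of_mul hN
  have h := sum_val (N := p * M) (fun n => if p ∣ n then (1 : ℝ) else 0)
  unfold ind
  rw [h, ← sum_filter, sum_const, nsmul_eq_mul, mul_one]
  have e : (range (p * M)).filter (fun n => p ∣ n) = (range M).image (fun m => p * m) := by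
    ext n
    simp only [mem_filter, mem_range, mem_image]
    constructor
    · rintro ⟨h1, m, rfl⟩
      exact ⟨m, lt_of_mul_lt_mul_left h1 (Nat.zero_le _), rfl⟩
    · rintro ⟨m, h1, rfl⟩
      exact ⟨Nat.mul_lt_mul_of_pos_left h1 (Nat.pos_of_ne_zero hp0), dvd_mul_right _ _⟩
  rw [e, card_image_of_injective _ (mul_right_injective₀ hp0), card_range]
  have : (p : ℝ) ≠ 0 := by exact_mod_cast hp0
  push_cast; field_simp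

theorem sum_shift {M : Type*} [AddCommMonoid M] {N : ℕ} [NeZero N] (φ : ZMod N → M) (c : ZMod N) :
    ∑ n, φ (n + c) = ∑ n, φ n := Equiv.sum_comp (Equiv.addRight c) φ

theorem glo_zero {N : ℕ} [NeZero N] (K : ℕ) (f : ZMod N → ℂ) : glo K 0 f = ‖∑ n, f n‖ ^ 2 := rfl

theorem glo_succ {N : ℕ} [NeZero N] (K k : ℕ) (f : ZMod N → ℂ) :
    glo K (k + 1) f = ∑ h ∈ Ioo (-(K : ℤ)) K, glo K k (dlz h f) := rfl

theorem glo_nonneg {N : ℕ} [NeZero N] (K k : ℕ) (f : ZMod N → ℂ) : 0 ≤ glo K k f := by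
  induction k generalizing f with
  | zero => rw [glo_zero]; positivity
  | succ k ih => rw [glo_succ]; exact sum_nonneg fun h _ => ih _

theorem norm_av_le {a : ℕ → ℂ} (ha : ∀ n, ‖a n‖ ≤ 1) (M : ℕ) : ‖av a M‖ ≤ 1 := by
  unfold av
  rcases Nat.eq_zero_or_pos M with rfl | hM
  · simp
  · have h1 : ‖∑ n ∈ Icc 1 M, a n‖ ≤ M := by
      refine (norm_sum_le _ _).trans ((sum_le_card_nsmul _ _ 1 fun n _ => ha n).trans ?_)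
      simp
    have h2 : (0 : ℝ) < M := by exact_mod_cast hM
    rw [norm_mul, norm_div, norm_one, Complex.norm_natCast, one_div_mul_eq_div, div_le_one h2]
    exact h1

theorem norm_prod_le_one {ι : Type*} (s : Finset ι) {a : ι → ℂ} (ha : ∀ i ∈ s, ‖a i‖ ≤ 1) :
    ‖∏ i ∈ s, a i‖ ≤ 1 := by
  rw [norm_prod]; exact prod_le_one (fun _ _ => norm_nonneg _) ha

end Pool.Agent.P.MP_a14ce1_nt.V
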