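import Pool.Agent.P.MP_a14ce1_nt.Ch.Defs

/-!
The local Gowers norm: the interface between the inverse theorem, the lifting argument and the
entropy decrement argument.
-/

open Finset Filter

namespace Pool.Agent.P.MP_a14ce1_nt.V

/-- multiplicative derivative -/
noncomputable def dl (h : ℤ) (φ : ℤ → ℂ) : ℤ → ℂ := fun n => φ (n + h) * (starRingEnd ℂ) (φ n)

/-- For φ supported in [0, H), `gow H k φ` is the sum over all cubes of dimension k + 1, that is the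
power 2 ^ (k + 1) of the unnormalised U^(k+1) norm on the integers. Natural size H ^ (k + 2). -/
noncomputable def gow (H : ℕ) : ℕ → (ℤ → ℂ) → ℝ
  | 0, φ => ‖∑ n ∈ Ico (0 : ℤ) H, φ n‖ ^ 2
  | k + 1, φ => ∑ h ∈ Ioo (-(H : ℤ)) H, gow H k (dl h φ)

/-- f on the window [x, x + H), moved to [0, H) and extended by zero -/
noncomputable def win (f : ℕ → ℂ) (x H : ℕ) : ℤ → ℂ :=
  fun n => if 0 ≤ n ∧ n < H then f (x + n.toNat) else 0

/-- normalised local U^(k+1) cube average of f on [x, x + H) -/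
noncomputable def cube (k : ℕ) (f : ℕ → ℂ) (x H : ℕ) : ℝ := gow H k (win f x H) / (H : ℝ) ^ (k + 2)

/-- local U^(k+1) uniformity, logarithmically averaged over the positions, along the scales l -/
def LUk (k : ℕ) (f : ℕ → ℂ) (l : Filter ℕ) : Prop :=
  ∀ δ : ℝ, 0 < δ → ∃ H0 : ℕ, ∀ H : ℕ, H0 ≤ H → ∀ᶠ X : ℕ in l,
    ∑ x ∈ Icc 1 X, (1 / (x : ℝ)) * cube k f x H ≤ δ * Real.log X

/-- local uniformity of every order -/
def LU (f : ℕ → ℂ) (l : Filter ℕ) : Prop := ∀ k : ℕ, LUk k f l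

/-- completely multiplicative, bounded by one, of modulus one at all large primes -/
structure PCM (f : ℕ → ℂ) : Prop where
  cm : Ch.CM f
  uni : ∃ p0 : ℕ, ∀ p : ℕ, p.Prime → p0 ≤ p → ‖f p‖ = 1

/-- Part V: local uniformity of one factor kills the correlations at almost all scales. -/
def S_V : Prop := ∀ (r : ℕ) (f : ℕ → ℂ) (g : Fin r → ℕ → ℂ) (h0 : ℕ) (h : Fin r → ℕ) (l : Filter ℕ),
  l ≤ atTop → PCM f → (∀ j, PCM (g j)) → (∀ j, h j ≠ h0) → LUk r f l → ∀ δ : ℝ, 0 < δ →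
    ∀ᶠ X : ℕ in l, ∑ N ∈ Icc 1 X, (1 / (N : ℝ)) *
      ‖(1 / (N : ℂ)) * ∑ n ∈ Icc 1 N, f (n + h0) * ∏ j, g j (n + h j)‖ ≤ δ * Real.log X

theorem gow_zero (H : ℕ) (φ : ℤ → ℂ) : gow H 0 φ = ‖∑ n ∈ Ico (0 : ℤ) H, φ n‖ ^ 2 := rfl

theorem gow_succ (H k : ℕ) (φ : ℤ → ℂ) :
    gow H (k + 1) φ = ∑ h ∈ Ioo (-(H : ℤ)) H, gow H k (dl h φ) := rfl

theorem gow_nonneg (H k : ℕ) (φ : ℤ → ℂ) : 0 ≤ gow H k φ := by
  induction k generalizing φ with
  | zero => rw [gow_zero]; positivity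
  | succ k ih => rw [gow_succ]; exact sum_nonneg fun h _ => ih _

theorem norm_dl_le {φ : ℤ → ℂ} (hφ : ∀ n, ‖φ n‖ ≤ 1) (h n : ℤ) : ‖dl h φ n‖ ≤ 1 := by
  unfold dl
  rw [norm_mul, RCLike.norm_conj]
  exact mul_le_one₀ (hφ _) (norm_nonneg _) (hφ _)

theorem dl_eq_zero {φ : ℤ → ℂ} {n : ℤ} (h : ℤ) (hn : φ n = 0) : dl h φ n = 0 := by
  simp [dl, hn]

theorem gow_le (H k : ℕ) (φ : ℤ → ℂ) (hφ : ∀ n, ‖φ n‖ ≤ 1) :
    gow H k φ ≤ 2 ^ k * (H : ℝ) ^ (k + 2) := by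
  induction k generalizing φ with
  | zero =>
    rw [gow_zero]
    have h1 : ‖∑ n ∈ Ico (0 : ℤ) H, φ n‖ ≤ H := by
      refine (norm_sum_le _ _).trans ((sum_le_card_nsmul _ _ 1 fun n _ => hφ n).trans ?_)
      simp
    simpa using pow_le_pow_left₀ (norm_nonneg _) h1 2
  | succ k ih =>
    rw [gow_succ]
    refine (sum_le_card_nsmul _ _ _ fun h _ => ih _ (norm_dl_le hφ h)).trans ?_
    have hc : ((Ioo (-(H : ℤ)) H).card : ℝ) ≤ 2 * H := by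
      have : (Ioo (-(H : ℤ)) H).card ≤ 2 * H := by rw [Int.card_Ioo]; omega
      exact_mod_cast this
    rw [nsmul_eq_mul]
    calc _ ≤ (2 * H) * (2 ^ k * (H : ℝ) ^ (k + 2)) := by gcongr
      _ = _ := by ring

theorem norm_win_le {f : ℕ → ℂ} (hf : ∀ n, ‖f n‖ ≤ 1) (x H : ℕ) (n : ℤ) : ‖win f x H n‖ ≤ 1 := by
  unfold win; split_ifs
  · exact hf _
  · simp

theorem cube_nonneg (k : ℕ) (f : ℕ → ℂ) (x H : ℕ) : 0 ≤ cube k f x H :=
  div_nonneg (gow_nonneg _ _ _) (by positivity)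

theorem cube_le (k : ℕ) {f : ℕ → ℂ} (hf : ∀ n, ‖f n‖ ≤ 1) (x H : ℕ) : cube k f x H ≤ 2 ^ k := by
  unfold cube
  rcases Nat.eq_zero_or_pos H with rfl | hH
  · simp
  · rw [div_le_iff₀ (by positivity)]
    exact gow_le _ _ _ (norm_win_le hf x H)

end Pool.Agent.P.MP_a14ce1_nt.V
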