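import Pool.Agent.P.MP_a14ce1_nt.V.St

/-! Generalised von Neumann estimate along primes of a dyadic block. -/

open Finset Filter

namespace Pool.Agent.P.MP_a14ce1_nt.V

namespace GvN

/-- the weight on the primes of the block -/
noncomputable def th (σ : ℕ → ℂ) (Y : ℕ) (u : ℤ) : ℂ :=
  if 0 ≤ u ∧ u.toNat ∈ dy Y then σ u.toNat * Y / u.toNat else 0

theorem th_supp {σ : ℕ → ℂ} {Y : ℕ} {u : ℤ} (h : th σ Y u ≠ 0) : ∃ p ∈ dy Y, (p : ℤ) = u := by
  unfold th at h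
  split_ifs at h with h1
  · exact ⟨_, h1.2, Int.toNat_of_nonneg h1.1⟩
  · exact absurd rfl h

theorem th_le {σ : ℕ → ℂ} (hσ : ∀ p, ‖σ p‖ ≤ 1) (Y : ℕ) (u : ℤ) : ‖th σ Y u‖ ≤ 1 := by
  unfold th
  split_ifs with h1
  · have h2 := (mem_dy.1 h1.2).2.1
    have h3 : (Y : ℝ) < u.toNat := by exact_mod_cast h2
    have h4 : (0 : ℝ) ≤ Y := by positivity
    rw [norm_div, norm_mul, Complex.norm_natCast, Complex.norm_natCast, div_le_one (by linarith)]
    nlinarith [hσ u.toNat]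
  · simp

theorem sum_th (σ : ℕ → ℂ) (Y : ℕ) (S : ℤ → ℂ) :
    ∑ u ∈ Ico (0 : ℤ) (3 * Y : ℕ), th σ Y u * S u = ∑ p ∈ dy Y, σ p * Y / p * S p := by
  have h1 : (dy Y).image (fun p : ℕ => (p : ℤ)) ⊆ Ico (0 : ℤ) (3 * Y : ℕ) := by
    intro u hu
    obtain ⟨p, hp, rfl⟩ := mem_image.1 hu
    have := mem_dy.1 hp
    rw [mem_Ico]
    omega
  rw [← sum_subset h1 fun u _ hu => by
    by_contra h
    obtain ⟨p, hp, e⟩ := th_supp (left_ne_zero_of_mul h)
    exact hu (mem_image.2 ⟨p, hp, e⟩), sum_image fun a _ b _ e => by exact_mod_cast e]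
  refine sum_congr rfl fun p hp => ?_
  rw [th, Int.toNat_natCast, if_pos ⟨Int.natCast_nonneg p, hp⟩]

theorem final {a ε E v : ℝ} {m : ℕ} (hε : 0 < ε) (hE : 0 < E) (hv : 0 ≤ v)
    (h : a ^ (m + 1) ≤ E * v) : 3 * a ≤ ε + 3 * E / (ε / 3) ^ m * v := by
  have h0 : 0 < (ε / 3) ^ m := by positivity
  rcases le_or_gt a (ε / 3) with h1 | h1
  · have : 0 ≤ 3 * E / (ε / 3) ^ m * v := by positivity
    linarith
  · have h2 : (ε / 3) ^ m ≤ a ^ m := pow_le_pow_left₀ (by positivity) h1.le m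
    have h3 : 3 * a ≤ 3 * E / (ε / 3) ^ m * v := by
      rw [div_mul_eq_mul_div, le_div_iff₀ h0]
      rw [pow_succ] at h
      nlinarith [mul_le_mul_of_nonneg_right h2 (show 0 ≤ a by linarith)]
    linarith

end GvN

theorem gvn (hP : S_PrimeGow) (hC : S_CS) (hL : S_Loc) : S_GvN := by
  intro r h0 h hne
  obtain ⟨C1, hC1, hP⟩ := hP r
  obtain ⟨C2, hC2, hC⟩ := hC r
  set A : ℕ := h0 + ∑ j, h j + 1 with hA
  set D : ℕ := 12 * (r + 1) * A with hD
  have hD0 : 0 < D := by positivity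
  refine ⟨D, hD0, fun ε hε => ?_⟩
  obtain ⟨m, hm⟩ : ∃ m, 2 ^ (r + 1) = m + 1 :=
    ⟨2 ^ (r + 1) - 1, (Nat.sub_add_cancel Nat.one_le_two_pow).symm⟩
  have hD1 : (0 : ℝ) < D := by exact_mod_cast hD0
  refine ⟨3 * (C2 * C1 * (4 * (D : ℝ) ^ r)) / (ε / 3) ^ m, by positivity,
    fun Y N _ f g σ hY hg hσ => ?_⟩
  have hY0 : (0 : ℝ) < Y := by exact_mod_cast (show 0 < Y by omega)
  have hN0 : (0 : ℝ) < N := by exact_mod_cast NeZero.pos N
  have hl : 0 < Real.log Y := Real.log_pos (by exact_mod_cast (show 1 < Y by omega))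
  have h1 := hP Y (GvN.th σ Y) hY (GvN.th_le hσ Y) fun u => GvN.th_supp
  have h2 := hC N (3 * Y) (A * (3 * Y)) (GvN.th σ Y) f g h0 (fun j => h j) (by omega)
    (fun u hu => by
      obtain ⟨p, hp, rfl⟩ := GvN.th_supp hu
      have := mem_dy.1 hp
      omega) hg fun j => ⟨by exact_mod_cast hne j, by
      have e1 : h j ≤ ∑ j, h j := single_le_sum (fun _ _ => Nat.zero_le _) (mem_univ j)
      have e2 : |(h0 : ℤ) - h j| ≤ A := abs_le.2 ⟨by omega, by omega⟩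
      rw [Nat.cast_mul A]
      exact mul_le_mul_of_nonneg_right e2 (by positivity)⟩
  have h3 := hL N r (A * (3 * Y)) (D * Y) f (by
    have : D * Y = 4 * r * (A * (3 * Y)) + 12 * A * Y := by rw [hD]; ring
    omega)
  rw [GvN.sum_th, hm] at h2
  rw [hm] at h1
  rw [← sum_div]
  set G := ∑ x : ZMod N, gow (D * Y) r (winz f x (D * Y)) with hG
  have hG0 : 0 ≤ G := sum_nonneg fun _ _ => gow_nonneg _ _ _
  set Λ := ∑ p ∈ dy Y, σ p * Y / p * ∑ n : ZMod N, f (n + (((p : ℤ) * (h0 : ℤ) : ℤ) : ZMod N)) *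
    ∏ j, g j (n + (((p : ℤ) * (h j : ℤ) : ℤ) : ZMod N)) with hΛ
  have e1 : ∑ p ∈ dy Y, σ p / p * ((∑ n : ZMod N, f (n + ((p * h0 : ℕ) : ZMod N)) *
      ∏ j, g j (n + ((p * h j : ℕ) : ZMod N))) / N) = Λ / (N * Y) := by
    rw [hΛ, sum_div]
    refine sum_congr rfl fun p _ => ?_
    have : (Y : ℂ) ≠ 0 := by exact_mod_cast hY0.ne'
    simp only [← Nat.cast_mul, Int.cast_natCast]
    rw [Nat.cast_mul N Y]
    field_simp
  have g1 : gow (3 * Y) r (GvN.th σ Y) / ((3 * Y : ℕ) : ℝ) ^ (r + 2) ≤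
      C1 / Real.log Y ^ (m + 1) := by
    rw [div_le_iff₀ (by positivity), div_mul_eq_mul_div]
    refine h1.trans ?_
    gcongr
    omega
  have g2 : glo (A * (3 * Y)) r f / ((N : ℝ) ^ 2 * ((3 * Y : ℕ) : ℝ) ^ r) ≤
      4 * (D : ℝ) ^ r * (G / ((D * Y : ℕ) : ℝ) ^ (r + 2) / N) := by
    have e2 : glo (A * (3 * Y)) r f ≤ N * G / (((D * Y : ℕ) : ℝ) / 2) ^ 2 := by
      rwa [le_div_iff₀ (by positivity)]
    calc _ ≤ N * G / (((D * Y : ℕ) : ℝ) / 2) ^ 2 / ((N : ℝ) ^ 2 * (Y : ℝ) ^ r) := by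
          gcongr
          omega
      _ = _ := by
          push_cast
          rw [mul_pow, pow_add, pow_add]
          field_simp
          ring
  have g3 : (Real.log Y * (‖Λ‖ / (N * (3 * Y : ℕ)))) ^ (m + 1) ≤
      C2 * C1 * (4 * (D : ℝ) ^ r) * (G / ((D * Y : ℕ) : ℝ) ^ (r + 2) / N) := by
    rw [mul_pow]
    refine (mul_le_mul_of_nonneg_left (h2.trans (mul_le_mul (mul_le_mul_of_nonneg_left g1 hC2.le)
      g2 (div_nonneg (glo_nonneg _ _ _) (by positivity)) (by positivity))) (by positivity)).trans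
      (le_of_eq ?_)
    field_simp
  rw [e1, le_div_iff₀ hl]
  refine le_trans (le_of_eq ?_) (GvN.final hε (by positivity) (by positivity) g3)
  rw [norm_div, norm_mul, Complex.norm_natCast, Complex.norm_natCast]
  push_cast
  field_simp

end Pool.Agent.P.MP_a14ce1_nt.V
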